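import Mathlib

/-! Definitions for the growth of almost all trajectories of the `5x+1` map beyond the horizon.
`S` is always a finite set of natural numbers: the set of odd times of a trajectory. The pairs are the two positions `2j, 2j+1`. -/

set_option autoImplicit false

namespace Pool.Agent.MP81cdd9.HZ

open Finset

/-- the `5x+1` map -/
def T (n : ℤ) : ℤ := if n % 2 = 0 then n / 2 else (5 * n + 1) / 2

/-- the number of elements of `S` below `k` -/
def cnt (S : Finset ℕ) (k : ℕ) : ℕ := (S.filter (fun i => i < k)).card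

/-- the odd times before `L` -/
def par (L : ℕ) (n : ℤ) : Finset ℕ := (range L).filter (fun k => (T^[k] n) % 2 = 1)

/-- `N(S) = - ∑_{i ∈ S} 2^i z^(cnt S (i+1))`; here `5 z = 1` modulo a power of two -/
def NN (z : ℤ) (S : Finset ℕ) : ℤ := -∑ i ∈ S, 2 ^ i * z ^ cnt S (i + 1)

/-- the pair `j` is mixed: exactly one of `2j`, `2j+1` belongs to `S` -/
def mix (S : Finset ℕ) (j : ℕ) : Prop := cnt S (2 * j + 2) = cnt S (2 * j) + 1

instance (S : Finset ℕ) (j : ℕ) : Decidable (mix S j) := inferInstanceAs (Decidable (_ = _))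

/-- the permutation of `ℕ` which exchanges `2j` and `2j+1` for `j ∈ U` -/
def piU (U : Finset ℕ) (i : ℕ) : ℕ := if i / 2 ∈ U then (if i % 2 = 0 then i + 1 else i - 1) else i

/-- swap the pairs in `U` -/
def sw (U S : Finset ℕ) : Finset ℕ := S.image (piU U)

/-- `β_j = 4^j z^(cnt S (2j) + 1)` -/
def bet (z : ℤ) (S : Finset ℕ) (j : ℕ) : ℤ := 4 ^ j * z ^ (cnt S (2 * j) + 1)

/-- the change of `N(S)` if the pair `j` is swapped -/
def gam (z : ℤ) (S : Finset ℕ) (j : ℕ) : ℤ :=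
  if mix S j then (if 2 * j ∈ S then - bet z S j else bet z S j) else 0

/-- `j` is white for `η`: the distance of `η β_j / 2^K` to the integers is at least `1/T0` -/
def white (K : ℕ) (z : ℤ) (S : Finset ℕ) (T0 : ℝ) (η : ℤ) (j : ℕ) : Prop :=
  1 / T0 ≤ |((η * bet z S j : ℤ) : ℝ) / 2 ^ K - round (((η * bet z S j : ℤ) : ℝ) / 2 ^ K)|

open Classical in
/-- number of white mixed pairs in the block `[s, s+B)` -/
noncomputable def wcnt (K : ℕ) (z : ℤ) (S : Finset ℕ) (T0 : ℝ) (η : ℤ) (s B : ℕ) : ℕ :=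
  ((range B).filter (fun x => mix S (s + x) ∧ white K z S T0 η (s + x))).card

/-- `P_s` is good (block length `B`): no short vector -/
def goodP (K J j1 B : ℕ) (S : Finset ℕ) (s : ℕ) : Prop :=
  ∀ d r : ℤ, 1 ≤ d → d < 2 ^ (J - j1) → |r| < 2 ^ (K - 2 * s - J) →
    ¬ ((2 : ℤ) ^ (K - 2 * s) ∣ d - 5 ^ cnt S (2 * (s + B)) * r)

/-- `x` is void: `ρ` consecutive non-mixed pairs end at `x` -/
def voidAt (S : Finset ℕ) (ρ x : ℕ) : Prop := ρ ≤ x + 1 ∧ ∀ i < ρ, ¬ mix S (x - i)

/-- (C1): every cell of `20 m` pairs contains at least `19 m` ones -/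
def C1 (S : Finset ℕ) (m H : ℕ) : Prop :=
  ∀ c, (c + 1) * (20 * m) ≤ H → cnt S (2 * (c * (20 * m))) + 19 * m ≤ cnt S (2 * ((c + 1) * (20 * m)))

open Classical in
/-- (C2): few void `x` in every cell of `l` pairs and every residue class modulo `ρ` -/
def C2 (S : Finset ℕ) (ρ l Kc H : ℕ) : Prop :=
  ∀ c, (c + 1) * l ≤ H → ∀ r < ρ,
    ((Ico (c * l) ((c + 1) * l)).filter (fun x => x % ρ = r ∧ voidAt S ρ x)).card < Kc

/-- the range of `η` -/
noncomputable def etas (J : ℕ) : Finset ℤ := Ioo (-(2 : ℤ) ^ (J - 3)) ((2 : ℤ) ^ (J - 3))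

end Pool.Agent.MP81cdd9.HZ
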