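import Pool.Agent.Lib.MP_81cdd9_nt.HZ.Defs

/-! The parity formula. -/

set_option autoImplicit false

namespace Pool.Agent.MP81cdd9.HZ

open Finset

/-- PROOF. The filter of `S` by `< k+1` is the filter by `< k` and perhaps `k`. -/
theorem cnt_succ (S : Finset ℕ) (k : ℕ) : cnt S (k + 1) = cnt S k + (if k ∈ S then 1 else 0) := by
  unfold cnt
  rw [Finset.card_filter, Finset.card_filter, ← Finset.sum_ite_eq' S k (fun _ => 1),
    ← Finset.sum_add_distrib]
  refine Finset.sum_congr rfl fun i _ => ?_
  split_ifs <;> omega

/-- PROOF. Monotonicity of filters. -/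
theorem cnt_mono (S : Finset ℕ) {k k' : ℕ} (h : k ≤ k') : cnt S k ≤ cnt S k' := by
  unfold cnt
  refine Finset.card_le_card fun i hi => ?_
  rw [Finset.mem_filter] at hi ⊢
  exact ⟨hi.1, by omega⟩

/-- PROOF. `T x * 2 = x` if `x` is even, `T x * 2 = 5 * x + 1` if `x` is odd (omega after unfolding). -/
theorem two_T (x : ℤ) : 2 * T x = if x % 2 = 1 then 5 * x + 1 else x := by
  unfold T
  split_ifs <;> omega

/-- The formula for the iterates.
PROOF. Induction on `k` (`Function.iterate_succ_apply'`, `two_T`, `cnt_succ`): if `k ∉ par L n` then `T^[k] n` is even, all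
terms are unchanged; if `k ∈ par L n` then
`2^(k+1) T^[k+1] n = 2^k (5 T^[k] n + 1) = 5^(c+1) n + 5 (old sum) + 2^k`; in the old sum `5 * 5^(c - cnt (i+1)) = 5^(c+1-cnt(i+1))`
(`cnt (i+1) ≤ c` for `i < k`) and the new term is `2^k 5^(c+1-(c+1))`. -/
theorem iter_formula (L : ℕ) (n : ℤ) (k : ℕ) (hk : k ≤ L) :
    2 ^ k * T^[k] n = 5 ^ cnt (par L n) k * n +
      ∑ i ∈ (par L n).filter (fun i => i < k), 2 ^ i * 5 ^ (cnt (par L n) k - cnt (par L n) (i + 1)) := by
  induction k with
  | zero => simp [cnt]
  | succ k ih =>
    have ih' := ih (by omega)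
    have h2 : 2 ^ (k + 1) * T^[k + 1] n = 2 ^ k * (2 * T (T^[k] n)) := by
      rw [Function.iterate_succ_apply', pow_succ]
      ring
    rw [h2, two_T]
    by_cases hx : (T^[k] n) % 2 = 1
    · have hk' : k ∈ par L n := by
        rw [par, Finset.mem_filter, Finset.mem_range]
        exact ⟨by omega, hx⟩
      have hc : cnt (par L n) (k + 1) = cnt (par L n) k + 1 := by
        rw [cnt_succ, if_pos hk']
      have hf : (par L n).filter (fun i => i < k + 1) =
          insert k ((par L n).filter (fun i => i < k)) := by
        ext i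
        rw [Finset.mem_insert, Finset.mem_filter, Finset.mem_filter]
        constructor
        · rintro ⟨h1, h2⟩
          rcases Nat.lt_or_ge i k with h3 | h3
          · exact Or.inr ⟨h1, h3⟩
          · exact Or.inl (by omega)
        · rintro (h1 | h1)
          · rw [h1]
            exact ⟨hk', by omega⟩
          · exact ⟨h1.1, by omega⟩
      have hnm : k ∉ (par L n).filter (fun i => i < k) := by
        rw [Finset.mem_filter]
        omega
      rw [if_pos hx, hf, Finset.sum_insert hnm, hc, Nat.sub_self, pow_zero, mul_one]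
      have hsum : ∑ i ∈ (par L n).filter (fun i => i < k),
            (2 : ℤ) ^ i * 5 ^ (cnt (par L n) k + 1 - cnt (par L n) (i + 1)) =
          5 * ∑ i ∈ (par L n).filter (fun i => i < k),
            (2 : ℤ) ^ i * 5 ^ (cnt (par L n) k - cnt (par L n) (i + 1)) := by
        rw [Finset.mul_sum]
        refine Finset.sum_congr rfl fun i hi => ?_
        rw [Finset.mem_filter] at hi
        have h3 : cnt (par L n) (i + 1) ≤ cnt (par L n) k := cnt_mono _ (by omega)
        have h4 : cnt (par L n) k + 1 - cnt (par L n) (i + 1) =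
            (cnt (par L n) k - cnt (par L n) (i + 1)) + 1 := by omega
        rw [h4, pow_succ]
        ring
      rw [hsum, pow_succ]
      linear_combination 5 * ih'
    · have hk' : k ∉ par L n := by
        rw [par, Finset.mem_filter]
        exact fun h => hx h.2
      have hc : cnt (par L n) (k + 1) = cnt (par L n) k := by
        rw [cnt_succ, if_neg hk', add_zero]
      have hf : (par L n).filter (fun i => i < k + 1) =
          (par L n).filter (fun i => i < k) := by
        ext i
        rw [Finset.mem_filter, Finset.mem_filter]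
        constructor
        · rintro ⟨h1, h2⟩
          refine ⟨h1, ?_⟩
          rcases Nat.lt_or_ge i k with h3 | h3
          · exact h3
          · have h4 : i = k := by omega
            rw [h4] at h1
            exact absurd h1 hk'
        · rintro h1
          exact ⟨h1.1, by omega⟩
      rw [if_neg hx, hf, hc]
      exact ih'

/-- PROOF. `par L n ⊆ range L`. -/
theorem cnt_par (L : ℕ) (n : ℤ) : cnt (par L n) L = (par L n).card := by
  unfold cnt
  congr 1
  rw [Finset.filter_eq_self]
  intro i hi
  rw [par, Finset.mem_filter, Finset.mem_range] at hi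
  exact hi.1

/-- an inverse of 5 modulo `2^K`. PROOF. `5` and `2^K` are coprime (Bezout, `Int.exists_mul_emod_eq_one_of_coprime` or
`IsCoprime`). -/
theorem exists_inv (K : ℕ) : ∃ z : ℤ, (2 : ℤ) ^ K ∣ 5 * z - 1 := by
  have h : IsCoprime (5 : ℤ) (2 ^ K) := by
    apply IsCoprime.pow_right
    exact ⟨1, -2, by norm_num⟩
  obtain ⟨a, b, hab⟩ := h
  exact ⟨a, ⟨-b, by linear_combination hab⟩⟩

end Pool.Agent.MP81cdd9.HZ
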