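import Pool.Agent.Lib.MP_81cdd9_nt.HZ.F1

/-! The parity formula. -/

set_option autoImplicit false

namespace Pool.Agent.MP81cdd9.HZ

open Finset

/-- `N(par L n) = n - 2^L z^(card) T^[L] n` modulo `2^K`.
PROOF. Multiply `iter_formula` (`k = L`, all `i ∈ par L n` are `< L`) by `z^c`, `c = card`. `z^a * 5^a = (5z)^a = 1` modulo `2^K`, so
`z^c 5^c n = n` and `z^c 2^i 5^(c - cnt(i+1)) = 2^i z^(cnt (i+1))` modulo `2^K`. Work with `Int.ModEq` or `Int.emod_emod_of_dvd`;
`Int.ModEq.sum` or an induction for the sum. -/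
theorem NN_par (K L : ℕ) (z n : ℤ) (hz : (2 : ℤ) ^ K ∣ 5 * z - 1) :
    (2 : ℤ) ^ K ∣ NN z (par L n) - (n - 2 ^ L * z ^ (par L n).card * T^[L] n) := by
  have hpow : ∀ a : ℕ, (2 : ℤ) ^ K ∣ (5 * z) ^ a - 1 := by
    intro a
    have h1 : 5 * z - 1 ∣ (5 * z) ^ a - 1 ^ a := sub_dvd_pow_sub_pow _ _ a
    rw [one_pow] at h1
    exact hz.trans h1
  have hfil : (par L n).filter (fun i => i < L) = par L n := by
    rw [Finset.filter_eq_self]
    intro i hi
    rw [par, Finset.mem_filter, Finset.mem_range] at hi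
    exact hi.1
  have hit := iter_formula L n L le_rfl
  rw [hfil, cnt_par] at hit
  have hle : ∀ i ∈ par L n, cnt (par L n) (i + 1) ≤ (par L n).card := by
    intro i _
    exact Finset.card_le_card (Finset.filter_subset _ _)
  have hEq : NN z (par L n) - (n - 2 ^ L * z ^ (par L n).card * T^[L] n) =
      ((5 * z) ^ (par L n).card - 1) * n + ∑ i ∈ par L n,
        2 ^ i * (z ^ (par L n).card * 5 ^ ((par L n).card - cnt (par L n) (i + 1)) -
          z ^ cnt (par L n) (i + 1)) := by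
    have h1 : ∑ i ∈ par L n,
        (2 : ℤ) ^ i * (z ^ (par L n).card * 5 ^ ((par L n).card - cnt (par L n) (i + 1)) -
          z ^ cnt (par L n) (i + 1)) =
        z ^ (par L n).card * ∑ i ∈ par L n,
          2 ^ i * 5 ^ ((par L n).card - cnt (par L n) (i + 1)) -
        ∑ i ∈ par L n, 2 ^ i * z ^ cnt (par L n) (i + 1) := by
      rw [Finset.mul_sum, ← Finset.sum_sub_distrib]
      refine Finset.sum_congr rfl fun i _ => ?_
      ring
    rw [h1, NN, mul_pow]
    linear_combination z ^ (par L n).card * hit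
  rw [hEq]
  refine dvd_add (Dvd.dvd.mul_right (hpow _) _) (Finset.dvd_sum fun i hi => ?_)
  refine Dvd.dvd.mul_left ?_ _
  have h2 := hle i hi
  have h3 : z ^ (par L n).card * 5 ^ ((par L n).card - cnt (par L n) (i + 1)) -
      z ^ cnt (par L n) (i + 1) =
      z ^ cnt (par L n) (i + 1) *
        ((5 * z) ^ ((par L n).card - cnt (par L n) (i + 1)) - 1) := by
    have h4 : z ^ (par L n).card = z ^ cnt (par L n) (i + 1) *
        z ^ ((par L n).card - cnt (par L n) (i + 1)) := by
      rw [← pow_add]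
      congr 1
      omega
    rw [h4, mul_pow]
    ring
  rw [h3]
  exact Dvd.dvd.mul_left (hpow _) _

/-- PROOF. `iter_formula` for `k = L` and both numbers: `5^c (n - n') = 2^L (T^[L] n - T^[L] n')`; `2^L` is coprime to `5^c`. -/
theorem par_inj (L : ℕ) (n n' : ℤ) (h : par L n = par L n') : (2 : ℤ) ^ L ∣ n - n' := by
  have h1 := iter_formula L n L le_rfl
  have h2 := iter_formula L n' L le_rfl
  rw [← h] at h2
  have h3 : (2 : ℤ) ^ L ∣ 5 ^ cnt (par L n) L * (n - n') :=
    ⟨T^[L] n - T^[L] n', by linear_combination h2 - h1⟩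
  have h4 : IsCoprime ((2 : ℤ) ^ L) (5 ^ cnt (par L n) L) := by
    apply IsCoprime.pow
    exact ⟨-2, 1, by norm_num⟩
  exact h4.dvd_of_dvd_mul_left h3

end Pool.Agent.MP81cdd9.HZ
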