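import Pool.Agent.Lib.MP_81cdd9_nt.HZ.F1

/-! Swapping pairs. -/

set_option autoImplicit false

namespace Pool.Agent.MP81cdd9.HZ

open Finset

private theorem F2_piU_div (U : Finset ℕ) (i : ℕ) : piU U i / 2 = i / 2 := by
  unfold piU
  split_ifs <;> omega

/-- PROOF. Cases: `i / 2 ∈ U` or not, `i` even or odd; `(i+1)/2 = i/2` for even `i`, `(i-1)/2 = i/2` for odd `i`. -/
theorem piU_invol (U : Finset ℕ) (i : ℕ) : piU U (piU U i) = i := by
  by_cases h : i / 2 ∈ U
  · have h1 : piU U i / 2 ∈ U := by rw [F2_piU_div]; exact h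
    by_cases h2 : i % 2 = 0
    · have h3 : piU U i = i + 1 := by
        unfold piU
        rw [if_pos h, if_pos h2]
      rw [h3] at h1 ⊢
      unfold piU
      rw [if_pos h1, if_neg (by omega)]
      omega
    · have h3 : piU U i = i - 1 := by
        unfold piU
        rw [if_pos h, if_neg h2]
      rw [h3] at h1 ⊢
      unfold piU
      rw [if_pos h1, if_pos (by omega)]
      omega
  · have h3 : piU U i = i := by
      unfold piU
      rw [if_neg h]
    rw [h3, h3]

/-- PROOF. `piU_invol`. -/
theorem mem_sw (U S : Finset ℕ) (i : ℕ) : i ∈ sw U S ↔ piU U i ∈ S := by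
  unfold sw
  rw [mem_image]
  constructor
  · rintro ⟨a, ha, rfl⟩
    rw [piU_invol]
    exact ha
  · intro h
    exact ⟨piU U i, h, piU_invol U i⟩

/-- PROOF. `mem_sw`, `piU_invol`. -/
theorem sw_sw (U S : Finset ℕ) : sw U (sw U S) = S := by
  ext i
  rw [mem_sw, mem_sw, piU_invol]

private theorem F2_inj (U : Finset ℕ) : Function.Injective (piU U) := by
  intro a b h
  rw [← piU_invol U a, h, piU_invol]

/-- PROOF. The image under an injective map. -/
theorem card_sw (U S : Finset ℕ) : (sw U S).card = S.card := by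
  unfold sw
  exact card_image_of_injective S (F2_inj U)

/-- PROOF. If `i < 2 H'` then `piU U i < 2 H'`; if `i/2 ∉ U` then `piU U i = i`. -/
theorem sw_subset {U S : Finset ℕ} {L H : ℕ} (hH : 2 * H ≤ L) (hU : U ⊆ range H) (hS : S ⊆ range L) :
    sw U S ⊆ range L := by
  intro i hi
  rw [mem_sw] at hi
  have h1 := mem_range.1 (hS hi)
  rw [mem_range]
  by_cases h : i / 2 ∈ U
  · have h2 := mem_range.1 (hU h)
    omega
  · have h3 : piU U i = i := by
      unfold piU
      rw [if_neg h]
    rw [h3] at h1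
    exact h1

/-- The counts at the ends of pairs are preserved.
PROOF. `piU U` maps `{i ∈ sw U S | i < 2j}` bijectively onto `{i ∈ S | i < 2j}` (`piU U i < 2j ↔ i < 2j`). Or induction on `j` with
`cnt_succ` twice and `mem_sw`. -/
theorem cnt_sw (U S : Finset ℕ) (j : ℕ) : cnt (sw U S) (2 * j) = cnt S (2 * j) := by
  unfold cnt
  have h : (sw U S).filter (fun i => i < 2 * j) = (S.filter (fun i => i < 2 * j)).image (piU U) := by
    ext i
    rw [mem_filter, mem_image, mem_sw]
    have hd := F2_piU_div U i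
    constructor
    · rintro ⟨h1, h2⟩
      refine ⟨piU U i, mem_filter.2 ⟨h1, ?_⟩, piU_invol U i⟩
      omega
    · rintro ⟨a, ha, rfl⟩
      rw [mem_filter] at ha
      have hd2 := F2_piU_div U a
      rw [piU_invol]
      refine ⟨ha.1, ?_⟩
      have := ha.2
      omega
  rw [h, card_image_of_injective _ (F2_inj U)]

/-- PROOF. `cnt_sw` for `j` and `j + 1`. -/
theorem mix_sw (U S : Finset ℕ) (j : ℕ) : mix (sw U S) j ↔ mix S j := by
  unfold mix
  have h1 := cnt_sw U S j
  have h2 := cnt_sw U S (j + 1)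
  have h3 : 2 * j + 2 = 2 * (j + 1) := by ring
  rw [h3, h1, h2]

/-- Resampling.
PROOF. Exchange the sums: for each `U` the map `sw U` is a bijection of `Typ` onto itself (`sw_sw`), so
`∑ S ∈ Typ, [P (sw U S)] = ∑ S ∈ Typ, [P S]`; there are `2^H` sets `U`. -/
theorem average (Typ : Finset (Finset ℕ)) (H : ℕ) (hT : ∀ S ∈ Typ, ∀ U ⊆ range H, sw U S ∈ Typ)
    (P : Finset ℕ → Prop) [DecidablePred P] :
    ∑ S ∈ Typ, ((range H).powerset.filter (fun U => P (sw U S))).card = 2 ^ H * (Typ.filter P).card := by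
  simp_rw [card_filter]
  rw [sum_comm]
  have h : ∀ U ∈ (range H).powerset, ∑ S ∈ Typ, (if P (sw U S) then 1 else 0) =
      ∑ S ∈ Typ, (if P S then 1 else 0) := by
    intro U hU
    have hU' := mem_powerset.1 hU
    apply sum_nbij' (fun S => sw U S) (fun S => sw U S)
    · intro S hS
      exact hT S hS U hU'
    · intro S hS
      exact hT S hS U hU'
    · intro S _
      exact sw_sw U S
    · intro S _
      exact sw_sw U S
    · intro S _
      rfl
  rw [sum_congr rfl h, sum_const, card_powerset, card_range, smul_eq_mul]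

end Pool.Agent.MP81cdd9.HZ
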