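import Pool.Agent.Lib.MP_81cdd9_nt.HZ.F2

/-! Swapping pairs. -/

set_option autoImplicit false

namespace Pool.Agent.MP81cdd9.HZ

open Finset

/-- the term of the pair `j` -/
private def F2b_t (z : ℤ) (S : Finset ℕ) (j : ℕ) : ℤ :=
  (if 2 * j ∈ S then 2 ^ (2 * j) * z ^ cnt S (2 * j + 1) else 0) +
    (if 2 * j + 1 ∈ S then 2 ^ (2 * j + 1) * z ^ cnt S (2 * j + 1 + 1) else 0)

private theorem F2b_pairs (f : ℕ → ℤ) (H : ℕ) :
    ∑ i ∈ range (2 * H), f i = ∑ j ∈ range H, (f (2 * j) + f (2 * j + 1)) := by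
  induction H with
  | zero => simp
  | succ H ih =>
    rw [show 2 * (H + 1) = 2 * H + 1 + 1 by ring, sum_range_succ, sum_range_succ, ih,
      sum_range_succ]
    ring

private theorem F2b_NN (z : ℤ) (S : Finset ℕ) (H : ℕ) (hS : S ⊆ range (2 * H)) :
    NN z S = -∑ j ∈ range H, F2b_t z S j := by
  unfold NN F2b_t
  rw [← F2b_pairs (fun i => if i ∈ S then 2 ^ i * z ^ cnt S (i + 1) else 0) H, neg_inj,
    ← sum_filter]
  refine sum_congr ?_ fun _ _ => rfl
  ext i
  rw [mem_filter]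
  exact ⟨fun h => ⟨hS h, h⟩, fun h => h.2⟩

private theorem F2b_step (z : ℤ) (U S : Finset ℕ) (j : ℕ) :
    F2b_t z (sw U S) j = F2b_t z S j - (if j ∈ U then gam z S j else 0) := by
  have h0 : 2 * j / 2 = j := by omega
  have h0' : (2 * j + 1) / 2 = j := by omega
  have hm0 : 2 * j % 2 = 0 := by omega
  have hm1 : (2 * j + 1) % 2 ≠ 0 := by omega
  have hc := cnt_sw U S j
  have e1 := cnt_succ S (2 * j)
  have e2 := cnt_succ S (2 * j + 1)
  have e3 := cnt_succ (sw U S) (2 * j)
  have e4 := cnt_succ (sw U S) (2 * j + 1)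
  have e5 : (2 : ℤ) ^ (2 * j) = 4 ^ j := by
    rw [pow_mul]
    norm_num
  by_cases hj : j ∈ U
  · have a1 : (2 * j ∈ sw U S) ↔ (2 * j + 1 ∈ S) := by
      rw [mem_sw]
      unfold piU
      rw [if_pos (by rw [h0]; exact hj), if_pos hm0]
    have a2 : (2 * j + 1 ∈ sw U S) ↔ (2 * j ∈ S) := by
      rw [mem_sw]
      unfold piU
      rw [if_pos (by rw [h0']; exact hj), if_neg hm1, Nat.add_sub_cancel]
    rw [if_pos hj]
    unfold F2b_t gam bet
    by_cases b1 : 2 * j ∈ S <;> by_cases b2 : 2 * j + 1 ∈ S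
    · have c1 : 2 * j ∈ sw U S := a1.2 b2
      have c2 : 2 * j + 1 ∈ sw U S := a2.2 b1
      rw [if_pos b1] at e1
      rw [if_pos b2] at e2
      rw [if_pos c1] at e3
      rw [if_pos c2] at e4
      have e6 : ¬ mix S j := by
        unfold mix
        rw [show 2 * j + 2 = 2 * j + 1 + 1 by ring]
        omega
      rw [if_pos c1, if_pos c2, if_pos b1, if_pos b2, if_neg e6, e4, e3, e2, e1, hc, sub_zero]
    · have c1 : 2 * j ∉ sw U S := fun h => b2 (a1.1 h)
      have c2 : 2 * j + 1 ∈ sw U S := a2.2 b1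
      rw [if_pos b1] at e1
      rw [if_neg b2] at e2
      rw [if_neg c1] at e3
      rw [if_pos c2] at e4
      have e6 : mix S j := by
        unfold mix
        rw [show 2 * j + 2 = 2 * j + 1 + 1 by ring]
        omega
      rw [if_neg c1, if_pos c2, if_pos b1, if_neg b2, if_pos e6, if_pos b1, e4, e3, e1, hc,
        pow_succ 2 (2 * j), e5]
      ring
    · have c1 : 2 * j ∈ sw U S := a1.2 b2
      have c2 : 2 * j + 1 ∉ sw U S := fun h => b1 (a2.1 h)
      rw [if_neg b1] at e1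
      rw [if_pos b2] at e2
      rw [if_pos c1] at e3
      rw [if_neg c2] at e4
      have e6 : mix S j := by
        unfold mix
        rw [show 2 * j + 2 = 2 * j + 1 + 1 by ring]
        omega
      rw [if_pos c1, if_neg c2, if_neg b1, if_pos b2, if_pos e6, if_neg b1, e3, e2, e1, hc,
        pow_succ 2 (2 * j), e5]
      ring
    · have c1 : 2 * j ∉ sw U S := fun h => b2 (a1.1 h)
      have c2 : 2 * j + 1 ∉ sw U S := fun h => b1 (a2.1 h)
      rw [if_neg b1] at e1
      rw [if_neg b2] at e2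
      have e6 : ¬ mix S j := by
        unfold mix
        rw [show 2 * j + 2 = 2 * j + 1 + 1 by ring]
        omega
      rw [if_neg c1, if_neg c2, if_neg b1, if_neg b2, if_neg e6]
      simp
  · have a1 : (2 * j ∈ sw U S) ↔ (2 * j ∈ S) := by
      rw [mem_sw]
      unfold piU
      rw [if_neg (by rw [h0]; exact hj)]
    have a2 : (2 * j + 1 ∈ sw U S) ↔ (2 * j + 1 ∈ S) := by
      rw [mem_sw]
      unfold piU
      rw [if_neg (by rw [h0']; exact hj)]
    rw [if_neg hj, sub_zero]
    unfold F2b_t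
    simp only [a1, a2] at e3 e4 ⊢
    rw [e4, e3, e2, e1, hc]

/-- The effect of the swaps on `N`.
PROOF. For every set `S` and every `H'` large (`S ⊆ range (2 H')`):
`NN z S = - ∑ j ∈ range H', ((if 2j ∈ S then 2^(2j) z^(cnt S (2j) + 1) else 0) + (if 2j+1 ∈ S then 2^(2j+1) z^(cnt S (2j+2)) else 0))`
(`cnt_succ`). Compare with the same formula for `sw U S` term by term, with `cnt_sw` and `mem_sw`
(`piU U (2j) = 2j+1`, `piU U (2j+1) = 2j` if `j ∈ U`). For `j ∉ U` the terms are equal, for `j ∈ U` the difference is `gam z S j`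
(four cases: none, one or both of `2j`, `2j+1` in `S`; `cnt S (2j+2)` is `cnt S (2j)` plus 0, 1, 1 or 2, and `2^(2j) = 4^j`). -/
theorem NN_sw (z : ℤ) (U S : Finset ℕ) : NN z (sw U S) = NN z S + ∑ j ∈ U, gam z S j := by
  obtain ⟨M, hM⟩ := exists_nat_subset_range (S ∪ sw U S ∪ U)
  have hS : S ⊆ range (2 * M) := fun i hi => by
    have := mem_range.1 (hM (mem_union_left _ (mem_union_left _ hi)))
    rw [mem_range]
    omega
  have hS' : sw U S ⊆ range (2 * M) := fun i hi => by
    have := mem_range.1 (hM (mem_union_left _ (mem_union_right _ hi)))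
    rw [mem_range]
    omega
  have hU : U ⊆ range M := fun i hi => hM (mem_union_right _ hi)
  rw [F2b_NN z S M hS, F2b_NN z (sw U S) M hS']
  have h1 : ∑ j ∈ U, gam z S j = ∑ j ∈ range M, (if j ∈ U then gam z S j else 0) := by
    rw [← sum_filter]
    refine sum_congr ?_ fun _ _ => rfl
    ext i
    rw [mem_filter]
    exact ⟨fun h => ⟨hU h, h⟩, fun h => h.2⟩
  rw [h1, sum_congr rfl fun j _ => F2b_step z U S j, sum_sub_distrib]
  ring

end Pool.Agent.MP81cdd9.HZ
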