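import Pool.Agent.Lib.MP_81cdd9_nt.HZ.Defs

/-! The collision bound. -/

set_option autoImplicit false

namespace Pool.Agent.MP81cdd9.HZ

open Finset

/-- PROOF. `|1 + e^(2 i t)|^2 = 2 + 2 cos (2t) = 4 cos^2 t` (`Complex.normSq`, `Real.cos_sq`). -/
theorem norm_one_add (t : ℝ) : ‖1 + Complex.exp ((2 * t : ℝ) * Complex.I)‖ ^ 2 = 4 * Real.cos t ^ 2 := by
  rw [Complex.exp_mul_I, ← Complex.ofReal_cos, ← Complex.ofReal_sin, ← Complex.normSq_eq_norm_sq,
    Complex.normSq_apply]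
  have h1 := Real.sin_sq_add_cos_sq (2 * t)
  have h2 := Real.cos_sq t
  simp only [Complex.add_re, Complex.one_re, Complex.ofReal_re, Complex.mul_re, Complex.I_re,
    mul_zero, Complex.ofReal_im, Complex.I_im, mul_one, sub_self, add_zero, Complex.add_im,
    Complex.one_im, Complex.mul_im, zero_add]
  rw [h2]
  linear_combination h1

/-- PROOF. `∑_{U ⊆ range H} e(x0 + ∑_{j∈U} y_j) = e(x0) ∏_j (1 + e(y_j))` (`Finset.prod_one_add` or `Finset.prod_add`,
`Complex.exp_sum`), and `norm_one_add`. -/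
theorem norm_sum_powerset (H : ℕ) (x0 : ℝ) (y : ℕ → ℝ) :
    ‖∑ U ∈ (range H).powerset, Complex.exp ((2 * Real.pi * (x0 + ∑ j ∈ U, y j) : ℝ) * Complex.I)‖ ^ 2
      = 4 ^ H * ∏ j ∈ range H, Real.cos (Real.pi * y j) ^ 2 := by
  have h1 : ∑ U ∈ (range H).powerset,
      Complex.exp ((2 * Real.pi * (x0 + ∑ j ∈ U, y j) : ℝ) * Complex.I) =
      Complex.exp ((2 * Real.pi * x0 : ℝ) * Complex.I) *
        ∏ j ∈ range H, (1 + Complex.exp ((2 * (Real.pi * y j) : ℝ) * Complex.I)) := by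
    rw [Finset.prod_one_add, Finset.mul_sum]
    refine Finset.sum_congr rfl fun U _ => ?_
    rw [← Complex.exp_sum, ← Complex.exp_add, ← Finset.sum_mul, ← add_mul, ← Complex.ofReal_sum,
      ← Complex.ofReal_add]
    congr 3
    rw [mul_add, Finset.mul_sum]
    congr 1
    exact Finset.sum_congr rfl fun j _ => by ring
  rw [h1, norm_mul, Complex.norm_exp_ofReal_mul_I, one_mul, norm_prod, ← Finset.prod_pow]
  rw [Finset.prod_congr rfl fun j _ => norm_one_add (Real.pi * y j), Finset.prod_mul_distrib,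
    Finset.prod_const, Finset.card_range]

/-- PROOF. The real part of each summand is `cos (2π m x) ≥ cos (π/4) = √2/2` because `|m x| < 1/8`; so the real part of the sum is at
least `M √2/2`. -/
theorem kernel_lower (M : ℕ) (x : ℝ) (hx : |x| * M ≤ 1 / 8) :
    (M : ℝ) ^ 2 / 2 ≤ ‖∑ m ∈ range M, Complex.exp ((2 * Real.pi * (m * x) : ℝ) * Complex.I)‖ ^ 2 := by
  have h1 : (M : ℝ) * (Real.sqrt 2 / 2) ≤
      (∑ m ∈ range M, Complex.exp ((2 * Real.pi * (m * x) : ℝ) * Complex.I)).re := by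
    rw [Complex.re_sum]
    have h2 : ∀ m ∈ range M, Real.sqrt 2 / 2 ≤
        (Complex.exp ((2 * Real.pi * (m * x) : ℝ) * Complex.I)).re := by
      intro m hm
      rw [Complex.exp_ofReal_mul_I_re, ← Real.cos_pi_div_four, ← Real.cos_abs (2 * Real.pi * _)]
      have hmM : (m : ℝ) ≤ M := by exact_mod_cast (Finset.mem_range.1 hm).le
      have h3 : |2 * Real.pi * (m * x)| ≤ Real.pi / 4 := by
        rw [abs_mul, abs_of_pos (by positivity : (0 : ℝ) < 2 * Real.pi), abs_mul, Nat.abs_cast]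
        have h4 : (m : ℝ) * |x| ≤ 1 / 8 := by
          refine le_trans ?_ hx
          rw [mul_comm |x|]
          exact mul_le_mul_of_nonneg_right hmM (abs_nonneg _)
        have h5 := mul_le_mul_of_nonneg_left h4 (by positivity : (0 : ℝ) ≤ 2 * Real.pi)
        linarith
      apply Real.cos_le_cos_of_nonneg_of_le_pi (abs_nonneg _) _ h3
      have := Real.pi_pos
      linarith
    calc (M : ℝ) * (Real.sqrt 2 / 2) = ∑ _m ∈ range M, Real.sqrt 2 / 2 := by
          rw [Finset.sum_const, Finset.card_range, nsmul_eq_mul]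
      _ ≤ _ := Finset.sum_le_sum h2
  have h2 := h1.trans (Complex.re_le_norm _)
  have h3 : 0 ≤ (M : ℝ) * (Real.sqrt 2 / 2) := by positivity
  calc (M : ℝ) ^ 2 / 2 = ((M : ℝ) * (Real.sqrt 2 / 2)) ^ 2 := by
        have := Real.sq_sqrt (show (0 : ℝ) ≤ 2 by norm_num)
        rw [mul_pow, div_pow, this]; ring
    _ ≤ _ := pow_le_pow_left₀ h3 h2 2

end Pool.Agent.MP81cdd9.HZ
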