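import Pool.Agent.Lib.MP_81cdd9_nt.HZ.F3

/-! The collision bound. -/

set_option autoImplicit false

namespace Pool.Agent.MP81cdd9.HZ

open Finset

private noncomputable def F3b_e (x : ℝ) : ℂ := Complex.exp ((2 * Real.pi * x : ℝ) * Complex.I)

private lemma F3b_sub (x y : ℝ) : F3b_e (x - y) = F3b_e x * (starRingEnd ℂ) (F3b_e y) := by
  unfold F3b_e
  rw [← Complex.exp_conj, map_mul, Complex.conj_I, Complex.conj_ofReal, ← Complex.exp_add]
  congr 1
  push_cast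
  ring

private lemma F3b_norm {ι : Type} (s : Finset ι) (a : ι → ℝ) :
    ((‖∑ i ∈ s, F3b_e (a i)‖ ^ 2 : ℝ) : ℂ) = ∑ i ∈ s, ∑ i' ∈ s, F3b_e (a i - a i') := by
  rw [Complex.ofReal_pow, ← Complex.mul_conj', map_sum, Finset.sum_mul_sum]
  refine Finset.sum_congr rfl fun i _ => Finset.sum_congr rfl fun i' _ => ?_
  rw [F3b_sub]

/-- The expansion of the kernel over all pairs.
PROOF. `|∑_m e(m(a_U - a_U'))|^2 = ∑_{m,m'} e((m-m')(a_U - a_U'))`; sum over `U, U'` first: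
`∑_{m,m'} |∑_U e((m-m') a_U)|^2`; by `norm_sum_powerset` (with `x0 = (m-m') x0`, `y j = (m-m') y j`) this is
`∑_{m,m'} 4^H ∏ cos^2(π (m-m') y_j)`; for each `η` there are at most `M` pairs with `m - m' = η`, `|η| < M`. -/
theorem kernel_sum (H M : ℕ) (x0 : ℝ) (y : ℕ → ℝ) :
    ∑ U ∈ (range H).powerset, ∑ U' ∈ (range H).powerset,
      ‖∑ m ∈ range M, Complex.exp ((2 * Real.pi * (m * ((x0 + ∑ j ∈ U, y j) - (x0 + ∑ j ∈ U', y j))) : ℝ)
        * Complex.I)‖ ^ 2
      ≤ M * (4 ^ H * ∑ η ∈ Ioo (-(M : ℤ)) M, ∏ j ∈ range H, Real.cos (Real.pi * (η * y j)) ^ 2) := by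
  obtain ⟨F, hF⟩ : ∃ F : ℤ → ℝ, F = fun η : ℤ =>
      4 ^ H * ∏ j ∈ range H, Real.cos (Real.pi * ((η : ℝ) * y j)) ^ 2 := ⟨_, rfl⟩
  have hF0 : ∀ η, 0 ≤ F η := by
    intro η
    rw [hF]
    positivity
  obtain ⟨a, ha⟩ : ∃ a : Finset ℕ → ℝ, a = fun U => x0 + ∑ j ∈ U, y j := ⟨_, rfl⟩
  have h1 : ∑ U ∈ (range H).powerset, ∑ U' ∈ (range H).powerset,
      ‖∑ m ∈ range M, Complex.exp ((2 * Real.pi * (m * ((x0 + ∑ j ∈ U, y j) -
        (x0 + ∑ j ∈ U', y j))) : ℝ) * Complex.I)‖ ^ 2 =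
      ∑ m ∈ range M, ∑ m' ∈ range M, F ((m : ℤ) - m') := by
    apply Complex.ofReal_injective
    rw [Complex.ofReal_sum, Complex.ofReal_sum]
    simp_rw [Complex.ofReal_sum]
    have e1 : ∀ U U' : Finset ℕ, ((‖∑ m ∈ range M, Complex.exp ((2 * Real.pi *
        (m * ((x0 + ∑ j ∈ U, y j) - (x0 + ∑ j ∈ U', y j))) : ℝ) * Complex.I)‖ ^ 2 : ℝ) : ℂ) =
        ∑ m ∈ range M, ∑ m' ∈ range M, F3b_e (((m : ℝ) - m') * (a U - a U')) := by
      intro U U'
      have := F3b_norm (range M) (fun m => (m : ℝ) * (a U - a U'))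
      rw [ha] at this ⊢
      unfold F3b_e at this ⊢
      rw [this]
      refine Finset.sum_congr rfl fun m _ => Finset.sum_congr rfl fun m' _ => ?_
      rw [← sub_mul]
    have e2 : ∀ m m' : ℕ, ((F ((m : ℤ) - m') : ℝ) : ℂ) =
        ∑ U ∈ (range H).powerset, ∑ U' ∈ (range H).powerset,
          F3b_e (((m : ℝ) - m') * (a U - a U')) := by
      intro m m'
      have e3 := norm_sum_powerset H (((m : ℝ) - m') * x0) (fun j => ((m : ℝ) - m') * y j)
      have e4 : F ((m : ℤ) - m') = ‖∑ U ∈ (range H).powerset, F3b_e (((m : ℝ) - m') * a U)‖ ^ 2 := by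
        rw [hF]
        simp only
        rw [ha]
        unfold F3b_e
        have e5 : ∀ U : Finset ℕ, ((m : ℝ) - m') * (x0 + ∑ j ∈ U, y j) =
            ((m : ℝ) - m') * x0 + ∑ j ∈ U, ((m : ℝ) - m') * y j := by
          intro U
          rw [mul_add, Finset.mul_sum]
        simp_rw [e5]
        rw [e3]
        push_cast
        rfl
      rw [e4, F3b_norm]
      refine Finset.sum_congr rfl fun U _ => Finset.sum_congr rfl fun U' _ => ?_
      rw [← mul_sub]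
    simp_rw [e1, e2]
    rw [Finset.sum_congr rfl fun U _ => Finset.sum_comm]
    rw [Finset.sum_comm]
    refine Finset.sum_congr rfl fun m _ => ?_
    rw [Finset.sum_congr rfl fun U _ => Finset.sum_comm]
    rw [Finset.sum_comm]
  rw [h1]
  have h2 : ∀ m ∈ range M, ∑ m' ∈ range M, F ((m : ℤ) - m') ≤ ∑ η ∈ Ioo (-(M : ℤ)) M, F η := by
    intro m hm
    have hm' := Finset.mem_range.1 hm
    have h3 : ∑ m' ∈ range M, F ((m : ℤ) - m') =
        ∑ η ∈ (range M).image (fun m' : ℕ => (m : ℤ) - m'), F η := by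
      rw [Finset.sum_image]
      intro p _ q _ hpq
      simp only at hpq
      omega
    rw [h3]
    apply Finset.sum_le_sum_of_subset_of_nonneg
    · intro η hη
      obtain ⟨p, hp, rfl⟩ := Finset.mem_image.1 hη
      have hp' := Finset.mem_range.1 hp
      rw [Finset.mem_Ioo]
      constructor <;> omega
    · intro η _ _
      exact hF0 η
  calc ∑ m ∈ range M, ∑ m' ∈ range M, F ((m : ℤ) - m') ≤
      ∑ _m ∈ range M, ∑ η ∈ Ioo (-(M : ℤ)) M, F η := Finset.sum_le_sum h2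
    _ = M * ∑ η ∈ Ioo (-(M : ℤ)) M, F η := by
        rw [Finset.sum_const, Finset.card_range, nsmul_eq_mul]
    _ = _ := by
        rw [hF]
        simp only
        rw [← Finset.mul_sum]

end Pool.Agent.MP81cdd9.HZ
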