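import Pool.Agent.Lib.MP_81cdd9_nt.HZ.F3b

/-! The collision bound. -/

set_option autoImplicit false

namespace Pool.Agent.MP81cdd9.HZ

open Finset

/-- The difference of two integers in the same cell. -/
private theorem F3c_cell (L J : ℕ) {X X' : ℤ}
    (h : (X % 2 ^ (L + J)) / 2 ^ L = (X' % 2 ^ (L + J)) / 2 ^ L) :
    ∃ k r : ℤ, X - X' = 2 ^ (L + J) * k + r ∧ |r| < 2 ^ L := by
  have hL : (0 : ℤ) < 2 ^ L := by positivity
  refine ⟨X / 2 ^ (L + J) - X' / 2 ^ (L + J), X % 2 ^ (L + J) - X' % 2 ^ (L + J), ?_, ?_⟩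
  · have h1 := Int.mul_ediv_add_emod X (2 ^ (L + J))
    have h2 := Int.mul_ediv_add_emod X' (2 ^ (L + J))
    linear_combination h2 - h1
  · have h1 := Int.mul_ediv_add_emod (X % 2 ^ (L + J)) (2 ^ L)
    have h2 := Int.mul_ediv_add_emod (X' % 2 ^ (L + J)) (2 ^ L)
    have h3 := Int.emod_nonneg (X % 2 ^ (L + J)) hL.ne'
    have h4 := Int.emod_lt_of_pos (X % 2 ^ (L + J)) hL
    have h5 := Int.emod_nonneg (X' % 2 ^ (L + J)) hL.ne'
    have h6 := Int.emod_lt_of_pos (X' % 2 ^ (L + J)) hL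
    rw [h] at h1
    rw [abs_lt]
    constructor <;> linarith

private theorem F3c_period (L J M : ℕ) {D k r : ℤ} (h : D = 2 ^ (L + J) * k + r) :
    ∑ m ∈ range M, Complex.exp ((2 * Real.pi * (m * ((D : ℝ) / 2 ^ (L + J))) : ℝ) * Complex.I) =
      ∑ m ∈ range M, Complex.exp ((2 * Real.pi * (m * ((r : ℝ) / 2 ^ (L + J))) : ℝ)
        * Complex.I) := by
  refine sum_congr rfl fun m _ => ?_
  have h1 : ((2 * Real.pi * (m * ((D : ℝ) / 2 ^ (L + J))) : ℝ) : ℂ) * Complex.I =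
      ((2 * Real.pi * (m * ((r : ℝ) / 2 ^ (L + J))) : ℝ) : ℂ) * Complex.I +
        ((m * k : ℤ) : ℂ) * (2 * Real.pi * Complex.I) := by
    have h2 : ((D : ℝ) / 2 ^ (L + J)) = k + (r : ℝ) / 2 ^ (L + J) := by
      rw [h]
      push_cast
      field_simp
    rw [h2]
    push_cast
    ring
  rw [h1, Complex.exp_add, Complex.exp_int_mul_two_pi_mul_I, mul_one]

/-- The collision bound.
PROOF. Let `Q = 2^(L+J)`, `M = 2^(J-3)`, `X U = x0 + ∑_{j∈U} γ_j`, `n_w = #{U : (X U % Q) / 2^L = w}`. The left side is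
`(∑_{w∈W} n_w)^2 ≤ |W| ∑_w n_w^2` (`Finset.sum_mul_sq_le_sq_mul_sq` or `inner_mul_le_norm_mul_norm`, `sq_sum_le_card_mul_sum_sq`) and
`∑_w n_w^2` is at most the number of pairs `(U, U')` with `(X U % Q) / 2^L = (X U' % Q) / 2^L`. For these pairs
`X U - X U' = Q k + r` with integers `k`, `|r| < 2^L`, so `m (X U - X U') / Q = m k + m r / Q` and by periodicity
and `kernel_lower` (`x = r/Q`, `|x| M < 2^L 2^(J-3) / 2^(L+J) = 1/8`) `M^2/2 ≤ ‖∑_m e(m (X U - X U')/Q)‖^2`. Sum over all pairs and use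
`kernel_sum` with `y j = γ j / Q`. -/
theorem collision (L J H : ℕ) (hJ : 3 ≤ J) (x0 : ℤ) (γ : ℕ → ℤ) (W : Finset ℤ) :
    (((range H).powerset.filter
        (fun U => ((x0 + ∑ j ∈ U, γ j) % 2 ^ (L + J)) / 2 ^ L ∈ W)).card : ℝ) ^ 2 ≤
      W.card * (2 / 2 ^ (J - 3)) * (4 ^ H *
        ∑ η ∈ etas J, ∏ j ∈ range H, Real.cos (Real.pi * (((η * γ j : ℤ) : ℝ) / 2 ^ (L + J))) ^ 2) := by
  classical
  set P := (range H).powerset with hP
  set X : Finset ℕ → ℤ := fun U => x0 + ∑ j ∈ U, γ j with hX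
  set w : Finset ℕ → ℤ := fun U => (X U % 2 ^ (L + J)) / 2 ^ L with hw
  set M : ℕ := 2 ^ (J - 3) with hM
  have hM0 : (0 : ℝ) < M := by rw [hM]; positivity
  have hQ0 : (0 : ℝ) < 2 ^ (L + J) := by positivity
  set n : ℤ → ℕ := fun v => (P.filter (fun U => w U = v)).card with hn
  -- fibres
  have e1 : (P.filter (fun U => w U ∈ W)).card = ∑ v ∈ W, n v := by
    have hf := card_eq_sum_card_fiberwise (f := w) (s := P.filter (fun U => w U ∈ W)) (t := W)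
      (fun U hU => mem_coe.2 (mem_filter.1 (mem_coe.1 hU)).2)
    rw [hf]
    refine sum_congr rfl fun v hv => ?_
    rw [hn]
    simp only
    rw [filter_filter]
    congr 1
    refine filter_congr fun U _ => ?_
    constructor
    · exact fun h => h.2
    · intro h
      exact ⟨by rw [h]; exact hv, h⟩
  have e2 : ((P.filter (fun U => w U ∈ W)).card : ℝ) ^ 2 ≤ W.card * ∑ v ∈ W, (n v : ℝ) ^ 2 := by
    rw [e1]
    push_cast
    exact sq_sum_le_card_mul_sum_sq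
  have e3 : ∑ v ∈ W, n v ^ 2 ≤ ((P ×ˢ P).filter (fun z => w z.1 = w z.2)).card := by
    have h1 : ∀ v ∈ W, n v ^ 2 = (((P ×ˢ P).filter (fun z => w z.1 = w z.2)).filter
        (fun z => w z.1 = v)).card := by
      intro v _
      rw [hn, pow_two]
      simp only
      rw [← card_product]
      congr 1
      ext z
      simp only [mem_filter, mem_product]
      constructor
      · rintro ⟨⟨a1, a2⟩, a3, a4⟩
        exact ⟨⟨⟨a1, a3⟩, by rw [a2, a4]⟩, a2⟩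
      · rintro ⟨⟨⟨a1, a3⟩, a4⟩, a2⟩
        exact ⟨⟨a1, a2⟩, a3, by rw [← a4, a2]⟩
    rw [sum_congr rfl h1]
    have h2 := card_eq_sum_card_fiberwise (f := fun z : Finset ℕ × Finset ℕ => w z.1)
      (s := ((P ×ˢ P).filter (fun z => w z.1 = w z.2)).filter (fun z => w z.1 ∈ W)) (t := W)
      (fun U hU => mem_coe.2 (mem_filter.1 (mem_coe.1 hU)).2)
    have h3 : ∑ v ∈ W, (((P ×ˢ P).filter (fun z => w z.1 = w z.2)).filter
        (fun z => w z.1 = v)).card =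
        ∑ v ∈ W, ((((P ×ˢ P).filter (fun z => w z.1 = w z.2)).filter
          (fun z => w z.1 ∈ W)).filter (fun z => w z.1 = v)).card := by
      refine sum_congr rfl fun v hv => ?_
      congr 1
      ext z
      simp only [mem_filter]
      constructor
      · rintro ⟨a1, a2⟩
        exact ⟨⟨a1, by rw [a2]; exact hv⟩, a2⟩
      · rintro ⟨⟨a1, -⟩, a2⟩
        exact ⟨a1, a2⟩
    rw [h3, ← h2]
    exact card_le_card (filter_subset _ _)
  -- the kernel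
  set Kr : Finset ℕ → Finset ℕ → ℝ := fun U U' =>
    ‖∑ m ∈ range M, Complex.exp ((2 * Real.pi * (m * (((x0 : ℝ) / 2 ^ (L + J) +
      ∑ j ∈ U, ((γ j : ℝ) / 2 ^ (L + J))) - ((x0 : ℝ) / 2 ^ (L + J) +
      ∑ j ∈ U', ((γ j : ℝ) / 2 ^ (L + J))))) : ℝ) * Complex.I)‖ ^ 2 with hKr
  have hval : ∀ U U' : Finset ℕ, ((x0 : ℝ) / 2 ^ (L + J) +
      ∑ j ∈ U, ((γ j : ℝ) / 2 ^ (L + J))) - ((x0 : ℝ) / 2 ^ (L + J) +
      ∑ j ∈ U', ((γ j : ℝ) / 2 ^ (L + J))) = ((X U - X U' : ℤ) : ℝ) / 2 ^ (L + J) := by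
    intro U U'
    rw [hX]
    push_cast
    rw [← sum_div, ← sum_div]
    ring
  have e4 : ∀ U U' : Finset ℕ, w U = w U' → (M : ℝ) ^ 2 / 2 ≤ Kr U U' := by
    intro U U' h
    obtain ⟨k, r, h1, h2⟩ := F3c_cell L J h
    rw [hKr]
    simp only
    rw [hval, F3c_period L J M h1]
    refine kernel_lower M ((r : ℝ) / 2 ^ (L + J)) ?_
    have h3 : |(r : ℝ)| ≤ 2 ^ L := by
      have : (|r| : ℤ) ≤ 2 ^ L := h2.le
      exact_mod_cast this
    rw [abs_div, abs_of_pos hQ0, div_mul_eq_mul_div, div_le_iff₀ hQ0]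
    have h4 : (M : ℝ) * 8 = 2 ^ J := by
      rw [hM]
      push_cast
      have h5 : (8 : ℝ) = 2 ^ 3 := by norm_num
      rw [h5, ← pow_add]
      congr 1
      omega
    calc |(r : ℝ)| * M ≤ 2 ^ L * M := mul_le_mul_of_nonneg_right h3 hM0.le
      _ = 1 / 8 * (2 ^ L * (M * 8)) := by ring
      _ = 1 / 8 * 2 ^ (L + J) := by rw [h4, ← pow_add]
  have hKr0 : ∀ U U', 0 ≤ Kr U U' := fun U U' => by rw [hKr]; positivity
  have e5 : (M : ℝ) ^ 2 / 2 * ((P ×ˢ P).filter (fun z => w z.1 = w z.2)).card ≤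
      ∑ U ∈ P, ∑ U' ∈ P, Kr U U' := by
    rw [← sum_product']
    calc (M : ℝ) ^ 2 / 2 * ((P ×ˢ P).filter (fun z => w z.1 = w z.2)).card =
        ∑ _z ∈ (P ×ˢ P).filter (fun z => w z.1 = w z.2), (M : ℝ) ^ 2 / 2 := by
          rw [sum_const, nsmul_eq_mul, mul_comm]
      _ ≤ ∑ z ∈ (P ×ˢ P).filter (fun z => w z.1 = w z.2), Kr z.1 z.2 :=
          sum_le_sum fun z hz => e4 _ _ (mem_filter.1 hz).2
      _ ≤ ∑ z ∈ P ×ˢ P, Kr z.1 z.2 :=
          sum_le_sum_of_subset_of_nonneg (filter_subset _ _) fun _ _ _ => hKr0 _ _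
  have e6 := kernel_sum H M ((x0 : ℝ) / 2 ^ (L + J)) (fun j => (γ j : ℝ) / 2 ^ (L + J))
  set Sg : ℝ := ∑ η ∈ etas J, ∏ j ∈ range H,
    Real.cos (Real.pi * (((η * γ j : ℤ) : ℝ) / 2 ^ (L + J))) ^ 2 with hSg
  have e7 : ∑ η ∈ Ioo (-(M : ℤ)) M, ∏ j ∈ range H,
      Real.cos (Real.pi * (η * ((γ j : ℝ) / 2 ^ (L + J)))) ^ 2 = Sg := by
    rw [hSg, etas, hM]
    push_cast
    refine sum_congr rfl fun η _ => prod_congr rfl fun j _ => ?_
    rw [mul_div_assoc]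
  rw [e7] at e6
  have e8 : (M : ℝ) ^ 2 / 2 * ((P ×ˢ P).filter (fun z => w z.1 = w z.2)).card ≤
      M * (4 ^ H * Sg) := e5.trans e6
  have e9 : (((P ×ˢ P).filter (fun z => w z.1 = w z.2)).card : ℝ) ≤ 2 / M * (4 ^ H * Sg) := by
    have h1 : (M : ℝ) ^ 2 / 2 * (2 / M * (4 ^ H * Sg)) = M * (4 ^ H * Sg) := by
      field_simp
    rw [← h1] at e8
    exact le_of_mul_le_mul_left e8 (by positivity)
  have e10 : ∑ v ∈ W, (n v : ℝ) ^ 2 ≤ 2 / M * (4 ^ H * Sg) := by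
    refine le_trans ?_ e9
    exact_mod_cast e3
  calc ((P.filter (fun U => w U ∈ W)).card : ℝ) ^ 2 ≤ W.card * ∑ v ∈ W, (n v : ℝ) ^ 2 := e2
    _ ≤ W.card * (2 / M * (4 ^ H * Sg)) := mul_le_mul_of_nonneg_left e10 (Nat.cast_nonneg _)
    _ = W.card * (2 / 2 ^ (J - 3)) * (4 ^ H * Sg) := by
        rw [hM]
        push_cast
        ring

end Pool.Agent.MP81cdd9.HZ
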