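import Pool.Agent.Lib.MP_81cdd9_nt.HZ.Defs

/-! White pairs. -/

set_option autoImplicit false

namespace Pool.Agent.MP81cdd9.HZ

open Finset

/-- PROOF. `cos (π x)^2 = cos (π t)^2` with `t = |x - round x| ∈ [0, 1/2]` (periodicity: `x - t'` is an integer, `cos` of an integer
multiple of `π` shift changes only the sign; `Real.cos_add_int_mul_pi`, or write `cos^2 = (1 + cos 2πx)/2` and
`Real.cos_sub_int_mul_two_pi`), `cos^2 = 1 - sin^2` and `sin (π t) ≥ 2 t` for `0 ≤ t ≤ 1/2` (`Real.mul_le_sin`). -/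
theorem cos_sq_le (x : ℝ) : Real.cos (Real.pi * x) ^ 2 ≤ 1 - 4 * |x - round x| ^ 2 := by
  have hx : Real.pi * x = Real.pi * (x - round x) + (round x : ℤ) * Real.pi := by ring
  have h1 : Real.cos (Real.pi * x) ^ 2 = Real.cos (Real.pi * (x - round x)) ^ 2 := by
    rw [hx, Real.cos_add_int_mul_pi, mul_pow, ← zpow_natCast, ← zpow_mul]
    have : ((-1 : ℝ)) ^ (round x * ((2 : ℕ) : ℤ)) = 1 := by
      rw [mul_comm, zpow_mul]
      norm_num
    rw [this, one_mul]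
  rw [h1]
  have h2 : |x - round x| ≤ 1 / 2 := abs_sub_round x
  have h0 : 0 ≤ |x - round x| := abs_nonneg _
  have h3 : Real.cos (Real.pi * (x - round x)) ^ 2 = 1 - Real.sin (Real.pi * |x - round x|) ^ 2 := by
    have h4 : Real.cos (Real.pi * (x - round x)) = Real.cos (Real.pi * |x - round x|) := by
      rcases abs_cases (x - round x) with ⟨h, _⟩ | ⟨h, _⟩
      · rw [h]
      · rw [h, mul_neg, Real.cos_neg]
    rw [h4]
    nlinarith [Real.sin_sq_add_cos_sq (Real.pi * |x - round x|)]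
  have hpi := Real.pi_pos
  have h5 := Real.mul_le_sin (x := Real.pi * |x - round x|) (by positivity) (by nlinarith)
  have h6 : 2 / Real.pi * (Real.pi * |x - round x|) = 2 * |x - round x| := by
    field_simp
  rw [h6] at h5
  rw [h3]
  nlinarith

/-- PROOF. `gam` is `±bet` or `0`; `cos` is even; for a mixed pair which is white use `cos_sq_le`
(`|x - round x| ≥ 1/T0`). -/
theorem cos_gam_le (K : ℕ) (z : ℤ) (S : Finset ℕ) (T0 : ℝ) (hT : 2 ≤ T0) (η : ℤ) (j : ℕ)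
    (hm : mix S j) (hw : white K z S T0 η j) :
    Real.cos (Real.pi * (((η * gam z S j : ℤ) : ℝ) / 2 ^ K)) ^ 2 ≤ 1 - 4 / T0 ^ 2 := by
  have h1 := cos_sq_le (((η * gam z S j : ℤ) : ℝ) / 2 ^ K)
  have h2 : Real.cos (Real.pi * (((η * gam z S j : ℤ) : ℝ) / 2 ^ K)) ^ 2 =
      Real.cos (Real.pi * (((η * bet z S j : ℤ) : ℝ) / 2 ^ K)) ^ 2 := by
    unfold gam
    rw [if_pos hm]
    by_cases hj : 2 * j ∈ S
    · rw [if_pos hj]
      have : Real.pi * (((η * (-bet z S j) : ℤ) : ℝ) / 2 ^ K) =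
          -(Real.pi * (((η * bet z S j : ℤ) : ℝ) / 2 ^ K)) := by
        push_cast
        ring
      rw [this, Real.cos_neg]
    · rw [if_neg hj]
  rw [h2]
  have h3 := cos_sq_le (((η * bet z S j : ℤ) : ℝ) / 2 ^ K)
  unfold white at hw
  have h4 : (1 / T0) ^ 2 ≤
      |((η * bet z S j : ℤ) : ℝ) / 2 ^ K - round (((η * bet z S j : ℤ) : ℝ) / 2 ^ K)| ^ 2 :=
    pow_le_pow_left₀ (by positivity) hw 2
  have h5 : (1 / T0) ^ 2 = 1 / T0 ^ 2 := by rw [div_pow, one_pow]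
  rw [h5] at h4
  have h6 : 4 / T0 ^ 2 = 4 * (1 / T0 ^ 2) := by ring
  rw [h6]
  linarith

/-- One block.
PROOF. In the product over `x < B` each factor is `≤ 1` (a square of a cosine) and `≤ 1 - 4/T0^2` for the `x` counted by `wcnt`;
`0 ≤ 1 - 4/T0^2 ≤ 1`. (`Finset.prod_le_prod` against `fun x => if .. then 1 - 4/T0^2 else 1`, `Finset.prod_ite`.) -/
theorem prod_block_le (K : ℕ) (z : ℤ) (S : Finset ℕ) (T0 : ℝ) (hT : 2 ≤ T0) (η : ℤ) (s B : ℕ) :
    ∏ x ∈ range B, Real.cos (Real.pi * (((η * gam z S (s + x) : ℤ) : ℝ) / 2 ^ K)) ^ 2 ≤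
      (1 - 4 / T0 ^ 2) ^ wcnt K z S T0 η s B := by
  classical
  have h0 : (0 : ℝ) ≤ 1 - 4 / T0 ^ 2 := by
    have : 4 / T0 ^ 2 ≤ 1 := by
      rw [div_le_one (by positivity)]
      nlinarith
    linarith
  have h1 : ∏ x ∈ range B, Real.cos (Real.pi * (((η * gam z S (s + x) : ℤ) : ℝ) / 2 ^ K)) ^ 2 ≤
      ∏ x ∈ range B, (if mix S (s + x) ∧ white K z S T0 η (s + x) then (1 - 4 / T0 ^ 2) else (1 : ℝ)) := by
    apply Finset.prod_le_prod
    · intro x _
      positivity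
    · intro x _
      by_cases h : mix S (s + x) ∧ white K z S T0 η (s + x)
      · rw [if_pos h]
        exact cos_gam_le K z S T0 hT η (s + x) h.1 h.2
      · rw [if_neg h]
        nlinarith [Real.sin_sq_add_cos_sq (Real.pi * (((η * gam z S (s + x) : ℤ) : ℝ) / 2 ^ K)),
          sq_nonneg (Real.sin (Real.pi * (((η * gam z S (s + x) : ℤ) : ℝ) / 2 ^ K)))]
  refine h1.trans (le_of_eq ?_)
  rw [Finset.prod_ite, Finset.prod_const, Finset.prod_const_one, mul_one]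
  unfold wcnt
  congr 2

end Pool.Agent.MP81cdd9.HZ
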