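import Pool.Agent.Lib.MP_81cdd9_nt.HZ.F4

/-! White pairs. -/

set_option autoImplicit false

namespace Pool.Agent.MP81cdd9.HZ

open Finset

/-- Disjoint blocks.
PROOF. General `f : ℕ → ℝ` with `0 ≤ f j ≤ 1`. Induction on `g`: the blocks `t < g` lie in `[0, s (g-1) + B)`, so
`∏ j ∈ range (s (g-1) + B)` splits as `∏ j ∈ range (s (g-1))` times the last block (`Finset.prod_range_add`), the first product is
bounded by induction (with `H := s (g-1)`), and `∏ range H ≤ ∏ range H'` for `H' ≤ H`. -/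
theorem prod_blocks (f : ℕ → ℝ) (h0 : ∀ j, 0 ≤ f j) (h1 : ∀ j, f j ≤ 1) (B g H : ℕ) (s : ℕ → ℕ)
    (hs : ∀ t, t + 1 < g → s t + B ≤ s (t + 1)) (hH : ∀ t < g, s t + B ≤ H) :
    ∏ j ∈ range H, f j ≤ ∏ t ∈ range g, ∏ x ∈ range B, f (s t + x) := by
  induction g generalizing H with
  | zero =>
    rw [Finset.prod_range_zero]
    exact Finset.prod_le_one (fun j _ => h0 j) (fun j _ => h1 j)
  | succ g ih =>
    have hH' := hH g (by omega)
    obtain ⟨r, hr⟩ := Nat.exists_eq_add_of_le hH'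
    have hmono : ∀ a b, a ≤ b → b ≤ g → s a ≤ s b := by
      intro a b hab
      induction b with
      | zero =>
        intro _
        have : a = 0 := by omega
        rw [this]
      | succ b ihb =>
        intro hb
        rcases Nat.eq_or_lt_of_le hab with h2 | h2
        · rw [h2]
        · have h3 := ihb (by omega) (by omega)
          have h4 := hs b (by omega)
          omega
    have h2 := ih (s g) (fun t ht => hs t (by omega)) (by
      intro t ht
      have h3 := hs t (by omega)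
      have h4 := hmono (t + 1) g (by omega) le_rfl
      omega)
    have hn : ∀ (n : ℕ) (k : ℕ), 0 ≤ ∏ x ∈ range n, f (k + x) := fun n k =>
      Finset.prod_nonneg fun _ _ => h0 _
    have hn' : ∀ (n : ℕ), 0 ≤ ∏ x ∈ range n, f x := fun n =>
      Finset.prod_nonneg fun _ _ => h0 _
    rw [hr, Finset.prod_range_add, Finset.prod_range_add, Finset.prod_range_succ]
    calc (∏ x ∈ range (s g), f x) * (∏ x ∈ range B, f (s g + x)) *
          ∏ x ∈ range r, f (s g + B + x)
        ≤ (∏ x ∈ range (s g), f x) * (∏ x ∈ range B, f (s g + x)) * 1 := by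
          apply mul_le_mul_of_nonneg_left _ (mul_nonneg (hn' _) (hn _ _))
          exact Finset.prod_le_one (fun j _ => h0 _) (fun j _ => h1 _)
      _ = (∏ x ∈ range (s g), f x) * (∏ x ∈ range B, f (s g + x)) := mul_one _
      _ ≤ (∏ t ∈ range g, ∏ x ∈ range B, f (s t + x)) * ∏ x ∈ range B, f (s g + x) :=
          mul_le_mul_of_nonneg_right h2 (hn _ _)

/-- PROOF. Let `t0` be an index with `w t` minimal (`Finset.exists_min_image`). `∏ a^(w t) ≤ ∏ a^(w t0) = (a^g)^(w t0)`, one of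
the terms of the sum (all are nonnegative). -/
theorem prod_le_sum (a : ℝ) (ha0 : 0 ≤ a) (ha1 : a ≤ 1) (g : ℕ) (hg : 1 ≤ g) (w : ℕ → ℕ) :
    ∏ t ∈ range g, a ^ w t ≤ ∑ t ∈ range g, (a ^ g) ^ w t := by
  obtain ⟨t0, ht0, hmin⟩ := Finset.exists_min_image (range g) w ⟨0, Finset.mem_range.2 hg⟩
  have h1 : ∏ t ∈ range g, a ^ w t ≤ ∏ t ∈ range g, a ^ w t0 := by
    apply Finset.prod_le_prod
    · intro t _
      exact pow_nonneg ha0 _
    · intro t ht
      exact pow_le_pow_of_le_one ha0 ha1 (hmin t ht)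
  have h2 : ∏ t ∈ range g, a ^ w t0 = (a ^ g) ^ w t0 := by
    rw [Finset.prod_const, Finset.card_range, ← pow_mul, ← pow_mul, mul_comm]
  rw [h2] at h1
  refine h1.trans ?_
  exact Finset.single_le_sum (f := fun t => (a ^ g) ^ w t)
    (fun t _ => pow_nonneg (pow_nonneg ha0 g) _) ht0

/-- PROOF. For each `η`: `prod_blocks`, `prod_block_le`, `prod_le_sum` with `a = 1 - 4/T0^2`; exchange the sums. -/
theorem blocks_sum (K H g B : ℕ) (z : ℤ) (S : Finset ℕ) (T0 : ℝ) (hT : 2 ≤ T0) (hg : 1 ≤ g) (s : ℕ → ℕ)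
    (hs : ∀ t, t + 1 < g → s t + B ≤ s (t + 1)) (hH : ∀ t < g, s t + B ≤ H) (A : Finset ℤ) :
    ∑ η ∈ A, ∏ j ∈ range H, Real.cos (Real.pi * (((η * gam z S j : ℤ) : ℝ) / 2 ^ K)) ^ 2 ≤
      ∑ t ∈ range g, ∑ η ∈ A, ((1 - 4 / T0 ^ 2) ^ g) ^ wcnt K z S T0 η (s t) B := by
  rw [Finset.sum_comm]
  apply Finset.sum_le_sum
  intro η _
  have hT4 : (4 : ℝ) ≤ T0 ^ 2 := by nlinarith
  have hT2 : (0 : ℝ) < T0 ^ 2 := by positivity
  have ha0 : 0 ≤ 1 - 4 / T0 ^ 2 := by
    have : 4 / T0 ^ 2 ≤ 1 := by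
      rw [div_le_one hT2]
      exact hT4
    linarith
  have ha1 : 1 - 4 / T0 ^ 2 ≤ 1 := by
    have : 0 ≤ 4 / T0 ^ 2 := by positivity
    linarith
  have h1 := prod_blocks
    (fun j => Real.cos (Real.pi * (((η * gam z S j : ℤ) : ℝ) / 2 ^ K)) ^ 2)
    (fun j => sq_nonneg _) (fun j => Real.cos_sq_le_one _) B g H s hs hH
  refine h1.trans ?_
  refine le_trans ?_ (prod_le_sum (1 - 4 / T0 ^ 2) ha0 ha1 g hg
    (fun t => wcnt K z S T0 η (s t) B))
  apply Finset.prod_le_prod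
  · intro t _
    exact Finset.prod_nonneg fun _ _ => sq_nonneg _
  · intro t _
    exact prod_block_le K z S T0 hT η (s t) B

end Pool.Agent.MP81cdd9.HZ
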