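import Mathlib

/-! The counting lemma for one block. `o x ∈ {0,1,2}` is the number of ones of the pair `x`; `Y x` the sum of the first `x` of them. -/

set_option autoImplicit false

namespace Pool.Agent.MP81cdd9.HZ

open Finset

/-- partial sums -/
def Ys (o : ℕ → ℕ) (x : ℕ) : ℕ := ∑ i ∈ range x, o i

/-- `k` is black at `x` -/
def black (o : ℕ → ℕ) (R' : ℕ) (k : ℤ) (x : ℕ) : Prop :=
  ∃ v : ℤ, |4 ^ x * k - v * 5 ^ (Ys o x + 1)| * (4 * 5 ^ R') < 2 * 5 ^ (Ys o x + 1)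

open Classical in
/-- number of white pairs before `X` -/
noncomputable def wc (o : ℕ → ℕ) (R' X0 : ℕ) (X : ℕ) (k : ℤ) : ℕ :=
  ((range X).filter (fun x => o x = 1 ∧ X0 ≤ x ∧ ¬ black o R' k x)).card

open Classical in
/-- number of `x < X` at which `ρ` consecutive non-mixed pairs end -/
noncomputable def vc (o : ℕ → ℕ) (ρ X : ℕ) : ℕ :=
  ((range X).filter (fun x => ρ ≤ x + 1 ∧ ∀ i < ρ, o (x - i) ≠ 1)).card

/-- PROOF. Replace `v` by `v + 4^x t 5^(y - (Ys o x + 1))`. -/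
theorem black_add (o : ℕ → ℕ) (R' : ℕ) (k t : ℤ) (x y : ℕ) (hy : Ys o x + 1 ≤ y) :
    black o R' (k + 5 ^ y * t) x ↔ black o R' k x := by
  obtain ⟨c, hc⟩ := Nat.exists_eq_add_of_le hy
  subst hc
  constructor
  · rintro ⟨v, hv⟩
    refine ⟨v - 4 ^ x * 5 ^ c * t, ?_⟩
    have h1 : 4 ^ x * k - (v - 4 ^ x * 5 ^ c * t) * 5 ^ (Ys o x + 1) =
        4 ^ x * (k + 5 ^ (Ys o x + 1 + c) * t) - v * 5 ^ (Ys o x + 1) := by
      ring
    rw [h1]
    exact hv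
  · rintro ⟨v, hv⟩
    refine ⟨v + 4 ^ x * 5 ^ c * t, ?_⟩
    have h1 : 4 ^ x * (k + 5 ^ (Ys o x + 1 + c) * t) - (v + 4 ^ x * 5 ^ c * t) * 5 ^ (Ys o x + 1) =
        4 ^ x * k - v * 5 ^ (Ys o x + 1) := by
      ring
    rw [h1]
    exact hv

/-- PROOF. `black_add` for all `x' < X` with `o x' = 1`: `Ys o x' + 1 ≤ y` by hypothesis. -/
theorem wc_add (o : ℕ → ℕ) (R' X0 X : ℕ) (k t : ℤ) (y : ℕ) (hy : ∀ x < X, o x = 1 → Ys o x + 1 ≤ y) :
    wc o R' X0 X (k + 5 ^ y * t) = wc o R' X0 X k := by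
  classical
  unfold wc
  apply congrArg Finset.card
  ext x
  simp only [mem_filter, mem_range]
  constructor
  · rintro ⟨hx, h1, h2, h3⟩
    exact ⟨hx, h1, h2, fun h => h3 ((black_add o R' k t x y (hy x hx h1)).2 h)⟩
  · rintro ⟨hx, h1, h2, h3⟩
    exact ⟨hx, h1, h2, fun h => h3 ((black_add o R' k t x y (hy x hx h1)).1 h)⟩

/-- At most one lift is black.
PROOF. Let `y = Ys o x + 1 = a + e`. Two black lifts `d, d'` with `v, v'`: the integer `n = 4^x (d - d') - (v - v') 5^e` satisfies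
`|n| * 5^a * (4 * 5^R') < 4 * 5^(a+e)`, so `|n| * 5^R' < 5^e ≤ 5^R'` and `n = 0`; so `5^e ∣ 4^x (d - d')`, `5^e ∣ d - d'` (coprime),
`|d - d'| < 5^e`. -/
theorem black_unique (o : ℕ → ℕ) (R' : ℕ) (k : ℤ) (x a e : ℕ) (hy : Ys o x + 1 = a + e) (he : e ≤ R')
    (d d' : ℕ) (hd : d < 5 ^ e) (hd' : d' < 5 ^ e)
    (h : black o R' (k + 5 ^ a * d) x) (h' : black o R' (k + 5 ^ a * d') x) : d = d' := by
  obtain ⟨v, hv⟩ := h
  obtain ⟨v', hv'⟩ := h'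
  rw [hy, pow_add] at hv hv'
  obtain ⟨n, hn⟩ : ∃ n : ℤ, n = 4 ^ x * ((d : ℤ) - d') - (v - v') * 5 ^ e := ⟨_, rfl⟩
  have h5a : (0 : ℤ) < 5 ^ a := by positivity
  have h5R : (0 : ℤ) < 5 ^ R' := by positivity
  have h1 : (5 : ℤ) ^ a * n = (4 ^ x * (k + 5 ^ a * d) - v * (5 ^ a * 5 ^ e)) -
      (4 ^ x * (k + 5 ^ a * d') - v' * (5 ^ a * 5 ^ e)) := by
    rw [hn]
    ring
  have h2 : (5 : ℤ) ^ a * |n| ≤ |4 ^ x * (k + 5 ^ a * d) - v * (5 ^ a * 5 ^ e)| +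
      |4 ^ x * (k + 5 ^ a * d') - v' * (5 ^ a * 5 ^ e)| := by
    have h3 := abs_sub (4 ^ x * (k + 5 ^ a * (d : ℤ)) - v * (5 ^ a * 5 ^ e))
      (4 ^ x * (k + 5 ^ a * (d' : ℤ)) - v' * (5 ^ a * 5 ^ e))
    rw [← h1, abs_mul, abs_of_pos h5a] at h3
    exact h3
  have h3 : (5 : ℤ) ^ a * |n| * (4 * 5 ^ R') < 4 * (5 ^ a * 5 ^ e) := by
    have h4 := mul_le_mul_of_nonneg_right h2 (show (0 : ℤ) ≤ 4 * 5 ^ R' by positivity)
    rw [add_mul] at h4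
    linarith
  have h4 : |n| * 5 ^ R' < 5 ^ e := by
    by_contra hcon
    rw [not_lt] at hcon
    have h5 := mul_le_mul_of_nonneg_left hcon h5a.le
    nlinarith
  have h5 : (5 : ℤ) ^ e ≤ 5 ^ R' := pow_le_pow_right₀ (by norm_num) he
  have h6 : |n| < 1 := by
    by_contra hcon
    rw [not_lt] at hcon
    nlinarith
  have h7 : n = 0 := Int.abs_lt_one_iff.1 h6
  have h8 : (5 : ℤ) ^ e ∣ 4 ^ x * ((d : ℤ) - d') := ⟨v - v', by rw [h7] at hn; linarith⟩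
  have h9 : IsCoprime ((5 : ℤ) ^ e) (4 ^ x) := IsCoprime.pow ⟨1, -1, by norm_num⟩
  have h10 := h9.dvd_of_dvd_mul_left h8
  have h11 : |(d : ℤ) - d'| < 5 ^ e := by
    have h12 : (d : ℤ) < 5 ^ e := by exact_mod_cast hd
    have h13 : (d' : ℤ) < 5 ^ e := by exact_mod_cast hd'
    rw [abs_lt]
    constructor <;> linarith [Int.natCast_nonneg d, Int.natCast_nonneg d']
  have h12 := Int.eq_zero_of_abs_lt_dvd h10 h11
  omega

/-- PROOF. Induction on `n`, or the bijection `(k0, d) ↦ k0 + m d` of `range m ×ˢ range n` onto `range (m n)`. -/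
theorem sum_range_mul_split (m n : ℕ) (f : ℕ → ℝ) :
    ∑ k ∈ range (m * n), f k = ∑ d ∈ range n, ∑ k ∈ range m, f (k + m * d) := by
  induction n with
  | zero => simp
  | succ n ih =>
    rw [Nat.mul_succ, Finset.sum_range_add, ih, Finset.sum_range_succ]
    congr 1
    refine Finset.sum_congr rfl fun k _ => ?_
    rw [add_comm]

end Pool.Agent.MP81cdd9.HZ
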