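import Pool.Agent.Lib.MP_81cdd9_nt.HZ.F1
import Pool.Agent.Lib.MP_81cdd9_nt.HZ.F4
import Pool.Agent.Lib.MP_81cdd9_nt.HZ.F6

/-! One good block. -/

set_option autoImplicit false

namespace Pool.Agent.MP81cdd9.HZ

open Finset

/-- the ones of the pairs of the block which starts at `s` -/
def oo (S : Finset ℕ) (s x : ℕ) : ℕ := cnt S (2 * (s + x) + 2) - cnt S (2 * (s + x))

/-- PROOF. `cnt_succ` twice. -/
theorem oo_le (S : Finset ℕ) (s x : ℕ) : oo S s x ≤ 2 := by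
  unfold oo
  have h1 := cnt_succ S (2 * (s + x) + 1)
  have h2 := cnt_succ S (2 * (s + x))
  rw [show 2 * (s + x) + 1 + 1 = 2 * (s + x) + 2 from rfl] at h1
  split_ifs at h1 h2 <;> omega

/-- PROOF. `cnt_mono`: the difference is 1. -/
theorem mix_iff (S : Finset ℕ) (s x : ℕ) : mix S (s + x) ↔ oo S s x = 1 := by
  unfold mix oo
  have h1 := cnt_mono S (show 2 * (s + x) ≤ 2 * (s + x) + 2 by omega)
  omega

/-- PROOF. Telescoping sum (`cnt_mono`). -/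
theorem Ys_oo (S : Finset ℕ) (s x : ℕ) : Ys (oo S s) x = cnt S (2 * (s + x)) - cnt S (2 * s) := by
  unfold Ys
  induction x with
  | zero => simp
  | succ x ih =>
    rw [Finset.sum_range_succ, ih]
    unfold oo
    have h1 := cnt_mono S (show 2 * (s + x) ≤ 2 * (s + x) + 2 by omega)
    have h2 := cnt_mono S (show 2 * s ≤ 2 * (s + x) by omega)
    rw [show 2 * (s + (x + 1)) = 2 * (s + x) + 2 by ring]
    omega

/-- the residue `r_η = η z^A mod 2^(K-2s)`, `A = cnt S (2(s+B))` -/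
def rr (K : ℕ) (z : ℤ) (S : Finset ℕ) (s B : ℕ) (η : ℤ) : ℤ := (η * z ^ cnt S (2 * (s + B))) % 2 ^ (K - 2 * s)

/-- the index `k = ⌊5^D r_η / 2^(K-2s)⌋`, `D = Ys (oo S s) B` -/
def kk (K : ℕ) (z : ℤ) (S : Finset ℕ) (s B : ℕ) (η : ℤ) : ℤ :=
  (5 ^ Ys (oo S s) B * rr K z S s B η) / 2 ^ (K - 2 * s)

/-- PROOF. `0 ≤ r_η < 2^(K-2s)`. -/
theorem kk_mem (K : ℕ) (z : ℤ) (S : Finset ℕ) (s B : ℕ) (η : ℤ) :
    0 ≤ kk K z S s B η ∧ kk K z S s B η < 5 ^ Ys (oo S s) B := by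
  have hM : (0 : ℤ) < 2 ^ (K - 2 * s) := by positivity
  have h1 : 0 ≤ rr K z S s B η := Int.emod_nonneg _ hM.ne'
  have h2 : rr K z S s B η < 2 ^ (K - 2 * s) := Int.emod_lt_of_pos _ hM
  have h5 : (0 : ℤ) < 5 ^ Ys (oo S s) B := by positivity
  unfold kk
  constructor
  · exact Int.ediv_nonneg (mul_nonneg h5.le h1) hM.le
  · apply Int.ediv_lt_of_lt_mul hM
    exact mul_lt_mul_of_pos_left h2 h5

/-- The phase in terms of `r_η`.
PROOF. `A = cnt S (2(s+B))`, `i = cnt S (2(s+x)) + 1` (`≤ A` because the pair is mixed and `x < B`), `y = Ys (oo S s) x + 1`,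
`D = Ys (oo S s) B`, so `A - i = D - y`. `z^i = z^A 5^(A-i)` modulo `2^K`, `η z^A = r_η` modulo `2^(K-2s)`; multiplied by
`4^(s+x) = 4^s 4^x = 2^(2s) 4^x`: `η β_{s+x} = 2^(2s) 4^x 5^(D-y) r_η` modulo `2^K` (`2s ≤ K`). -/
theorem phase (K : ℕ) (z : ℤ) (hz : (2 : ℤ) ^ K ∣ 5 * z - 1) (S : Finset ℕ) (s B x : ℕ) (hx : x < B) (hs : 2 * s ≤ K)
    (hm : mix S (s + x)) (η : ℤ) :
    (2 : ℤ) ^ K ∣ η * bet z S (s + x) -
      2 ^ (2 * s) * (4 ^ x * (5 ^ (Ys (oo S s) B - (Ys (oo S s) x + 1)) * rr K z S s B η)) := by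
  have hc1 : cnt S (2 * s) ≤ cnt S (2 * (s + x)) := cnt_mono S (by omega)
  have hc2 : cnt S (2 * (s + x)) + 1 ≤ cnt S (2 * (s + B)) := by
    have h1 : cnt S (2 * (s + x) + 2) = cnt S (2 * (s + x)) + 1 := hm
    have h2 : cnt S (2 * (s + x) + 2) ≤ cnt S (2 * (s + B)) := cnt_mono S (by omega)
    omega
  obtain ⟨u, hu⟩ := Nat.exists_eq_add_of_le hc2
  have hD : Ys (oo S s) B - (Ys (oo S s) x + 1) = u := by
    rw [Ys_oo, Ys_oo]
    omega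
  rw [hD]
  unfold bet
  set i := cnt S (2 * (s + x)) + 1 with hi
  -- the two congruences
  have h1 : (2 : ℤ) ^ K ∣ z ^ i - z ^ (i + u) * 5 ^ u := by
    have h2 : (2 : ℤ) ^ K ∣ (5 * z) ^ u - 1 := by
      have := (hz.trans (sub_one_dvd_pow_sub_one (5 * z) u))
      exact this
    have h3 : z ^ i - z ^ (i + u) * 5 ^ u = -(z ^ i) * ((5 * z) ^ u - 1) := by
      rw [mul_pow, pow_add]
      ring
    rw [h3]
    exact Dvd.dvd.mul_left h2 _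
  have h4 : (2 : ℤ) ^ (K - 2 * s) ∣ η * z ^ (i + u) - rr K z S s B η := by
    unfold rr
    rw [hu]
    exact Int.dvd_self_sub_emod
  have h5 : (2 : ℤ) ^ K = 2 ^ (2 * s) * 2 ^ (K - 2 * s) := by
    rw [← pow_add, Nat.add_sub_cancel' hs]
  have h6 : (4 : ℤ) ^ s = 2 ^ (2 * s) := by
    rw [pow_mul]
    norm_num
  have h7 : (2 : ℤ) ^ K ∣ 2 ^ (2 * s) * (η * z ^ (i + u) - rr K z S s B η) := by
    rw [h5]
    exact mul_dvd_mul_left _ h4
  have h8 : η * (4 ^ (s + x) * z ^ i) - 2 ^ (2 * s) * (4 ^ x * (5 ^ u * rr K z S s B η)) =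
      η * 4 ^ (s + x) * (z ^ i - z ^ (i + u) * 5 ^ u) +
        4 ^ x * 5 ^ u * (2 ^ (2 * s) * (η * z ^ (i + u) - rr K z S s B η)) := by
    rw [pow_add 4 s x, h6]
    ring
  rw [h8]
  exact dvd_add (Dvd.dvd.mul_left h1 _) (Dvd.dvd.mul_left h7 _)

end Pool.Agent.MP81cdd9.HZ
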