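import Pool.Agent.Lib.MP_81cdd9_nt.HZ.F5

/-! One good block. -/

set_option autoImplicit false

namespace Pool.Agent.MP81cdd9.HZ

open Finset

private theorem F5b_Ys_lt (o : ℕ → ℕ) (x B : ℕ) (hx : x < B) (ho : o x = 1) : Ys o x + 1 ≤ Ys o B := by
  have h1 : Ys o (x + 1) = Ys o x + o x := by unfold Ys; rw [Finset.sum_range_succ]
  have h2 : Ys o (x + 1) ≤ Ys o B := by
    unfold Ys
    exact Finset.sum_le_sum_of_subset (Finset.range_mono hx)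
  omega

/-- A pair which is not white is black for `k`.
PROOF. By `phase`, `u = 4^x 5^(D-y) r_η / 2^M` (`M = K - 2s`) differs from `η β / 2^K` by an integer, so `|u - v| < 1/T0` for an
integer `v` (`T0 = 4 * 5^R'`). Multiply by `5^y`: `5^D r_η / 2^M = k + f`, `0 ≤ f < 1`: `|4^x (k + f) - v 5^y| < 5^y / T0`, and
`4^x f < 4^x ≤ 5^y / T0` by `hact`. So `|4^x k - v 5^y| T0 < 2 * 5^y`. -/
theorem black_of_not_white (K : ℕ) (z : ℤ) (hz : (2 : ℤ) ^ K ∣ 5 * z - 1) (S : Finset ℕ) (s B x R' : ℕ) (hx : x < B)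
    (hs : 2 * s ≤ K) (hm : mix S (s + x)) (hact : 4 * 5 ^ R' * 4 ^ x ≤ 5 ^ (Ys (oo S s) x + 1)) (η : ℤ)
    (hw : ¬ white K z S (4 * 5 ^ R') η (s + x)) : black (oo S s) R' (kk K z S s B η) x := by
  have hox : oo S s x = 1 := (mix_iff S s x).1 hm
  have hyD := F5b_Ys_lt (oo S s) x B hx hox
  obtain ⟨w, hw'⟩ := phase K z hz S s B x hx hs hm η
  set y := Ys (oo S s) x + 1 with hy
  set D := Ys (oo S s) B with hD
  set r := rr K z S s B η with hr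
  set M := K - 2 * s with hM
  have hKM : (2 : ℤ) ^ K = 2 ^ (2 * s) * 2 ^ M := by
    rw [← pow_add]; congr 1; omega
  -- the integer approximation
  unfold white at hw
  set b : ℤ := η * bet z S (s + x) with hb
  set q : ℤ := round (((b : ℤ) : ℝ) / 2 ^ K) with hq
  have h1 : |((b : ℤ) : ℝ) / 2 ^ K - (q : ℝ)| < 1 / (4 * 5 ^ R') := not_le.1 hw
  have hT : (0 : ℝ) < 4 * 5 ^ R' := by positivity
  have hK : (0 : ℝ) < 2 ^ K := by positivity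
  have h2 : |((b : ℤ) : ℝ) - (q : ℝ) * 2 ^ K| * (4 * 5 ^ R') < 2 ^ K := by
    have e : ((b : ℤ) : ℝ) - (q : ℝ) * 2 ^ K = (((b : ℤ) : ℝ) / 2 ^ K - (q : ℝ)) * 2 ^ K := by
      field_simp
    rw [e, abs_mul, abs_of_pos hK]
    have h3 : |((b : ℤ) : ℝ) / 2 ^ K - (q : ℝ)| * (4 * 5 ^ R') < 1 := by
      rw [lt_div_iff₀ hT] at h1
      exact h1
    calc |((b : ℤ) : ℝ) / 2 ^ K - (q : ℝ)| * 2 ^ K * (4 * 5 ^ R')
        = (|((b : ℤ) : ℝ) / 2 ^ K - (q : ℝ)| * (4 * 5 ^ R')) * 2 ^ K := by ring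
      _ < 1 * 2 ^ K := by exact mul_lt_mul_of_pos_right h3 hK
      _ = 2 ^ K := one_mul _
  have h3 : |b - q * 2 ^ K| * (4 * 5 ^ R') < 2 ^ K := by exact_mod_cast h2
  -- the phase
  have h4 : b - q * 2 ^ K = 2 ^ (2 * s) * (4 ^ x * (5 ^ (D - y) * r) - (q - w) * 2 ^ M) := by
    have h5 : b = 2 ^ (2 * s) * (4 ^ x * (5 ^ (D - y) * r)) + 2 ^ K * w := by linarith
    rw [h5, hKM]; ring
  have h2s : (0 : ℤ) < 2 ^ (2 * s) := by positivity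
  have h5 : |4 ^ x * (5 ^ (D - y) * r) - (q - w) * 2 ^ M| * (4 * 5 ^ R') < 2 ^ M := by
    rw [h4, abs_mul, abs_of_pos h2s, hKM, mul_assoc] at h3
    exact lt_of_mul_lt_mul_left h3 h2s.le
  -- the division
  set k := kk K z S s B η with hk
  have hk1 : k = (5 ^ D * r) / 2 ^ M := rfl
  have hMp : (0 : ℤ) < 2 ^ M := by positivity
  have hdiv : 2 ^ M * k + (5 ^ D * r) % 2 ^ M = 5 ^ D * r := by
    rw [hk1]; exact Int.mul_ediv_add_emod _ _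
  have hf0 : 0 ≤ (5 ^ D * r) % (2 : ℤ) ^ M := Int.emod_nonneg _ hMp.ne'
  have hf1 : (5 ^ D * r) % (2 : ℤ) ^ M < 2 ^ M := Int.emod_lt_of_pos _ hMp
  set f := (5 ^ D * r) % (2 : ℤ) ^ M with hf
  refine ⟨q - w, ?_⟩
  have h5D : (5 : ℤ) ^ D = 5 ^ y * 5 ^ (D - y) := by
    rw [← pow_add]; congr 1; omega
  have h6 : 2 ^ M * (4 ^ x * k - (q - w) * 5 ^ y)
      = 5 ^ y * (4 ^ x * (5 ^ (D - y) * r) - (q - w) * 2 ^ M) - 4 ^ x * f := by
    have h7 : 2 ^ M * k = 5 ^ y * 5 ^ (D - y) * r - f := by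
      rw [← h5D]; linarith
    calc 2 ^ M * (4 ^ x * k - (q - w) * 5 ^ y) = 4 ^ x * (2 ^ M * k) - 2 ^ M * (q - w) * 5 ^ y := by ring
      _ = _ := by rw [h7]; ring
  have h5y : (0 : ℤ) < 5 ^ y := by positivity
  have h4x : (0 : ℤ) < 4 ^ x := by positivity
  have hTz : (0 : ℤ) < 4 * 5 ^ R' := by positivity
  have h8 : 2 ^ M * |4 ^ x * k - (q - w) * 5 ^ y|
      ≤ 5 ^ y * |4 ^ x * (5 ^ (D - y) * r) - (q - w) * 2 ^ M| + 4 ^ x * f := by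
    have e1 : 2 ^ M * |4 ^ x * k - (q - w) * 5 ^ y| = |2 ^ M * (4 ^ x * k - (q - w) * 5 ^ y)| := by
      rw [abs_mul, abs_of_pos hMp]
    have e2 : 5 ^ y * |4 ^ x * (5 ^ (D - y) * r) - (q - w) * 2 ^ M|
        = |5 ^ y * (4 ^ x * (5 ^ (D - y) * r) - (q - w) * 2 ^ M)| := by
      rw [abs_mul, abs_of_pos h5y]
    have e3 : 4 ^ x * f = |4 ^ x * f| := (abs_of_nonneg (mul_nonneg h4x.le hf0)).symm
    rw [e1, h6, e2, e3]
    rw [sub_eq_add_neg]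
    refine (abs_add_le _ _).trans_eq ?_
    rw [abs_neg, abs_abs]
  have hact' : (4 * 5 ^ R' * 4 ^ x : ℤ) ≤ 5 ^ y := by exact_mod_cast hact
  have h9 : 2 ^ M * (|4 ^ x * k - (q - w) * 5 ^ y| * (4 * 5 ^ R')) < 2 ^ M * (2 * 5 ^ y) := by
    calc 2 ^ M * (|4 ^ x * k - (q - w) * 5 ^ y| * (4 * 5 ^ R'))
        = (2 ^ M * |4 ^ x * k - (q - w) * 5 ^ y|) * (4 * 5 ^ R') := by ring
      _ ≤ (5 ^ y * |4 ^ x * (5 ^ (D - y) * r) - (q - w) * 2 ^ M| + 4 ^ x * f) * (4 * 5 ^ R') :=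
          mul_le_mul_of_nonneg_right h8 hTz.le
      _ = 5 ^ y * (|4 ^ x * (5 ^ (D - y) * r) - (q - w) * 2 ^ M| * (4 * 5 ^ R')) + (4 * 5 ^ R' * 4 ^ x) * f := by ring
      _ < 5 ^ y * 2 ^ M + 5 ^ y * 2 ^ M := by
          have a1 := mul_lt_mul_of_pos_left h5 h5y
          have a2 : (4 * 5 ^ R' * 4 ^ x) * f ≤ 5 ^ y * 2 ^ M :=
            mul_le_mul hact' hf1.le hf0 h5y.le
          linarith
      _ = 2 ^ M * (2 * 5 ^ y) := by ring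
  exact lt_of_mul_lt_mul_left h9 hMp.le

/-- PROOF. `mix_iff`, `black_of_not_white`: the set of `wc` is contained in the set of `wcnt`. -/
theorem wc_le_wcnt (K : ℕ) (z : ℤ) (hz : (2 : ℤ) ^ K ∣ 5 * z - 1) (S : Finset ℕ) (s B R' X0 : ℕ) (hs : 2 * s ≤ K)
    (hact : ∀ x < B, X0 ≤ x → 4 * 5 ^ R' * 4 ^ x ≤ 5 ^ (Ys (oo S s) x + 1)) (η : ℤ) :
    wc (oo S s) R' X0 B (kk K z S s B η) ≤ wcnt K z S (4 * 5 ^ R') η s B := by
  classical
  unfold wc wcnt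
  apply Finset.card_le_card
  intro x hx
  rw [Finset.mem_filter] at hx ⊢
  obtain ⟨hxB, h1, hX0, hb⟩ := hx
  have hm : mix S (s + x) := (mix_iff S s x).2 h1
  refine ⟨hxB, hm, ?_⟩
  by_contra hw
  exact hb (black_of_not_white K z hz S s B x R' (Finset.mem_range.1 hxB) hs hm (hact x (Finset.mem_range.1 hxB) hX0) η hw)

end Pool.Agent.MP81cdd9.HZ
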