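import Pool.Agent.Lib.MP_81cdd9_nt.HZ.F5

/-! One good block. -/

set_option autoImplicit false

namespace Pool.Agent.MP81cdd9.HZ

open Finset

private theorem F5c_pow (n : ℕ) (a b N : ℤ) (h : N ∣ a * b - 1) : N ∣ a ^ n * b ^ n - 1 := by
  rw [← mul_pow]
  have := sub_dvd_pow_sub_pow (a * b) 1 n
  rw [one_pow] at this
  exact h.trans this

/-- Two `η` with the same `k` are far apart if the block is good.
PROOF. Suppose `η < η'`, `d = η' - η < 2^(J-j1)`. `r = r_η' - r_η`: `5^D r_η` and `5^D r_η'` have the same quotient by `2^M`, so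
`5^D |r| < 2^M` and with `hD` `2^J |r| < 2^M`, `|r| < 2^(M-J)` (`J ≤ M`). `r = d z^A` modulo `2^M`, so `d = 5^A r` modulo `2^M`:
contradiction to `goodP`. -/
theorem kk_far (K J j1 B : ℕ) (z : ℤ) (hz : (2 : ℤ) ^ K ∣ 5 * z - 1) (S : Finset ℕ) (s : ℕ) (hs : J + 2 * s ≤ K)
    (hD : 2 ^ J ≤ 5 ^ Ys (oo S s) B) (hg : goodP K J j1 B S s) (η η' : ℤ) (h : η < η')
    (hk : kk K z S s B η = kk K z S s B η') : 2 ^ (J - j1) ≤ η' - η := by
  by_contra hlt
  rw [not_le] at hlt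
  unfold goodP at hg
  set M := K - 2 * s with hM
  set A := cnt S (2 * (s + B)) with hA
  have hMp : (0 : ℤ) < 2 ^ M := by positivity
  set r1 := rr K z S s B η with hr1
  set r2 := rr K z S s B η' with hr2
  have e1 : r1 = (η * z ^ A) % 2 ^ M := rfl
  have e2 : r2 = (η' * z ^ A) % 2 ^ M := rfl
  have k1 : kk K z S s B η = (5 ^ Ys (oo S s) B * r1) / 2 ^ M := rfl
  have k2 : kk K z S s B η' = (5 ^ Ys (oo S s) B * r2) / 2 ^ M := rfl
  rw [k1, k2] at hk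
  have d1 := Int.mul_ediv_add_emod (5 ^ Ys (oo S s) B * r1) (2 ^ M)
  have d2 := Int.mul_ediv_add_emod (5 ^ Ys (oo S s) B * r2) (2 ^ M)
  have f1 := Int.emod_nonneg (5 ^ Ys (oo S s) B * r1) hMp.ne'
  have f2 := Int.emod_lt_of_pos (5 ^ Ys (oo S s) B * r1) hMp
  have g1 := Int.emod_nonneg (5 ^ Ys (oo S s) B * r2) hMp.ne'
  have g2 := Int.emod_lt_of_pos (5 ^ Ys (oo S s) B * r2) hMp
  rw [hk] at d1
  have h5 : |5 ^ Ys (oo S s) B * (r2 - r1)| < 2 ^ M := by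
    rw [abs_lt]
    constructor <;> nlinarith
  have h5D : (0 : ℤ) < 5 ^ Ys (oo S s) B := by positivity
  rw [abs_mul, abs_of_pos h5D] at h5
  have hD' : (2 : ℤ) ^ J ≤ 5 ^ Ys (oo S s) B := by exact_mod_cast hD
  have h6 : 2 ^ J * |r2 - r1| < 2 ^ M :=
    lt_of_le_of_lt (mul_le_mul_of_nonneg_right hD' (abs_nonneg _)) h5
  have hMJ : (2 : ℤ) ^ M = 2 ^ J * 2 ^ (M - J) := by
    rw [← pow_add]; congr 1; omega
  rw [hMJ] at h6
  have h7 : |r2 - r1| < 2 ^ (M - J) := lt_of_mul_lt_mul_left h6 (by positivity)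
  refine hg (η' - η) (r2 - r1) (by omega) hlt h7 ?_
  -- the congruence
  have hzM : (2 : ℤ) ^ M ∣ 5 * z - 1 := (pow_dvd_pow 2 (by omega)).trans hz
  have hA' := F5c_pow A 5 z (2 ^ M) hzM
  have m1 : (2 : ℤ) ^ M ∣ η * z ^ A - r1 := by rw [e1]; exact Int.dvd_self_sub_emod
  have m2 : (2 : ℤ) ^ M ∣ η' * z ^ A - r2 := by rw [e2]; exact Int.dvd_self_sub_emod
  obtain ⟨a, ha⟩ := hA'
  obtain ⟨b, hb⟩ := m1
  obtain ⟨c, hc⟩ := m2
  refine ⟨- (η' - η) * a + 5 ^ A * (c - b), ?_⟩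
  have q1 : r1 = η * z ^ A - 2 ^ M * b := by linarith
  have q2 : r2 = η' * z ^ A - 2 ^ M * c := by linarith
  rw [q1, q2]
  linear_combination (-(η' - η)) * ha

/-- PROOF. The map `η ↦ (η + 2^(J-3)) / 2^(J-j1)` is injective on this set (`kk_far`) with values in `[0, 2^j1)`:
`0 < η + 2^(J-3) < 2^(J-2) ≤ 2^J = 2^(J-j1) 2^j1`. -/
theorem card_class (K J j1 B : ℕ) (z : ℤ) (hz : (2 : ℤ) ^ K ∣ 5 * z - 1) (S : Finset ℕ) (s : ℕ) (hs : J + 2 * s ≤ K)
    (hJ : 3 ≤ J) (hj1 : j1 ≤ J) (hD : 2 ^ J ≤ 5 ^ Ys (oo S s) B) (hg : goodP K J j1 B S s) (k : ℤ) :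
    ((etas J).filter (fun η => kk K z S s B η = k)).card ≤ 2 ^ j1 := by
  classical
  have hP : (0 : ℤ) < 2 ^ (J - j1) := by positivity
  have hcard : (Finset.Ico (0 : ℤ) (2 ^ j1)).card = 2 ^ j1 := by
    rw [Int.card_Ico, sub_zero]
    have : ((2 : ℤ) ^ j1) = ((2 ^ j1 : ℕ) : ℤ) := by push_cast; rfl
    rw [this, Int.toNat_natCast]
  rw [← hcard]
  apply Finset.card_le_card_of_injOn (fun η => (η + 2 ^ (J - 3)) / 2 ^ (J - j1))
  · intro η hη
    have hη' := hη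
    rw [Finset.mem_coe, Finset.mem_filter] at hη'
    obtain ⟨h1, -⟩ := hη'
    unfold etas at h1
    rw [Finset.mem_Ioo] at h1
    rw [Finset.mem_coe, Finset.mem_Ico]
    have hJ3 : (2 : ℤ) ^ J = 2 ^ (J - 3) * 8 := by
      have : (8 : ℤ) = 2 ^ 3 := by norm_num
      rw [this, ← pow_add]; congr 1; omega
    have hJ1 : (2 : ℤ) ^ J = 2 ^ j1 * 2 ^ (J - j1) := by
      rw [← pow_add]; congr 1; omega
    have hp : (0 : ℤ) < 2 ^ (J - 3) := by positivity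
    constructor
    · apply Int.ediv_nonneg _ hP.le
      linarith [h1.1]
    · apply Int.ediv_lt_of_lt_mul hP
      rw [← hJ1, hJ3]
      linarith [h1.2]
  · intro a ha b hb hab
    rw [Finset.mem_coe, Finset.mem_filter] at ha hb
    have key : ∀ x y : ℤ, x < y → kk K z S s B x = kk K z S s B y →
        (x + 2 ^ (J - 3)) / 2 ^ (J - j1) ≠ (y + 2 ^ (J - 3)) / 2 ^ (J - j1) := by
      intro x y hxy hk he
      have hf := kk_far K J j1 B z hz S s hs hD hg x y hxy hk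
      have h1 := Int.mul_ediv_add_emod (x + 2 ^ (J - 3)) (2 ^ (J - j1))
      have h2 := Int.mul_ediv_add_emod (y + 2 ^ (J - 3)) (2 ^ (J - j1))
      have h3 := Int.emod_nonneg (x + 2 ^ (J - 3)) hP.ne'
      have h4 := Int.emod_lt_of_pos (y + 2 ^ (J - 3)) hP
      rw [he] at h1
      linarith
    by_contra hne
    rcases lt_or_gt_of_ne hne with h | h
    · exact key a b h (ha.2.trans hb.2.symm) hab
    · exact key b a h (hb.2.trans ha.2.symm) hab.symm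

end Pool.Agent.MP81cdd9.HZ
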