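import Pool.Agent.Lib.MP_81cdd9_nt.HZ.F6b

/-! The counting lemma for one block. `o x ∈ {0,1,2}` is the number of ones of the pair `x`; `Y x` the sum of the first `x` of them. -/

set_option autoImplicit false

namespace Pool.Agent.MP81cdd9.HZ

open Finset

private theorem F6c_Ys_succ (o : ℕ → ℕ) (x : ℕ) : Ys o (x + 1) = Ys o x + o x := by
  unfold Ys
  rw [sum_range_succ]

private theorem F6c_Ys_mono (o : ℕ → ℕ) {x y : ℕ} (h : x ≤ y) : Ys o x ≤ Ys o y := by
  unfold Ys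
  exact sum_le_sum_of_subset (range_mono h)

private theorem F6c_vc_mono (o : ℕ → ℕ) (ρ x : ℕ) : vc o ρ x ≤ vc o ρ (x + 1) := by
  classical
  unfold vc
  exact card_le_card (filter_subset_filter _ (range_mono (Nat.le_succ x)))

private theorem F6c_vc_succ (o : ℕ → ℕ) (ρ x : ℕ) (h : ρ ≤ x + 1 ∧ ∀ i < ρ, o (x - i) ≠ 1) :
    vc o ρ (x + 1) = vc o ρ x + 1 := by
  classical
  unfold vc
  rw [range_add_one, filter_insert, if_pos h, card_insert_of_notMem]
  intro h1
  exact absurd (mem_range.1 (mem_filter.1 h1).1) (lt_irrefl x)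

private theorem F6c_wc_succ (o : ℕ → ℕ) (R' X0 x : ℕ) (k : ℤ) (h : o x ≠ 1) :
    wc o R' X0 (x + 1) k = wc o R' X0 x k := by
  classical
  unfold wc
  rw [range_add_one, filter_insert, if_neg]
  intro h1
  exact h h1.1

/-- The invariant. -/
private theorem F6c_inv (o : ℕ → ℕ) (ho : ∀ x, o x ≤ 2) (ρ X0 : ℕ) (hρ : 1 ≤ ρ) (lam : ℝ)
    (h0 : 0 ≤ lam) (h1 : lam ≤ 1) (x : ℕ) :
    ∃ q a : ℕ, q ≤ x ∧ (∀ x' < x, x ≤ x' + q → o x' ≠ 1) ∧ a ≤ Ys o x ∧ Ys o x ≤ a + 2 * q ∧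
      (∀ x' < x, o x' = 1 → Ys o x' + 1 ≤ a) ∧ q + 1 - ρ ≤ vc o ρ x ∧
      ∑ k ∈ range (5 ^ a), lam ^ wc o (4 * ρ + 1) X0 x (k : ℤ) ≤
        (1 + lam * 5 ^ (4 * ρ + 1)) ^ x *
          5 ^ (2 * min (x - q) X0 + 5 * (vc o ρ x - (q + 1 - ρ))) := by
  have hbase : (1 : ℝ) ≤ 1 + lam * 5 ^ (4 * ρ + 1) := by
    have : 0 ≤ lam * (5 : ℝ) ^ (4 * ρ + 1) := by positivity
    linarith
  have h5 : ∀ {m n : ℕ}, m ≤ n → (5 : ℝ) ^ m ≤ 5 ^ n := fun h =>
    pow_le_pow_right₀ (by norm_num) h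
  induction x with
  | zero =>
    refine ⟨0, 0, le_rfl, ?_, ?_, ?_, ?_, ?_, ?_⟩
    · intro x' hx'
      exact absurd hx' (Nat.not_lt_zero _)
    · exact Nat.zero_le _
    · simp [Ys]
    · intro x' hx'
      exact absurd hx' (Nat.not_lt_zero _)
    · omega
    · have e1 : ∑ k ∈ range (5 ^ 0), lam ^ wc o (4 * ρ + 1) X0 0 (k : ℤ) = 1 := by
        simp [wc]
      rw [e1, pow_zero, one_mul]
      exact one_le_pow₀ (by norm_num)
  | succ x ih =>
    obtain ⟨q, a, i1, i2, i3, i4, i5, i6, i7⟩ := ih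
    have hb0 : (0 : ℝ) ≤ (1 + lam * 5 ^ (4 * ρ + 1)) ^ x := by positivity
    have hbs : (1 + lam * (5 : ℝ) ^ (4 * ρ + 1)) ^ x ≤ (1 + lam * 5 ^ (4 * ρ + 1)) ^ (x + 1) :=
      pow_le_pow_right₀ hbase (Nat.le_succ x)
    by_cases hx : o x = 1
    · -- a mixed pair
      obtain ⟨e, he⟩ : ∃ e, Ys o x + 1 = a + e := ⟨Ys o x + 1 - a, by omega⟩
      have he2 : e ≤ 2 * q + 1 := by omega
      have hvc := F6c_vc_mono o ρ x
      refine ⟨0, a + e, Nat.zero_le _, ?_, ?_, ?_, ?_, ?_, ?_⟩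
      · intro x' hx' h
        omega
      · rw [F6c_Ys_succ, hx]
        omega
      · rw [F6c_Ys_succ, hx]
        omega
      · intro x' hx' hox'
        have h2 := F6c_Ys_mono o (show x' ≤ x by omega)
        omega
      · omega
      · by_cases hX : X0 ≤ x
        · by_cases he3 : e ≤ 4 * ρ + 1
          · have h2 := step_black o (4 * ρ + 1) X0 x a e lam h0 h1 hX hx he he3 i5
            refine h2.trans ?_
            calc (1 + lam * 5 ^ e) * ∑ k ∈ range (5 ^ a), lam ^ wc o (4 * ρ + 1) X0 x (k : ℤ) ≤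
                (1 + lam * 5 ^ (4 * ρ + 1)) * ((1 + lam * 5 ^ (4 * ρ + 1)) ^ x *
                  5 ^ (2 * min (x - q) X0 + 5 * (vc o ρ x - (q + 1 - ρ)))) := by
                  refine mul_le_mul ?_ i7 (sum_nonneg fun _ _ => pow_nonneg h0 _) (by positivity)
                  have := mul_le_mul_of_nonneg_left (h5 he3) h0
                  linarith
              _ = (1 + lam * 5 ^ (4 * ρ + 1)) ^ (x + 1) *
                  5 ^ (2 * min (x - q) X0 + 5 * (vc o ρ x - (q + 1 - ρ))) := by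
                  rw [pow_succ]; ring
              _ ≤ _ := by
                  refine mul_le_mul_of_nonneg_left (h5 ?_) (by positivity)
                  have h3 : min (x - q) X0 ≤ min (x + 1 - 0) X0 := min_le_min_right _ (by omega)
                  omega
          · have h2 := step_trivial o (4 * ρ + 1) X0 x a e lam h0 h1 i5
            refine h2.trans ?_
            calc 5 ^ e * ∑ k ∈ range (5 ^ a), lam ^ wc o (4 * ρ + 1) X0 x (k : ℤ) ≤
                5 ^ e * ((1 + lam * 5 ^ (4 * ρ + 1)) ^ x *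
                  5 ^ (2 * min (x - q) X0 + 5 * (vc o ρ x - (q + 1 - ρ)))) :=
                  mul_le_mul_of_nonneg_left i7 (by positivity)
              _ = (1 + lam * 5 ^ (4 * ρ + 1)) ^ x *
                  5 ^ (e + (2 * min (x - q) X0 + 5 * (vc o ρ x - (q + 1 - ρ)))) := by
                  rw [pow_add 5 e]; ring
              _ ≤ _ := by
                  refine mul_le_mul hbs (h5 ?_) (by positivity) (by positivity)
                  have h3 : min (x - q) X0 ≤ min (x + 1 - 0) X0 := min_le_min_right _ (by omega)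
                  omega
        · have h2 := step_trivial o (4 * ρ + 1) X0 x a e lam h0 h1 i5
          refine h2.trans ?_
          calc 5 ^ e * ∑ k ∈ range (5 ^ a), lam ^ wc o (4 * ρ + 1) X0 x (k : ℤ) ≤
              5 ^ e * ((1 + lam * 5 ^ (4 * ρ + 1)) ^ x *
                5 ^ (2 * min (x - q) X0 + 5 * (vc o ρ x - (q + 1 - ρ)))) :=
                mul_le_mul_of_nonneg_left i7 (by positivity)
            _ = (1 + lam * 5 ^ (4 * ρ + 1)) ^ x *
                5 ^ (e + (2 * min (x - q) X0 + 5 * (vc o ρ x - (q + 1 - ρ)))) := by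
                rw [pow_add 5 e]; ring
            _ ≤ _ := by
                refine mul_le_mul hbs (h5 ?_) (by positivity) (by positivity)
                have h3 : min (x - q) X0 ≤ x - q := min_le_left _ _
                have h4 : min (x + 1 - 0) X0 = x + 1 := min_eq_left (by omega)
                omega
    · -- not mixed
      have hYs := F6c_Ys_succ o x
      have hox := ho x
      have hsum : ∑ k ∈ range (5 ^ a), lam ^ wc o (4 * ρ + 1) X0 (x + 1) (k : ℤ) =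
          ∑ k ∈ range (5 ^ a), lam ^ wc o (4 * ρ + 1) X0 x (k : ℤ) :=
        sum_congr rfl fun k _ => by rw [F6c_wc_succ _ _ _ _ _ hx]
      have hno : ∀ x' < x + 1, x + 1 ≤ x' + (q + 1) → o x' ≠ 1 := by
        intro x' hx' h
        rcases Nat.lt_or_ge x' x with h2 | h2
        · exact i2 x' h2 (by omega)
        · have : x' = x := by omega
          rw [this]
          exact hx
      refine ⟨q + 1, a, by omega, hno, by omega, by omega, ?_, ?_, ?_⟩
      · intro x' hx' hox'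
        rcases Nat.lt_or_ge x' x with h2 | h2
        · exact i5 x' h2 hox'
        · have : x' = x := by omega
          rw [this] at hox'
          exact absurd hox' hx
      · by_cases hq : ρ ≤ q + 1
        · have h2 := F6c_vc_succ o ρ x ⟨by omega, fun i hi => hno _ (by omega) (by omega)⟩
          omega
        · omega
      · rw [hsum]
        refine i7.trans (mul_le_mul hbs (h5 ?_) (by positivity) (by positivity))
        have h3 : x + 1 - (q + 1) = x - q := by omega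
        rw [h3]
        by_cases hq : ρ ≤ q + 1
        · have h2 := F6c_vc_succ o ρ x ⟨by omega, fun i hi => hno _ (by omega) (by omega)⟩
          omega
        · have hvc := F6c_vc_mono o ρ x
          omega

/-- The counting lemma.
PROOF. Claim for all `x ≤ B`: there are `q a : ℕ` (`q` = number of non-mixed pairs directly before `x`, `a` = the value of `Ys` after the
last mixed pair before `x`, or 0) with `q ≤ x`; `o x' ≠ 1` for `x - q ≤ x' < x`; `a ≤ Ys o x ≤ a + 2 q`;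
`Ys o x' + 1 ≤ a` for all `x' < x` with `o x' = 1`; `q + 1 ≤ ρ ∨ q + 1 - ρ ≤ vc o ρ x`, i.e. `q + 1 - ρ ≤ vc o ρ x` (natural subtraction);
and `∑ k ∈ range (5^a), λ^(wc x k) ≤ (1 + λ 5^(4ρ+1))^x * 5^(2 * min (x - q) X0 + 5 * (vc o ρ x - (q + 1 - ρ)))`.
`x = 0`: `q = a = 0`, both sides 1 (`range 1`). Step `x → x+1`, `o x ≠ 1`: take `q + 1`, `a`; `wc (x+1) = wc x`; if `ρ ≤ q + 1` then
`vc (x+1) = vc x + 1` because the `ρ` pairs up to `x` are non-mixed, otherwise `vc (x+1) ≥ vc x` and `q + 2 - ρ` is 0 or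
(`q + 2 = ρ + 1`.. is excluded) - the exponent does not decrease and `(1 + ..)^x` grows. Step `o x = 1`: take `q = 0`, `a' = Ys o x + 1`,
`e = a' - a ≤ 2 q + 1`. If `x < X0`: `step_trivial`, `5^e ≤ 5^(2 (q + 1))` and `min (x+1) X0 = x + 1`, `x - q + (q+1) = x + 1`.
If `X0 ≤ x` and `e ≤ 4ρ+1`: `step_black` with `R' = 4ρ+1`. If `e > 4ρ+1`: `2q+1 ≥ e`, so `q ≥ 2ρ + 1` and
`e ≤ 2 q + 1 ≤ 5 (q + 1 - ρ)`, `step_trivial` and the credit `5 (q + 1 - ρ)`.
End: `x = B`: `5^(Ys B) = 5^(a + e)`, `e ≤ 2q`, and `wc B (k0 + 5^a d) = wc B k0`: factor `5^(2q)`, `2 q ≤ 4ρ + 5 (q + 1 - ρ)`. -/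
theorem block_count (o : ℕ → ℕ) (ho : ∀ x, o x ≤ 2) (ρ X0 B : ℕ) (hρ : 1 ≤ ρ) (lam : ℝ) (h0 : 0 ≤ lam) (h1 : lam ≤ 1) :
    ∑ k ∈ range (5 ^ Ys o B), lam ^ wc o (4 * ρ + 1) X0 B (k : ℤ) ≤
      (1 + lam * 5 ^ (4 * ρ + 1)) ^ B * 5 ^ (2 * X0 + 5 * vc o ρ B + 4 * ρ) := by
  obtain ⟨q, a, i1, i2, i3, i4, i5, i6, i7⟩ := F6c_inv o ho ρ X0 hρ lam h0 h1 B
  obtain ⟨e, he⟩ : ∃ e, Ys o B = a + e := ⟨Ys o B - a, by omega⟩
  have h5 : ∀ {m n : ℕ}, m ≤ n → (5 : ℝ) ^ m ≤ 5 ^ n := fun h =>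
    pow_le_pow_right₀ (by norm_num) h
  have hs : ∑ k ∈ range (5 ^ Ys o B), lam ^ wc o (4 * ρ + 1) X0 B (k : ℤ) =
      5 ^ e * ∑ k ∈ range (5 ^ a), lam ^ wc o (4 * ρ + 1) X0 B (k : ℤ) := by
    rw [he, pow_add, sum_range_mul_split (5 ^ a) (5 ^ e)
      (fun k => lam ^ wc o (4 * ρ + 1) X0 B (k : ℤ))]
    have h2 : ∀ d ∈ range (5 ^ e), ∑ k ∈ range (5 ^ a),
        lam ^ wc o (4 * ρ + 1) X0 B ((k + 5 ^ a * d : ℕ) : ℤ) =
        ∑ k ∈ range (5 ^ a), lam ^ wc o (4 * ρ + 1) X0 B (k : ℤ) := by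
      intro d _
      refine sum_congr rfl fun k _ => ?_
      have h3 : ((k + 5 ^ a * d : ℕ) : ℤ) = (k : ℤ) + 5 ^ a * (d : ℤ) := by push_cast; ring
      rw [h3, wc_add o (4 * ρ + 1) X0 B (k : ℤ) (d : ℤ) a i5]
    rw [sum_congr rfl h2, sum_const, card_range, nsmul_eq_mul]
    push_cast
    ring
  rw [hs]
  calc 5 ^ e * ∑ k ∈ range (5 ^ a), lam ^ wc o (4 * ρ + 1) X0 B (k : ℤ) ≤
      5 ^ e * ((1 + lam * 5 ^ (4 * ρ + 1)) ^ B *
        5 ^ (2 * min (B - q) X0 + 5 * (vc o ρ B - (q + 1 - ρ)))) :=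
        mul_le_mul_of_nonneg_left i7 (by positivity)
    _ = (1 + lam * 5 ^ (4 * ρ + 1)) ^ B *
        5 ^ (e + (2 * min (B - q) X0 + 5 * (vc o ρ B - (q + 1 - ρ)))) := by
        rw [pow_add 5 e]; ring
    _ ≤ _ := by
        refine mul_le_mul_of_nonneg_left (h5 ?_) (by positivity)
        have h3 : min (B - q) X0 ≤ X0 := min_le_right _ _
        omega

end Pool.Agent.MP81cdd9.HZ
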