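import Pool.Agent.Lib.MP_81cdd9_nt.HZ.F5b
import Pool.Agent.Lib.MP_81cdd9_nt.HZ.F5c
import Pool.Agent.Lib.MP_81cdd9_nt.HZ.F6c

/-! One good block. -/

set_option autoImplicit false

namespace Pool.Agent.MP81cdd9.HZ

open Finset

/-- One good block.
PROOF. `λ^wcnt ≤ λ^wc` (`wc_le_wcnt`), group the `η` according to `k = kk η ∈ [0, 5^D)` (`Finset.sum_fiberwise_of_maps_to`,
`kk_mem`), `card_class`, and `block_count` with `R' = 4ρ+1`. -/
theorem block_sum (K J j1 B ρ X0 : ℕ) (z : ℤ) (hz : (2 : ℤ) ^ K ∣ 5 * z - 1) (S : Finset ℕ) (s : ℕ)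
    (hs : J + 2 * s ≤ K) (hJ : 3 ≤ J) (hj1 : j1 ≤ J) (hρ : 1 ≤ ρ) (hD : 2 ^ J ≤ 5 ^ Ys (oo S s) B)
    (hg : goodP K J j1 B S s)
    (hact : ∀ x < B, X0 ≤ x → 4 * 5 ^ (4 * ρ + 1) * 4 ^ x ≤ 5 ^ (Ys (oo S s) x + 1))
    (lam : ℝ) (h0 : 0 ≤ lam) (h1 : lam ≤ 1) :
    ∑ η ∈ etas J, lam ^ wcnt K z S (4 * 5 ^ (4 * ρ + 1)) η s B ≤
      2 ^ j1 * ((1 + lam * 5 ^ (4 * ρ + 1)) ^ B * 5 ^ (2 * X0 + 5 * vc (oo S s) ρ B + 4 * ρ)) := by
  have hs2 : 2 * s ≤ K := by omega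
  have hcount := block_count (oo S s) (oo_le S s) ρ X0 B hρ lam h0 h1
  have hterm : ∀ η ∈ etas J, lam ^ wcnt K z S (4 * 5 ^ (4 * ρ + 1)) η s B ≤
      lam ^ wc (oo S s) (4 * ρ + 1) X0 B (kk K z S s B η) := by
    intro η _
    exact pow_le_pow_of_le_one h0 h1 (wc_le_wcnt K z hz S s B (4 * ρ + 1) X0 hs2 hact η)
  refine (Finset.sum_le_sum hterm).trans ?_
  have hmaps : ∀ η ∈ etas J, (kk K z S s B η).toNat ∈ range (5 ^ Ys (oo S s) B) := by
    intro η _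
    obtain ⟨h1', h2'⟩ := kk_mem K z S s B η
    rw [Finset.mem_range]
    have h3 : ((kk K z S s B η).toNat : ℤ) < ((5 ^ Ys (oo S s) B : ℕ) : ℤ) := by
      rw [Int.toNat_of_nonneg h1']
      push_cast
      exact h2'
    exact_mod_cast h3
  rw [← Finset.sum_fiberwise_of_maps_to hmaps]
  have hfib : ∀ k ∈ range (5 ^ Ys (oo S s) B),
      ∑ η ∈ (etas J).filter (fun η => (kk K z S s B η).toNat = k),
        lam ^ wc (oo S s) (4 * ρ + 1) X0 B (kk K z S s B η) ≤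
      2 ^ j1 * lam ^ wc (oo S s) (4 * ρ + 1) X0 B (k : ℤ) := by
    intro k _
    have heq : ∀ η ∈ (etas J).filter (fun η => (kk K z S s B η).toNat = k),
        lam ^ wc (oo S s) (4 * ρ + 1) X0 B (kk K z S s B η) =
          lam ^ wc (oo S s) (4 * ρ + 1) X0 B (k : ℤ) := by
      intro η hη
      have h2 := (Finset.mem_filter.1 hη).2
      have h3 := Int.toNat_of_nonneg (kk_mem K z S s B η).1
      rw [h2] at h3
      rw [← h3]
    rw [Finset.sum_congr rfl heq, Finset.sum_const, nsmul_eq_mul]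
    refine mul_le_mul_of_nonneg_right ?_ (pow_nonneg h0 _)
    have hsub : (etas J).filter (fun η => (kk K z S s B η).toNat = k) ⊆
        (etas J).filter (fun η => kk K z S s B η = (k : ℤ)) := by
      intro η hη
      rw [Finset.mem_filter] at hη ⊢
      refine ⟨hη.1, ?_⟩
      have h3 := Int.toNat_of_nonneg (kk_mem K z S s B η).1
      rw [hη.2] at h3
      exact h3.symm
    have hc := (Finset.card_le_card hsub).trans
      (card_class K J j1 B z hz S s hs hJ hj1 hD hg (k : ℤ))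
    have hc' : (((etas J).filter (fun η => (kk K z S s B η).toNat = k)).card : ℝ) ≤
        ((2 ^ j1 : ℕ) : ℝ) := by exact_mod_cast hc
    rw [Nat.cast_pow, Nat.cast_ofNat] at hc'
    exact hc'
  refine (Finset.sum_le_sum hfib).trans ?_
  rw [← Finset.mul_sum]
  exact mul_le_mul_of_nonneg_left hcount (by positivity)

end Pool.Agent.MP81cdd9.HZ
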