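import Pool.Agent.Lib.MP_81cdd9_nt.HZ.F6

/-! The counting lemma for one block. `o x ∈ {0,1,2}` is the number of ones of the pair `x`; `Y x` the sum of the first `x` of them. -/

set_option autoImplicit false

namespace Pool.Agent.MP81cdd9.HZ

open Finset

open Classical in
private theorem F6b_succ (o : ℕ → ℕ) (R' X0 x : ℕ) (K : ℤ) :
    wc o R' X0 (x + 1) K = wc o R' X0 x K + if (o x = 1 ∧ X0 ≤ x ∧ ¬ black o R' K x) then 1 else 0 := by
  unfold wc
  rw [Finset.range_add_one, Finset.filter_insert]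
  split_ifs with h
  · rw [Finset.card_insert_of_notMem]
    intro h'
    exact absurd (Finset.mem_range.1 (Finset.mem_filter.1 h').1) (lt_irrefl _)
  · rfl

private theorem F6b_le (o : ℕ → ℕ) (R' X0 x : ℕ) (K : ℤ) :
    wc o R' X0 x K ≤ wc o R' X0 (x + 1) K := by
  rw [F6b_succ]
  exact Nat.le_add_right _ _

/-- The step at a mixed pair, general factor.
PROOF. `sum_range_mul_split` (`5^(a+e) = 5^a * 5^e`); `wc (x+1) ≥ wc x`, `λ ≤ 1`, and `wc_add` gives the value for `k0`. -/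
theorem step_trivial (o : ℕ → ℕ) (R' X0 x a e : ℕ) (lam : ℝ) (h0 : 0 ≤ lam) (h1 : lam ≤ 1)
    (ha : ∀ x' < x, o x' = 1 → Ys o x' + 1 ≤ a) :
    ∑ k ∈ range (5 ^ (a + e)), lam ^ wc o R' X0 (x + 1) (k : ℤ) ≤
      5 ^ e * ∑ k ∈ range (5 ^ a), lam ^ wc o R' X0 x (k : ℤ) := by
  rw [pow_add, sum_range_mul_split]
  have h2 : ∀ d ∈ range (5 ^ e), ∑ k ∈ range (5 ^ a), lam ^ wc o R' X0 (x + 1) ((k + 5 ^ a * d : ℕ) : ℤ) ≤
      ∑ k ∈ range (5 ^ a), lam ^ wc o R' X0 x (k : ℤ) := by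
    intro d _
    refine Finset.sum_le_sum fun k _ => ?_
    have h3 : ((k + 5 ^ a * d : ℕ) : ℤ) = (k : ℤ) + 5 ^ a * (d : ℤ) := by push_cast; ring
    have h4 : wc o R' X0 x (k : ℤ) ≤ wc o R' X0 (x + 1) ((k + 5 ^ a * d : ℕ) : ℤ) := by
      rw [h3, ← wc_add o R' X0 x (k : ℤ) (d : ℤ) a ha]
      exact F6b_le _ _ _ _ _
    exact pow_le_pow_of_le_one h0 h1 h4
  have h3 := Finset.sum_le_sum h2
  rw [Finset.sum_const, card_range, nsmul_eq_mul] at h3
  push_cast at h3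
  exact_mod_cast h3

/-- The step at a mixed pair with a short gap.
PROOF. As `step_trivial`; now for given `k0` the term of `d` is `λ^(wc x k0) * (1 or λ)`, and it is `λ^(wc x k0)` for at most one `d`
(`black_unique`); the sum over `d` is `≤ λ^(wc x k0) (1 + λ 5^e)`. -/
theorem step_black (o : ℕ → ℕ) (R' X0 x a e : ℕ) (lam : ℝ) (h0 : 0 ≤ lam) (h1 : lam ≤ 1)
    (hx : X0 ≤ x) (ho : o x = 1) (hy : Ys o x + 1 = a + e) (he : e ≤ R')
    (ha : ∀ x' < x, o x' = 1 → Ys o x' + 1 ≤ a) :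
    ∑ k ∈ range (5 ^ (a + e)), lam ^ wc o R' X0 (x + 1) (k : ℤ) ≤
      (1 + lam * 5 ^ e) * ∑ k ∈ range (5 ^ a), lam ^ wc o R' X0 x (k : ℤ) := by
  classical
  rw [pow_add, sum_range_mul_split, Finset.sum_comm]
  have h2 : ∀ k ∈ range (5 ^ a), ∑ d ∈ range (5 ^ e), lam ^ wc o R' X0 (x + 1) ((k + 5 ^ a * d : ℕ) : ℤ) ≤
      (1 + lam * 5 ^ e) * lam ^ wc o R' X0 x (k : ℤ) := by
    intro k _
    have h3 : ∀ d ∈ range (5 ^ e), lam ^ wc o R' X0 (x + 1) ((k + 5 ^ a * d : ℕ) : ℤ) ≤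
        lam ^ wc o R' X0 x (k : ℤ) *
          (lam + if black o R' ((k : ℤ) + 5 ^ a * (d : ℤ)) x then 1 else 0) := by
      intro d _
      have h4 : ((k + 5 ^ a * d : ℕ) : ℤ) = (k : ℤ) + 5 ^ a * (d : ℤ) := by push_cast; ring
      rw [h4, F6b_succ, wc_add o R' X0 x (k : ℤ) (d : ℤ) a ha, pow_add]
      refine mul_le_mul_of_nonneg_left ?_ (pow_nonneg h0 _)
      by_cases hb : black o R' ((k : ℤ) + 5 ^ a * (d : ℤ)) x
      · rw [if_pos hb, if_neg (fun h => h.2.2 hb), pow_zero]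
        linarith
      · rw [if_neg hb, if_pos ⟨ho, hx, hb⟩, pow_one, add_zero]
    refine (Finset.sum_le_sum h3).trans ?_
    rw [← Finset.mul_sum, mul_comm]
    refine mul_le_mul_of_nonneg_right ?_ (pow_nonneg h0 _)
    rw [Finset.sum_add_distrib, Finset.sum_const, card_range, nsmul_eq_mul, Finset.sum_boole]
    have h5 : ((range (5 ^ e)).filter
        (fun d : ℕ => black o R' ((k : ℤ) + 5 ^ a * (d : ℤ)) x)).card ≤ 1 := by
      rw [Finset.card_le_one]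
      intro d hd d' hd'
      rw [Finset.mem_filter, mem_range] at hd hd'
      exact black_unique o R' (k : ℤ) x a e hy he d d' hd.1 hd'.1 hd.2 hd'.2
    have h6 : (((range (5 ^ e)).filter
        (fun d : ℕ => black o R' ((k : ℤ) + 5 ^ a * (d : ℤ)) x)).card : ℝ) ≤ 1 := by
      exact_mod_cast h5
    have h7 : ((5 ^ e : ℕ) : ℝ) * lam = lam * 5 ^ e := by push_cast; ring
    rw [h7]
    linarith
  refine (Finset.sum_le_sum h2).trans ?_
  rw [← Finset.mul_sum]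

end Pool.Agent.MP81cdd9.HZ
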