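import Pool.Agent.Lib.MP_81cdd9_nt.HZ.F1

/-! Good blocks exist. -/

set_option autoImplicit false

namespace Pool.Agent.MP81cdd9.HZ

open Finset

private theorem F7_cnt_mono (S : Finset ℕ) {a b : ℕ} (h : a ≤ b) : cnt S a ≤ cnt S b := by
  unfold cnt
  refine card_le_card ?_
  intro x hx
  rw [mem_filter] at hx ⊢
  exact ⟨hx.1, by omega⟩

/-- Ones of an interval of pairs.
PROOF. Let `l = 20 m`, `c0 = ⌈u/l⌉ = (u + l - 1)/l`, `c1 = v / l`. The cells `c0 ≤ c < c1` lie in `[u, v)`, `(c+1) l ≤ v ≤ H`; sum of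
`C1` over them (induction: `cnt S (2 (c0 l)) + 19 m (c1 - c0) ≤ cnt S (2 (c1 l))`), `cnt_mono`, and
`c1 - c0 ≥ (v - u)/l - 1` (natural subtraction; if `c1 < c0` then `(v-u)/l = 0` or the claim is `cnt_mono`). -/
theorem ones_ge (S : Finset ℕ) (m H u v : ℕ) (hm : 1 ≤ m) (hC : C1 S m H) (huv : u ≤ v) (hv : v ≤ H) :
    cnt S (2 * u) + 19 * m * ((v - u) / (20 * m) - 1) ≤ cnt S (2 * v) := by
  have hl : 0 < 20 * m := by omega
  -- sum over cells
  have hsum : ∀ c0 k : ℕ, (c0 + k) * (20 * m) ≤ H →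
      cnt S (2 * (c0 * (20 * m))) + 19 * m * k ≤ cnt S (2 * ((c0 + k) * (20 * m))) := by
    intro c0 k
    induction k with
    | zero => intro _; simp
    | succ k ih =>
      intro hk
      have h1 := ih (le_trans (Nat.mul_le_mul_right _ (by omega)) hk)
      have h2 := hC (c0 + k) (by rw [show c0 + k + 1 = c0 + (k + 1) by omega]; exact hk)
      have h3 : 19 * m * (k + 1) = 19 * m * k + 19 * m := by ring
      rw [show c0 + (k + 1) = c0 + k + 1 by omega]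
      omega
  have hmono : cnt S (2 * u) ≤ cnt S (2 * v) := F7_cnt_mono S (by omega)
  rcases Nat.lt_or_ge ((v - u) / (20 * m)) 2 with h | h
  · rw [show (v - u) / (20 * m) - 1 = 0 by omega, mul_zero, add_zero]
    exact hmono
  · set l := 20 * m with hldef
    set c0 := u / l + 1 with hc0
    set q := (v - u) / l with hq
    have h1 : u < c0 * l := by
      have := Nat.lt_div_mul_add (a := u) hl
      rw [hc0]
      calc u < u / l * l + l := this
        _ = (u / l + 1) * l := by ring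
    have h2 : (u / l) * l ≤ u := Nat.div_mul_le_self u l
    have h3 : q * l ≤ v - u := Nat.div_mul_le_self _ _
    have h4 : (c0 + (q - 1)) * l ≤ v := by
      have e : (c0 + (q - 1)) * l = (u / l) * l + q * l := by
        rw [hc0, show u / l + 1 + (q - 1) = u / l + q by omega, add_mul]
      rw [e]
      omega
    have h5 := hsum c0 (q - 1) (h4.trans hv)
    have h6 : cnt S (2 * u) ≤ cnt S (2 * (c0 * l)) := F7_cnt_mono S (by omega)
    have h7 : cnt S (2 * ((c0 + (q - 1)) * l)) ≤ cnt S (2 * v) := F7_cnt_mono S (by omega)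
    omega

/-- The determinant.
PROOF. `d 5^δ r' - d' r` is divisible by `2^(M-2)`: modulo `2^(M-2)`, `d = 5^A r` and `d' = 5^(A+δ) r'`, so
`d 5^δ r' = 5^(A+δ) r r' = d' r`. Its absolute value is `< 2^(J-j1) * 25 * 2^(M-2-J) + 2^(J-j1) * 2^(M-J)
= 29 * 2^(M-2-j1) < 2^(M-2)` (`2^j1 ≥ 32`). So it is 0. -/
theorem det_step (M J j1 A δ : ℕ) (hj : 5 ≤ j1) (hj2 : j1 ≤ J) (hM : J + 2 ≤ M) (hδ : δ ≤ 2) (d r d' r' : ℤ)
    (hd : 1 ≤ d) (hd2 : d < 2 ^ (J - j1)) (hr : |r| < 2 ^ (M - J)) (h : (2 : ℤ) ^ M ∣ d - 5 ^ A * r)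
    (hd' : 1 ≤ d') (hd2' : d' < 2 ^ (J - j1)) (hr' : |r'| < 2 ^ (M - 2 - J))
    (h' : (2 : ℤ) ^ (M - 2) ∣ d' - 5 ^ (A + δ) * r') : d * (5 ^ δ * r') = d' * r := by
  have key : (2 : ℤ) ^ (M - 2) ∣ d * (5 ^ δ * r') - d' * r := by
    have h1 : (2 : ℤ) ^ (M - 2) ∣ d - 5 ^ A * r := (pow_dvd_pow 2 (by omega)).trans h
    have e : d * (5 ^ δ * r') - d' * r =
        (d - 5 ^ A * r) * (5 ^ δ * r') - (d' - 5 ^ (A + δ) * r') * r := by
      rw [pow_add]; ring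
    rw [e]
    exact dvd_sub (h1.mul_right _) (h'.mul_right _)
  have hpJ : (0 : ℤ) < 2 ^ (J - j1) := by positivity
  have h5 : (5 : ℤ) ^ δ ≤ 25 := by
    calc (5 : ℤ) ^ δ ≤ 5 ^ 2 := pow_le_pow_right₀ (by norm_num) hδ
      _ = 25 := by norm_num
  have h50 : (0 : ℤ) < 5 ^ δ := by positivity
  have hb1 : |d * (5 ^ δ * r')| ≤ 2 ^ (J - j1) * (25 * 2 ^ (M - 2 - J)) := by
    rw [abs_mul, abs_mul, abs_of_pos (show (0 : ℤ) < d by linarith), abs_of_pos h50]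
    exact mul_le_mul hd2.le (mul_le_mul h5 hr'.le (abs_nonneg _) (by norm_num))
      (mul_nonneg h50.le (abs_nonneg _)) hpJ.le
  have hb2 : |d' * r| ≤ 2 ^ (J - j1) * 2 ^ (M - J) := by
    rw [abs_mul, abs_of_pos (show (0 : ℤ) < d' by linarith)]
    exact mul_le_mul hd2'.le hr.le (abs_nonneg _) hpJ.le
  have e1 : (2 : ℤ) ^ (M - J) = 4 * 2 ^ (M - 2 - J) := by
    rw [show M - J = (M - 2 - J) + 2 by omega, pow_add]
    ring
  have e2 : (2 : ℤ) ^ (M - 2) = 2 ^ j1 * (2 ^ (J - j1) * 2 ^ (M - 2 - J)) := by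
    rw [← pow_add, ← pow_add]
    congr 1
    omega
  have h32 : (32 : ℤ) ≤ 2 ^ j1 := by
    calc (32 : ℤ) = 2 ^ 5 := by norm_num
      _ ≤ 2 ^ j1 := pow_le_pow_right₀ (by norm_num) hj
  have hpp : (0 : ℤ) < 2 ^ (J - j1) * 2 ^ (M - 2 - J) := by positivity
  have hlt : |d * (5 ^ δ * r') - d' * r| < 2 ^ (M - 2) := by
    calc |d * (5 ^ δ * r') - d' * r| ≤ |d * (5 ^ δ * r')| + |d' * r| := abs_sub _ _
      _ ≤ 2 ^ (J - j1) * (25 * 2 ^ (M - 2 - J)) + 2 ^ (J - j1) * 2 ^ (M - J) := add_le_add hb1 hb2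
      _ = 29 * (2 ^ (J - j1) * 2 ^ (M - 2 - J)) := by rw [e1]; ring
      _ < 32 * (2 ^ (J - j1) * 2 ^ (M - 2 - J)) := by
          exact mul_lt_mul_of_pos_right (by norm_num) hpp
      _ ≤ 2 ^ (M - 2) := by
          rw [e2]
          exact mul_le_mul_of_nonneg_right h32 hpp.le
  have h0 := Int.eq_zero_of_abs_lt_dvd key hlt
  linarith

end Pool.Agent.MP81cdd9.HZ
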