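import Pool.Agent.Lib.MP_81cdd9_nt.HZ.F7

/-! Good blocks exist. -/

set_option autoImplicit false

namespace Pool.Agent.MP81cdd9.HZ

open Finset

private theorem F7b_cnt_mono (S : Finset ℕ) {a b : ℕ} (h : a ≤ b) : cnt S a ≤ cnt S b := by
  refine Finset.card_le_card fun x hx => ?_
  rw [Finset.mem_filter] at hx ⊢
  exact ⟨hx.1, lt_of_lt_of_le hx.2 h⟩

private theorem F7b_cnt_two (S : Finset ℕ) (a : ℕ) : cnt S (a + 2) ≤ cnt S a + 2 := by
  have h1 : S.filter (fun i => i < a + 2) ⊆ S.filter (fun i => i < a) ∪ {a, a + 1} := by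
    intro x hx
    rw [Finset.mem_filter] at hx
    rw [Finset.mem_union, Finset.mem_filter, Finset.mem_insert, Finset.mem_singleton]
    by_cases h : x < a
    · exact Or.inl ⟨hx.1, h⟩
    · right
      omega
  have h2 := Finset.card_le_card h1
  have h3 := Finset.card_union_le (S.filter (fun i => i < a)) {a, a + 1}
  have h4 : ({a, a + 1} : Finset ℕ).card ≤ 2 := Finset.card_le_two
  unfold cnt
  omega

/-- A run of bad positions.
PROOF. Choose `d s`, `r s` for all `s` in `[s1, s2]` from `¬ goodP` (push the negation). By `det_step` with `M = K - 2s`,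
`A = cnt S (2(s+B))`, `δ = cnt S (2(s+1+B)) - cnt S (2(s+B)) ≤ 2`: `d_s 5^δ r_(s+1) = d_(s+1) r_s`. By induction on `s`:
`d_s r_s1 = 5^(A_s - A_s1) d_s1 r_s` (cancel `d_s ≠ 0`). For `s = s2`: `r_s2 ≠ 0` (otherwise `2^(K-2 s2) ∣ d_s2`, but
`0 < d_s2 < 2^(J-j1) ≤ 2^(K - 2 s2)`), so `5^a ≤ |d_s2 r_s1| < 2^(J-j1) 2^(K - 2 s1 - J) ≤ 2^(K-2 s1)`. -/
theorem bad_run (K J j1 B : ℕ) (S : Finset ℕ) (hj : 5 ≤ j1) (hj2 : j1 ≤ J) (s1 s2 : ℕ) (h12 : s1 ≤ s2)
    (hK : J + 2 + 2 * s2 ≤ K) (hb : ∀ s, s1 ≤ s → s ≤ s2 → ¬ goodP K J j1 B S s) :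
    5 ^ (cnt S (2 * (s2 + B)) - cnt S (2 * (s1 + B))) < 2 ^ (K - 2 * s1) := by
  have hex : ∀ s, ∃ d r : ℤ, s1 ≤ s → s ≤ s2 → 1 ≤ d ∧ d < 2 ^ (J - j1) ∧
      |r| < 2 ^ (K - 2 * s - J) ∧ (2 : ℤ) ^ (K - 2 * s) ∣ d - 5 ^ cnt S (2 * (s + B)) * r := by
    intro s
    by_cases h : s1 ≤ s ∧ s ≤ s2
    · have h1 := hb s h.1 h.2
      unfold goodP at h1
      push Not at h1
      obtain ⟨d, r, h2, h3, h4, h5⟩ := h1
      exact ⟨d, r, fun _ _ => ⟨h2, h3, h4, h5⟩⟩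
    · exact ⟨0, 0, fun ha hb => absurd ⟨ha, hb⟩ h⟩
  choose d r hdr using hex
  have hind : ∀ t, s1 + t ≤ s2 → d (s1 + t) * r s1 =
      5 ^ (cnt S (2 * (s1 + t + B)) - cnt S (2 * (s1 + B))) * d s1 * r (s1 + t) := by
    intro t
    induction t with
    | zero =>
      intro _
      simp
    | succ t ih =>
      intro ht
      have ih' := ih (by omega)
      obtain ⟨h1, h2, h3, h4⟩ := hdr (s1 + t) (by omega) (by omega)
      obtain ⟨h1', h2', h3', h4'⟩ := hdr (s1 + (t + 1)) (by omega) ht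
      have hm : cnt S (2 * (s1 + t + B)) ≤ cnt S (2 * (s1 + (t + 1) + B)) :=
        F7b_cnt_mono S (by omega)
      have hm2 : cnt S (2 * (s1 + (t + 1) + B)) ≤ cnt S (2 * (s1 + t + B)) + 2 := by
        have h5 := F7b_cnt_two S (2 * (s1 + t + B))
        have h6 : 2 * (s1 + (t + 1) + B) = 2 * (s1 + t + B) + 2 := by ring
        rw [h6]
        exact h5
      have hm1 : cnt S (2 * (s1 + B)) ≤ cnt S (2 * (s1 + t + B)) :=
        F7b_cnt_mono S (by omega)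
      obtain ⟨δ, hδ⟩ := Nat.exists_eq_add_of_le hm
      have e1 : K - 2 * (s1 + (t + 1)) - J = K - 2 * (s1 + t) - 2 - J := by omega
      have e2 : K - 2 * (s1 + (t + 1)) = K - 2 * (s1 + t) - 2 := by omega
      rw [e1] at h3'
      rw [e2, hδ] at h4'
      have hdet := det_step (K - 2 * (s1 + t)) J j1 (cnt S (2 * (s1 + t + B))) δ hj hj2
        (by omega) (by omega) (d (s1 + t)) (r (s1 + t)) (d (s1 + (t + 1))) (r (s1 + (t + 1)))
        h1 h2 h3 h4 h1' h2' h3' h4'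
      have hne : d (s1 + t) ≠ 0 := by
        intro h
        rw [h] at h1
        norm_num at h1
      apply mul_left_cancel₀ hne
      have e3 : cnt S (2 * (s1 + (t + 1) + B)) - cnt S (2 * (s1 + B)) =
          (cnt S (2 * (s1 + t + B)) - cnt S (2 * (s1 + B))) + δ := by omega
      rw [e3, pow_add]
      calc d (s1 + t) * (d (s1 + (t + 1)) * r s1)
          = d (s1 + (t + 1)) * (d (s1 + t) * r s1) := by ring
        _ = d (s1 + (t + 1)) * (5 ^ (cnt S (2 * (s1 + t + B)) - cnt S (2 * (s1 + B))) * d s1 *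
              r (s1 + t)) := by rw [ih']
        _ = 5 ^ (cnt S (2 * (s1 + t + B)) - cnt S (2 * (s1 + B))) * d s1 *
              (d (s1 + (t + 1)) * r (s1 + t)) := by ring
        _ = 5 ^ (cnt S (2 * (s1 + t + B)) - cnt S (2 * (s1 + B))) * d s1 *
              (d (s1 + t) * (5 ^ δ * r (s1 + (t + 1)))) := by rw [hdet]
        _ = _ := by ring
  have hfin := hind (s2 - s1) (by omega)
  have e4 : s1 + (s2 - s1) = s2 := by omega
  rw [e4] at hfin
  obtain ⟨h1, h2, h3, h4⟩ := hdr s2 h12 le_rfl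
  obtain ⟨g1, g2, g3, g4⟩ := hdr s1 le_rfl h12
  have hr2 : r s2 ≠ 0 := by
    intro h
    rw [h, mul_zero, sub_zero] at h4
    have h5 := Int.le_of_dvd (by omega) h4
    have h6 : (2 : ℤ) ^ (J - j1) ≤ 2 ^ (K - 2 * s2) :=
      pow_le_pow_right₀ (by norm_num) (by omega)
    omega
  have h5 : (5 : ℤ) ^ (cnt S (2 * (s2 + B)) - cnt S (2 * (s1 + B))) ≤ |d s2 * r s1| := by
    rw [hfin, abs_mul, abs_mul]
    have ha : (1 : ℤ) ≤ |d s1| := by
      rw [abs_of_pos (by omega)]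
      exact g1
    have hb' : (1 : ℤ) ≤ |r s2| := Int.one_le_abs hr2
    have hc : |(5 : ℤ) ^ (cnt S (2 * (s2 + B)) - cnt S (2 * (s1 + B)))| =
        5 ^ (cnt S (2 * (s2 + B)) - cnt S (2 * (s1 + B))) := abs_of_pos (by positivity)
    rw [hc]
    have hp : (0 : ℤ) < 5 ^ (cnt S (2 * (s2 + B)) - cnt S (2 * (s1 + B))) := by positivity
    calc (5 : ℤ) ^ (cnt S (2 * (s2 + B)) - cnt S (2 * (s1 + B)))
        = 5 ^ (cnt S (2 * (s2 + B)) - cnt S (2 * (s1 + B))) * 1 * 1 := by ring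
      _ ≤ _ := by
        refine mul_le_mul (mul_le_mul_of_nonneg_left ha hp.le) hb' (by norm_num) ?_
        positivity
  have h6 : |d s2 * r s1| < 2 ^ (K - 2 * s1) := by
    rw [abs_mul]
    have ha : |d s2| < 2 ^ (J - j1) := by
      rw [abs_of_pos (by omega)]
      exact h2
    calc |d s2| * |r s1| < 2 ^ (J - j1) * 2 ^ (K - 2 * s1 - J) :=
          mul_lt_mul'' ha g3 (abs_nonneg _) (abs_nonneg _)
      _ = 2 ^ (J - j1 + (K - 2 * s1 - J)) := by rw [pow_add]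
      _ ≤ 2 ^ (K - 2 * s1) := pow_le_pow_right₀ (by norm_num) (by omega)
  have h7 : (5 : ℤ) ^ (cnt S (2 * (s2 + B)) - cnt S (2 * (s1 + B))) < 2 ^ (K - 2 * s1) :=
    lt_of_le_of_lt h5 h6
  exact_mod_cast h7

end Pool.Agent.MP81cdd9.HZ
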