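import Pool.Agent.Lib.MP_81cdd9_nt.HZ.F7b

/-! Good blocks exist. -/

set_option autoImplicit false

namespace Pool.Agent.MP81cdd9.HZ

open Finset

/-- A good block after `s1`.
PROOF. Let `M1 = K - 2 s1`, `q = M1/44 + 1`, `s2 = s1 + 20 q + 40 m`. Then (`omega`, with `44 (M1/44) ≤ M1 < 44 (M1/44) + 44`)
`11 (K - 2 (s2 + B)) + 11 (40 + 80 m + 2B) ≥ M1`, so `12 (K - 2(s2+B)) ≥ M1` and `K - 2 (s2 + B) ≥ 2B + 40 m + 2`, so `2 (s2 + B + 20 m) ≤ K - 2B = L`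
and `s2 + B + 20 m ≤ H`, `J + 2 + 2 s2 ≤ K`. If all `s ∈ [s1, s2]` were bad, then by `ones_ge` (`u = s1 + B`, `v = s2 + B`;
`(20 q + 40 m)/(20 m) - 1 ≥ q/m` up to rounding: `20 m ((20 q + 40 m)/(20 m) - 1) ≥ 20 q`) `a ≥ 19 m (..) ≥ 19 q`,
`5^a ≥ 5^(19 q) ≥ 2^(44 q) ≥ 2^M1` (`5^19 ≥ 2^44`): contradiction to `bad_run`. -/
theorem good_block (K L J j1 B m H : ℕ) (S : Finset ℕ) (hK : K = L + J) (hH : H = L / 2) (hJ : J = 2 * B)
    (hj : 5 ≤ j1) (hj2 : j1 ≤ J) (hm : 1 ≤ m) (hC : C1 S m H) (s1 : ℕ)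
    (hs : 132 * (40 + 80 * m + 2 * B) ≤ K - 2 * s1) :
    ∃ s, s1 ≤ s ∧ goodP K J j1 B S s ∧ s + B + 20 * m ≤ H ∧ K - 2 * s1 ≤ 12 * (K - 2 * (s + B)) := by
  obtain ⟨M1, hM1⟩ : ∃ M1, M1 = K - 2 * s1 := ⟨_, rfl⟩
  obtain ⟨q, hq⟩ : ∃ q, q = M1 / 44 + 1 := ⟨_, rfl⟩
  obtain ⟨s2, hs2⟩ : ∃ s2, s2 = s1 + 20 * q + 40 * m := ⟨_, rfl⟩
  have hq1 : M1 < 44 * q := by omega
  have hq2 : 44 * q ≤ M1 + 44 := by omega
  rw [← hM1] at hs
  by_contra hcon
  push Not at hcon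
  have hb : ∀ s, s1 ≤ s → s ≤ s2 → ¬ goodP K J j1 B S s := by
    intro s h1 h2 hg
    have h3 := hcon s h1 hg (by omega)
    omega
  have h1 := bad_run K J j1 B S hj hj2 s1 s2 (by omega) (by omega) hb
  have h2 := ones_ge S m H (s1 + B) (s2 + B) hm hC (by omega) (by omega)
  have h3 : q ≤ m * ((s2 + B - (s1 + B)) / (20 * m) - 1) := by
    have e1 : s2 + B - (s1 + B) = 20 * q + 2 * (20 * m) := by omega
    have e2 : (20 * q + 2 * (20 * m)) / (20 * m) = q / m + 2 := by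
      rw [Nat.add_mul_div_right _ _ (by omega : 0 < 20 * m), Nat.mul_div_mul_left _ _ (by norm_num)]
    rw [e1, e2]
    have e3 : q / m + 2 - 1 = q / m + 1 := rfl
    rw [e3]
    exact (Nat.lt_mul_div_succ q (by omega)).le
  have h4 : 19 * q ≤ cnt S (2 * (s2 + B)) - cnt S (2 * (s1 + B)) := by
    have h5 : 19 * q ≤ 19 * m * ((s2 + B - (s1 + B)) / (20 * m) - 1) := by
      rw [mul_assoc]; exact Nat.mul_le_mul_left _ h3
    omega
  rw [← hM1] at h1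
  have h5 : 2 ^ M1 ≤ 5 ^ (cnt S (2 * (s2 + B)) - cnt S (2 * (s1 + B))) := by
    calc 2 ^ M1 ≤ 2 ^ (44 * q) := Nat.pow_le_pow_right (by norm_num) hq1.le
      _ = (2 ^ 44) ^ q := by rw [pow_mul]
      _ ≤ (5 ^ 19) ^ q := Nat.pow_le_pow_left (by norm_num) q
      _ = 5 ^ (19 * q) := by rw [pow_mul]
      _ ≤ _ := Nat.pow_le_pow_right (by norm_num) h4
  omega

/-- `g` disjoint good blocks.
PROOF. Induction on `g` with the stronger claim: for every `s1` with `12^g * (132 * (40 + 80 m + 2B)) ≤ K - 2 s1` there is `s` with all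
`s t ≥ s1`: `good_block` gives the first block `s'`, the induction hypothesis for `s' + B` the others (define
`s t = if t = 0 then s' else s'' (t-1)`). -/
theorem good_blocks (K L J j1 B m H : ℕ) (S : Finset ℕ) (hK : K = L + J) (hH : H = L / 2) (hJ : J = 2 * B)
    (hj : 5 ≤ j1) (hj2 : j1 ≤ J) (hm : 1 ≤ m) (hC : C1 S m H) (g : ℕ)
    (hs : 12 ^ g * (132 * (40 + 80 * m + 2 * B)) ≤ K) :
    ∃ s : ℕ → ℕ, (∀ t < g, goodP K J j1 B S (s t) ∧ s t + B + 20 * m ≤ H) ∧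
      ∀ t, t + 1 < g → s t + B ≤ s (t + 1) := by
  have key : ∀ g s1 : ℕ, 12 ^ g * (132 * (40 + 80 * m + 2 * B)) ≤ K - 2 * s1 →
      ∃ s : ℕ → ℕ, (∀ t < g, goodP K J j1 B S (s t) ∧ s t + B + 20 * m ≤ H ∧ s1 ≤ s t) ∧
        ∀ t, t + 1 < g → s t + B ≤ s (t + 1) := by
    intro g
    induction g with
    | zero => intro s1 _; exact ⟨fun _ => 0, fun t ht => by omega, fun t ht => by omega⟩
    | succ g ih =>
      intro s1 hs1
      have hone : 1 ≤ 12 ^ g := Nat.one_le_pow _ _ (by norm_num)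
      have hpow : 12 ^ (g + 1) * (132 * (40 + 80 * m + 2 * B)) =
          12 * (12 ^ g * (132 * (40 + 80 * m + 2 * B))) := by ring
      have hge : 132 * (40 + 80 * m + 2 * B) ≤ 12 ^ g * (132 * (40 + 80 * m + 2 * B)) :=
        Nat.le_mul_of_pos_left _ hone
      obtain ⟨s', h1, h2, h3, h4⟩ := good_block K L J j1 B m H S hK hH hJ hj hj2 hm hC s1 (by omega)
      obtain ⟨s'', h5, h6⟩ := ih (s' + B) (by omega)
      refine ⟨fun t => if t = 0 then s' else s'' (t - 1), ?_, ?_⟩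
      · intro t ht
        by_cases h0 : t = 0
        · simp only [h0, if_true]
          exact ⟨h2, h3, h1⟩
        · simp only [h0, if_false]
          obtain ⟨a1, a2, a3⟩ := h5 (t - 1) (by omega)
          exact ⟨a1, a2, by omega⟩
      · intro t ht
        have ht1 : t + 1 ≠ 0 := by omega
        by_cases h0 : t = 0
        · simp only [h0, if_true, zero_add, one_ne_zero, if_false, Nat.sub_self]
          exact (h5 0 (by omega)).2.2
        · simp only [h0, if_false, ht1, Nat.add_sub_cancel]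
          have := h6 (t - 1) (by omega)
          rwa [Nat.sub_add_cancel (by omega : 1 ≤ t)] at this
  obtain ⟨s, h1, h2⟩ := key g 0 (by simpa using hs)
  exact ⟨s, fun t ht => ⟨(h1 t ht).1, (h1 t ht).2.1⟩, h2⟩

end Pool.Agent.MP81cdd9.HZ
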