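import Pool.Agent.Lib.MP_81cdd9_nt.HZ.F1

/-! Typical sets. -/

set_option autoImplicit false

namespace Pool.Agent.MP81cdd9.HZ

open Finset

private theorem F8_sum (L : ℕ) (A : Finset ℕ) (hA : A ⊆ range L) (z : ℝ) :
    ∑ S ∈ (range L).powerset, z ^ (S ∩ A).card = (1 + z) ^ A.card * 2 ^ (L - A.card) := by
  classical
  have h1 : ∏ i ∈ range L, (1 + (if i ∈ A then z else 1)) =
      ∑ S ∈ (range L).powerset, ∏ i ∈ S, (if i ∈ A then z else 1) := by
    rw [prod_one_add]
  have h2 : ∀ S : Finset ℕ, ∏ i ∈ S, (if i ∈ A then z else (1 : ℝ)) = z ^ (S ∩ A).card := by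
    intro S
    rw [prod_ite, prod_const, prod_const_one, mul_one]
    congr 2
  rw [← sum_congr rfl fun S _ => h2 S, ← h1]
  have h3 : ∏ i ∈ range L, (1 + (if i ∈ A then z else (1 : ℝ))) =
      ∏ i ∈ range L, (if i ∈ A then (1 + z) else (2 : ℝ)) := by
    apply prod_congr rfl
    intro i _
    split_ifs
    · rfl
    · norm_num
  rw [h3, prod_ite, prod_const, prod_const]
  have h4 : (range L).filter (fun i => i ∈ A) = A := by
    ext i
    rw [mem_filter]
    exact ⟨fun h => h.2, fun h => ⟨hA h, h⟩⟩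
  have h5 : ((range L).filter (fun i => i ∉ A)).card = L - A.card := by
    have h6 : (range L).filter (fun i => i ∉ A) = range L \ A := by
      ext i
      rw [mem_filter, mem_sdiff]
    rw [h6, card_sdiff_of_subset hA, card_range]
  rw [h4, h5]

/-- Few elements in `A`.
PROOF. `∑_{S ⊆ range L} z^|S ∩ A| = (1+z)^|A| 2^(L-|A|)` (`Finset.prod_one_add` or `Finset.prod_add` with
`f i = if i ∈ A then z else 1`), and `z^|S ∩ A| ≥ z^b` if `|S ∩ A| ≤ b`. -/
theorem few_ones (L : ℕ) (A : Finset ℕ) (hA : A ⊆ range L) (b : ℕ) (z : ℝ) (hz : 0 < z) (hz1 : z ≤ 1) :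
    (((range L).powerset.filter (fun S => (S ∩ A).card ≤ b)).card : ℝ) * z ^ b ≤
      (1 + z) ^ A.card * 2 ^ (L - A.card) := by
  rw [← F8_sum L A hA z, ← nsmul_eq_mul, ← sum_const]
  calc ∑ S ∈ (range L).powerset.filter (fun S => (S ∩ A).card ≤ b), z ^ b
      ≤ ∑ S ∈ (range L).powerset.filter (fun S => (S ∩ A).card ≤ b), z ^ (S ∩ A).card := by
        apply sum_le_sum
        intro S hS
        exact pow_le_pow_of_le_one hz.le hz1 (mem_filter.1 hS).2
    _ ≤ ∑ S ∈ (range L).powerset, z ^ (S ∩ A).card := by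
        apply sum_le_sum_of_subset_of_nonneg (filter_subset _ _)
        intro S _ _
        positivity

/-- PROOF. `cnt S b = cnt S a + #{i ∈ S | a ≤ i < b}`. -/
theorem cnt_add_inter (S : Finset ℕ) (a b : ℕ) (h : a ≤ b) : cnt S b = cnt S a + (S ∩ Ico a b).card := by
  unfold cnt
  rw [← card_union_of_disjoint]
  · congr 1
    ext i
    rw [mem_union, mem_filter, mem_filter, mem_inter, mem_Ico]
    constructor
    · rintro ⟨h1, h2⟩
      rcases lt_or_ge i a with h3 | h3
      · exact Or.inl ⟨h1, h3⟩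
      · exact Or.inr ⟨h1, h3, h2⟩
    · rintro (⟨h1, h2⟩ | ⟨h1, h2, h3⟩)
      · exact ⟨h1, h2.trans_le h⟩
      · exact ⟨h1, h3⟩
  · rw [disjoint_left]
    intro i h1 h2
    have h3 := (mem_filter.1 h1).2
    have h4 := (mem_Ico.1 (mem_inter.1 h2).2).1
    omega

/-- the rate for (C1) -/
noncomputable def q1 : ℝ := (19 / 10) ^ 40 / (4 ^ 20 * (9 / 10) ^ 19)

/-- PROOF. `norm_num`. (`(361/400)^20 < (9/10)^19`) -/
theorem q1_lt : 0 < q1 ∧ q1 < 1 := by
  unfold q1
  constructor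
  · positivity
  · rw [div_lt_one (by positivity)]
    norm_num

end Pool.Agent.MP81cdd9.HZ
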