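import Pool.Agent.Lib.MP_81cdd9_nt.HZ.F8

/-! Typical sets. -/

set_option autoImplicit false

namespace Pool.Agent.MP81cdd9.HZ

open Finset

private theorem F8b_iff {S : Finset ℕ} {j : ℕ} (h : ¬ mix S j) : 2 * j ∈ S ↔ 2 * j + 1 ∈ S := by
  unfold mix at h
  have h1 := cnt_succ S (2 * j)
  have h2 := cnt_succ S (2 * j + 1)
  have h3 : 2 * j + 1 + 1 = 2 * j + 2 := rfl
  rw [h3] at h2
  by_cases ha : 2 * j ∈ S <;> by_cases hb : 2 * j + 1 ∈ S
  · exact ⟨fun _ => hb, fun _ => ha⟩
  · rw [if_pos ha] at h1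
    rw [if_neg hb] at h2
    exact absurd (by omega) h
  · rw [if_neg ha] at h1
    rw [if_pos hb] at h2
    exact absurd (by omega) h
  · exact ⟨fun h4 => absurd h4 ha, fun h4 => absurd h4 hb⟩

/-- Sets with prescribed non-mixed pairs.
PROOF. If the pair `j` is non-mixed then `2j ∈ S ↔ 2j+1 ∈ S` (`cnt_succ` twice). So `S` is determined by
`S \ {2j+1 : j ∈ Y}`, a subset of `range L \ {2j+1 : j ∈ Y}`, which has `L - |Y|` elements. -/
theorem nonmix_count (L : ℕ) (Y : Finset ℕ) (hY : ∀ j ∈ Y, 2 * j + 1 < L) :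
    ((range L).powerset.filter (fun S => ∀ j ∈ Y, ¬ mix S j)).card * 2 ^ Y.card ≤ 2 ^ L := by
  classical
  set O : Finset ℕ := Y.image fun j => 2 * j + 1 with hO
  have hOc : O.card = Y.card := by
    rw [hO, card_image_of_injective]
    intro i j hij
    have : 2 * i + 1 = 2 * j + 1 := hij
    omega
  have hOL : O ⊆ range L := by
    intro i hi
    rw [hO, mem_image] at hi
    obtain ⟨j, hj, rfl⟩ := hi
    exact mem_range.mpr (hY j hj)
  have h1 : ((range L).powerset.filter (fun S => ∀ j ∈ Y, ¬ mix S j)).card ≤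
      ((range L) \ O).powerset.card := by
    refine card_le_card_of_injOn (fun S => S \ O) ?_ ?_
    · intro S hS
      rw [mem_coe, mem_filter, mem_powerset] at hS
      rw [mem_coe, mem_powerset]
      exact sdiff_subset_sdiff hS.1 (Subset.refl _)
    · intro S hS S' hS' hSS
      rw [mem_coe, mem_filter] at hS hS'
      have hSS' : S \ O = S' \ O := hSS
      have key : ∀ i, i ∉ O → (i ∈ S ↔ i ∈ S') := by
        intro i hi
        have h2 : i ∈ S \ O ↔ i ∈ S' \ O := by rw [hSS']
        rw [mem_sdiff, mem_sdiff] at h2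
        constructor
        · intro h3
          exact (h2.mp ⟨h3, hi⟩).1
        · intro h3
          exact (h2.mpr ⟨h3, hi⟩).1
      ext i
      by_cases hi : i ∈ O
      · rw [hO, mem_image] at hi
        obtain ⟨j, hj, rfl⟩ := hi
        rw [← F8b_iff (hS.2 j hj), ← F8b_iff (hS'.2 j hj)]
        apply key
        intro h3
        rw [hO, mem_image] at h3
        obtain ⟨j', _, h4⟩ := h3
        omega
      · exact key i hi
  rw [card_powerset, card_sdiff_of_subset hOL, card_range, hOc] at h1
  have h2 : Y.card ≤ L := by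
    rw [← hOc, ← card_range L]
    exact card_le_card hOL
  calc ((range L).powerset.filter (fun S => ∀ j ∈ Y, ¬ mix S j)).card * 2 ^ Y.card
      ≤ 2 ^ (L - Y.card) * 2 ^ Y.card := Nat.mul_le_mul_right _ h1
    _ = 2 ^ L := by rw [← pow_add, Nat.sub_add_cancel h2]

open Classical in
/-- Sets with prescribed void windows.
PROOF. If some `x ∈ U` has `x + 1 < ρ` the left side is 0. Otherwise let `Y = ⋃_{x ∈ U} {x - i : i < ρ}`; the windows are disjoint because
the elements of `U` are congruent modulo `ρ`, so `|Y| = ρ |U|`; `2 j + 1 < 2 H ≤ L` for `j ∈ Y`; `nonmix_count`. -/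
theorem void_count (L H ρ r : ℕ) (hρ : 1 ≤ ρ) (hH : 2 * H ≤ L) (U : Finset ℕ) (hU : ∀ x ∈ U, x < H ∧ x % ρ = r) :
    ((range L).powerset.filter (fun S => ∀ x ∈ U, voidAt S ρ x)).card * 2 ^ (ρ * U.card) ≤ 2 ^ L := by
  by_cases hx : ∀ x ∈ U, ρ ≤ x + 1
  · set Y : Finset ℕ := U.biUnion fun x => (range ρ).image fun i => x - i with hYdef
    have hc1 : ∀ x ∈ U, ((range ρ).image fun i => x - i).card = ρ := by
      intro x hxU
      rw [card_image_of_injOn, card_range]
      intro i hi j hj hij
      rw [coe_range, Set.mem_Iio] at hi hj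
      have h1 : x - i = x - j := hij
      have h2 := hx x hxU
      omega
    have hdis : ∀ x ∈ U, ∀ y ∈ U, x ≠ y →
        Disjoint ((range ρ).image fun i => x - i) ((range ρ).image fun i => y - i) := by
      intro x hxU y hyU hxy
      rw [disjoint_left]
      intro v hv hv'
      rw [mem_image] at hv hv'
      obtain ⟨i, hi, rfl⟩ := hv
      obtain ⟨j, hj, hij⟩ := hv'
      rw [mem_range] at hi hj
      have h1 := hx x hxU
      have h2 := hx y hyU
      have h3 := (hU x hxU).2
      have h4 := (hU y hyU).2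
      apply hxy
      have hmod : x % ρ = y % ρ := by rw [h3, h4]
      rcases Nat.le_total x y with h5 | h5
      · have h6 : ρ ∣ y - x := (Nat.modEq_iff_dvd' h5).mp hmod
        have h7 : y - x < ρ := by omega
        have h8 := Nat.eq_zero_of_dvd_of_lt h6 h7
        omega
      · have h6 : ρ ∣ x - y := (Nat.modEq_iff_dvd' h5).mp hmod.symm
        have h7 : x - y < ρ := by omega
        have h8 := Nat.eq_zero_of_dvd_of_lt h6 h7
        omega
    have hYc : Y.card = ρ * U.card := by
      rw [hYdef, card_biUnion hdis, sum_congr rfl hc1, sum_const, smul_eq_mul, mul_comm]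
    have hYL : ∀ j ∈ Y, 2 * j + 1 < L := by
      intro j hj
      rw [hYdef, mem_biUnion] at hj
      obtain ⟨x, hxU, hj⟩ := hj
      rw [mem_image] at hj
      obtain ⟨i, _, rfl⟩ := hj
      have := (hU x hxU).1
      omega
    have h1 := nonmix_count L Y hYL
    rw [hYc] at h1
    refine le_trans (Nat.mul_le_mul_right _ (card_le_card ?_)) h1
    intro S hS
    rw [mem_filter] at hS ⊢
    refine ⟨hS.1, fun j hj => ?_⟩
    rw [hYdef, mem_biUnion] at hj
    obtain ⟨x, hxU, hj⟩ := hj
    rw [mem_image] at hj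
    obtain ⟨i, hi, rfl⟩ := hj
    exact (hS.2 x hxU).2 i (mem_range.mp hi)
  · push Not at hx
    obtain ⟨x, hxU, hx⟩ := hx
    have h1 : ((range L).powerset.filter (fun S => ∀ x ∈ U, voidAt S ρ x)) = ∅ := by
      rw [filter_eq_empty_iff]
      intro S _ h
      have := (h x hxU).1
      omega
    rw [h1, card_empty, zero_mul]
    exact Nat.zero_le _

end Pool.Agent.MP81cdd9.HZ
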