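import Pool.Agent.Lib.MP_81cdd9_nt.HZ.F8

/-! Typical sets. -/

set_option autoImplicit false

namespace Pool.Agent.MP81cdd9.HZ

open Finset

open Classical in
/-- Sets without (C1).
PROOF. If `C1` fails there is `c < H` with `(c+1) 20 m ≤ H` and `|S ∩ Ico (2 c 20 m) (2 (c+1) 20 m)| < 19 m` (`cnt_add_inter`). For each
`c`: `few_ones` with `|A| = 40 m`, `b = 19 m`, `z = 9/10`: the number is `≤ (19/10)^(40m) 2^(L-40m) / (9/10)^(19m) = q1^m 2^L`. Union over
`c < H`. -/
theorem card_notC1 (L H m : ℕ) (hm : 1 ≤ m) (hH : 2 * H ≤ L) :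
    (((range L).powerset.filter (fun S => ¬ C1 S m H)).card : ℝ) ≤ H * (q1 ^ m * 2 ^ L) := by
  set I : Finset ℕ := (range H).filter fun c => (c + 1) * (20 * m) ≤ H with hI
  set A : ℕ → Finset ℕ := fun c => Ico (2 * (c * (20 * m))) (2 * ((c + 1) * (20 * m))) with hA
  have hAc : ∀ c, (A c).card = 40 * m := by
    intro c
    rw [hA]
    show (Ico (2 * (c * (20 * m))) (2 * ((c + 1) * (20 * m)))).card = 40 * m
    rw [Nat.card_Ico]
    have : (c + 1) * (20 * m) = c * (20 * m) + 20 * m := by ring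
    omega
  have hAL : ∀ c ∈ I, A c ⊆ range L := by
    intro c hc i hi
    rw [hI, mem_filter] at hc
    have hi' : i ∈ Ico (2 * (c * (20 * m))) (2 * ((c + 1) * (20 * m))) := hi
    rw [mem_Ico] at hi'
    rw [mem_range]
    omega
  have hsub : (range L).powerset.filter (fun S => ¬ C1 S m H) ⊆
      I.biUnion fun c => (range L).powerset.filter fun S => (S ∩ A c).card ≤ 19 * m := by
    intro S hS
    rw [mem_filter] at hS
    obtain ⟨hS1, hS2⟩ := hS
    unfold C1 at hS2
    push Not at hS2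
    obtain ⟨c, hc, hlt⟩ := hS2
    rw [mem_biUnion]
    refine ⟨c, ?_, ?_⟩
    · rw [hI, mem_filter, mem_range]
      refine ⟨?_, hc⟩
      have h1 : (c + 1) * 1 ≤ (c + 1) * (20 * m) := Nat.mul_le_mul_left _ (by omega)
      omega
    · rw [mem_filter]
      refine ⟨hS1, ?_⟩
      have h1 := cnt_add_inter S (2 * (c * (20 * m))) (2 * ((c + 1) * (20 * m)))
        (Nat.mul_le_mul_left _ (Nat.mul_le_mul_right _ (Nat.le_succ c)))
      show (S ∩ Ico (2 * (c * (20 * m))) (2 * ((c + 1) * (20 * m)))).card ≤ 19 * m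
      omega
  have hq := q1_lt
  have hbound : ∀ c ∈ I, (((range L).powerset.filter fun S => (S ∩ A c).card ≤ 19 * m).card : ℝ) ≤
      q1 ^ m * 2 ^ L := by
    intro c hc
    have h1 := few_ones L (A c) (hAL c hc) (19 * m) (9 / 10) (by norm_num) (by norm_num)
    rw [hAc c] at h1
    have h40 : 40 * m ≤ L := by
      have h2 := card_le_card (hAL c hc)
      rw [hAc c, card_range] at h2
      exact h2
    have h2 : (0 : ℝ) < (9 / 10) ^ (19 * m) := by positivity
    rw [← le_div_iff₀ h2] at h1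
    refine h1.trans (le_of_eq ?_)
    have h3 : (2 : ℝ) ^ (L - 40 * m) = 2 ^ L / 2 ^ (40 * m) := by
      rw [eq_div_iff (by positivity), ← pow_add, Nat.sub_add_cancel h40]
    have h4 : (1 + (9 : ℝ) / 10) = 19 / 10 := by norm_num
    have h5 : (4 : ℝ) ^ 20 = 2 ^ 40 := by norm_num
    have h6 : q1 = (19 / 10 : ℝ) ^ 40 / (2 ^ 40 * (9 / 10) ^ 19) := by
      rw [q1, h5]
    have h7 : q1 ^ m = ((19 / 10 : ℝ) ^ 40) ^ m / (((2 : ℝ) ^ 40) ^ m * ((9 / 10 : ℝ) ^ 19) ^ m) := by
      rw [h6, div_pow, mul_pow]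
    rw [h3, h4, h7, pow_mul, pow_mul, pow_mul]
    have e1 : (0 : ℝ) < ((2 : ℝ) ^ 40) ^ m := by positivity
    have e2 : (0 : ℝ) < ((9 / 10 : ℝ) ^ 19) ^ m := by positivity
    generalize ((19 / 10 : ℝ) ^ 40) ^ m = a
    generalize ((2 : ℝ) ^ 40) ^ m = b at e1 ⊢
    generalize ((9 / 10 : ℝ) ^ 19) ^ m = c' at e2 ⊢
    generalize (2 : ℝ) ^ L = d
    field_simp
  have h1 : (((range L).powerset.filter (fun S => ¬ C1 S m H)).card : ℝ) ≤
      ∑ c ∈ I, (((range L).powerset.filter fun S => (S ∩ A c).card ≤ 19 * m).card : ℝ) := by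
    have h2 := (card_le_card hsub).trans card_biUnion_le
    exact_mod_cast h2
  refine h1.trans ((sum_le_sum hbound).trans ?_)
  rw [sum_const, nsmul_eq_mul]
  have hIc : (I.card : ℝ) ≤ H := by
    have h2 : I.card ≤ H := by
      rw [hI]
      refine (card_filter_le _ _).trans ?_
      rw [card_range]
    exact_mod_cast h2
  have hpos : (0 : ℝ) ≤ q1 ^ m * 2 ^ L := by
    have := hq.1
    positivity
  exact mul_le_mul_of_nonneg_right hIc hpos

end Pool.Agent.MP81cdd9.HZ
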