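import Pool.Agent.Lib.MP_81cdd9_nt.HZ.F8b

/-! Typical sets. -/

set_option autoImplicit false

namespace Pool.Agent.MP81cdd9.HZ

open Finset

open Classical in
/-- Sets without (C2), `l = ρ a`.
PROOF. If `C2` fails there are `c < H` with `(c+1) l ≤ H`, `r < ρ` and a set `U ⊆ X := {x ∈ Ico (c l) ((c+1) l) : x % ρ = r}`, `|U| = Kc`, with
`voidAt S ρ x` for all `x ∈ U` (`Finset.exists_subset_card_eq`). `|X| = a` (or `≤ a`), so there are at most `2^a` sets `U`, for each
`void_count`. Union over `c < H`, `r < ρ`, `U`. -/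
theorem card_notC2 (L H ρ a Kc : ℕ) (hρ : 1 ≤ ρ) (ha : 1 ≤ a) (hH : 2 * H ≤ L) :
    (((range L).powerset.filter (fun S => ¬ C2 S ρ (ρ * a) Kc H)).card : ℝ) * 2 ^ (ρ * Kc) ≤
      H * ρ * 2 ^ a * 2 ^ L := by
  set I : Finset ℕ := (range H).filter fun c => (c + 1) * (ρ * a) ≤ H with hI
  set X : ℕ → ℕ → Finset ℕ := fun c r =>
    (Ico (c * (ρ * a)) ((c + 1) * (ρ * a))).filter fun x => x % ρ = r with hX
  set W : Finset ℕ → Finset (Finset ℕ) := fun U =>
    (range L).powerset.filter fun S => ∀ x ∈ U, voidAt S ρ x with hW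
  have hXc : ∀ c r, (X c r).card ≤ a := by
    intro c r
    have h1 : (X c r).card ≤ (Ico (a * c) (a * (c + 1))).card := by
      refine card_le_card_of_injOn (fun x => x / ρ) ?_ ?_
      · intro x hx
        have hx' : x ∈ (Ico (c * (ρ * a)) ((c + 1) * (ρ * a))).filter fun x => x % ρ = r := hx
        rw [mem_filter, mem_Ico] at hx'
        obtain ⟨⟨h2, h3⟩, _⟩ := hx'
        rw [mem_coe, mem_Ico]
        constructor
        · show a * c ≤ x / ρ
          rw [Nat.le_div_iff_mul_le hρ]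
          calc a * c * ρ = c * (ρ * a) := by ring
            _ ≤ x := h2
        · show x / ρ < a * (c + 1)
          rw [Nat.div_lt_iff_lt_mul hρ]
          calc x < (c + 1) * (ρ * a) := h3
            _ = a * (c + 1) * ρ := by ring
      · intro x hx y hy hxy
        have hx' : x ∈ (Ico (c * (ρ * a)) ((c + 1) * (ρ * a))).filter fun x => x % ρ = r := hx
        have hy' : y ∈ (Ico (c * (ρ * a)) ((c + 1) * (ρ * a))).filter fun x => x % ρ = r := hy
        rw [mem_filter] at hx' hy'
        have h2 : x / ρ = y / ρ := hxy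
        rw [← Nat.div_add_mod x ρ, ← Nat.div_add_mod y ρ, h2, hx'.2, hy'.2]
    rw [Nat.card_Ico] at h1
    have h2 : a * (c + 1) = a * c + a := by ring
    omega
  have hsub : (range L).powerset.filter (fun S => ¬ C2 S ρ (ρ * a) Kc H) ⊆
      I.biUnion fun c => (range ρ).biUnion fun r =>
        ((X c r).powerset.filter fun U => U.card = Kc).biUnion W := by
    intro S hS
    rw [mem_filter] at hS
    obtain ⟨hS1, hS2⟩ := hS
    unfold C2 at hS2
    push Not at hS2
    obtain ⟨c, hc, r, hr, hle⟩ := hS2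
    obtain ⟨U, hU, hUc⟩ := exists_subset_card_eq hle
    rw [mem_biUnion]
    refine ⟨c, ?_, ?_⟩
    · rw [hI, mem_filter, mem_range]
      refine ⟨?_, hc⟩
      have h1 : (c + 1) * 1 ≤ (c + 1) * (ρ * a) :=
        Nat.mul_le_mul_left _ (Nat.mul_pos hρ ha)
      omega
    · rw [mem_biUnion]
      refine ⟨r, mem_range.mpr hr, ?_⟩
      rw [mem_biUnion]
      refine ⟨U, ?_, ?_⟩
      · rw [mem_filter, mem_powerset]
        refine ⟨fun x hx => ?_, hUc⟩
        have h1 := hU hx
        rw [mem_filter] at h1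
        show x ∈ (Ico (c * (ρ * a)) ((c + 1) * (ρ * a))).filter fun x => x % ρ = r
        rw [mem_filter]
        exact ⟨h1.1, h1.2.1⟩
      · show S ∈ (range L).powerset.filter fun S => ∀ x ∈ U, voidAt S ρ x
        rw [mem_filter]
        refine ⟨hS1, fun x hx => ?_⟩
        have h1 := hU hx
        rw [mem_filter] at h1
        exact h1.2.2
  have hbound : ∀ c ∈ I, ∀ r ∈ range ρ, ∀ U ∈ (X c r).powerset.filter (fun U => U.card = Kc),
      ((W U).card : ℝ) * 2 ^ (ρ * Kc) ≤ 2 ^ L := by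
    intro c hc r _ U hU
    rw [hI, mem_filter] at hc
    rw [mem_filter, mem_powerset] at hU
    have h1 := void_count L H ρ r hρ hH U (fun x hx => by
      have h2 : x ∈ (Ico (c * (ρ * a)) ((c + 1) * (ρ * a))).filter fun x => x % ρ = r := hU.1 hx
      rw [mem_filter, mem_Ico] at h2
      exact ⟨h2.1.2.trans_le hc.2, h2.2⟩)
    rw [hU.2] at h1
    exact_mod_cast h1
  have hsum : (((range L).powerset.filter (fun S => ¬ C2 S ρ (ρ * a) Kc H)).card : ℝ) ≤
      ∑ c ∈ I, ∑ r ∈ range ρ, ∑ U ∈ (X c r).powerset.filter (fun U => U.card = Kc),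
        ((W U).card : ℝ) := by
    have h2 : ((range L).powerset.filter (fun S => ¬ C2 S ρ (ρ * a) Kc H)).card ≤
        ∑ c ∈ I, ∑ r ∈ range ρ, ∑ U ∈ (X c r).powerset.filter (fun U => U.card = Kc),
          (W U).card := by
      refine (card_le_card hsub).trans (card_biUnion_le.trans (sum_le_sum fun c _ => ?_))
      refine card_biUnion_le.trans (sum_le_sum fun r _ => ?_)
      exact card_biUnion_le
    exact_mod_cast h2
  have hpow : (0 : ℝ) ≤ 2 ^ (ρ * Kc) := by positivity
  have hnum : ∀ c r, (((X c r).powerset.filter (fun U => U.card = Kc)).card : ℝ) ≤ 2 ^ a := by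
    intro c r
    have h1 : ((X c r).powerset.filter (fun U => U.card = Kc)).card ≤ 2 ^ a := by
      refine (card_filter_le _ _).trans ?_
      rw [card_powerset]
      exact Nat.pow_le_pow_right two_pos (hXc c r)
    exact_mod_cast h1
  have hIc : (I.card : ℝ) ≤ H := by
    have h2 : I.card ≤ H := by
      rw [hI]
      refine (card_filter_le _ _).trans ?_
      rw [card_range]
    exact_mod_cast h2
  calc (((range L).powerset.filter (fun S => ¬ C2 S ρ (ρ * a) Kc H)).card : ℝ) * 2 ^ (ρ * Kc)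
      ≤ (∑ c ∈ I, ∑ r ∈ range ρ, ∑ U ∈ (X c r).powerset.filter (fun U => U.card = Kc),
        ((W U).card : ℝ)) * 2 ^ (ρ * Kc) := mul_le_mul_of_nonneg_right hsum hpow
    _ = ∑ c ∈ I, ∑ r ∈ range ρ, ∑ U ∈ (X c r).powerset.filter (fun U => U.card = Kc),
        ((W U).card : ℝ) * 2 ^ (ρ * Kc) := by
        simp only [sum_mul]
    _ ≤ ∑ c ∈ I, ∑ r ∈ range ρ, (2 : ℝ) ^ a * 2 ^ L := by
        refine sum_le_sum fun c hc => sum_le_sum fun r hr => ?_
        refine (sum_le_sum fun U hU => hbound c hc r hr U hU).trans ?_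
        rw [sum_const, nsmul_eq_mul]
        exact mul_le_mul_of_nonneg_right (hnum c r) (by positivity)
    _ = I.card * (ρ * (2 ^ a * 2 ^ L)) := by
        rw [sum_const, sum_const, card_range, nsmul_eq_mul, nsmul_eq_mul]
    _ ≤ H * (ρ * (2 ^ a * 2 ^ L)) := mul_le_mul_of_nonneg_right hIc (by positivity)
    _ = H * ρ * 2 ^ a * 2 ^ L := by ring

end Pool.Agent.MP81cdd9.HZ
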