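import Pool.Agent.Lib.MP_81cdd9_nt.HZ.F8c
import Pool.Agent.Lib.MP_81cdd9_nt.HZ.F8d

/-! Typical sets. -/

set_option autoImplicit false

namespace Pool.Agent.MP81cdd9.HZ

open Finset

private theorem f8e_limit (ρ D : ℕ) (δ : ℝ) (hδ : 0 < δ) :
    ∃ b0 : ℕ, 1 ≤ b0 ∧ ∀ b ≥ b0, (D : ℝ) * (b * q1 ^ b) + (D : ℝ) * ρ * (b * (1 / 2 : ℝ) ^ b) ≤ δ := by
  have h1 := tendsto_self_mul_const_pow_of_lt_one (le_of_lt q1_lt.1) q1_lt.2
  have h2 := tendsto_self_mul_const_pow_of_lt_one (r := (1 / 2 : ℝ)) (by norm_num) (by norm_num)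
  have h3 : Filter.Tendsto (fun b : ℕ => (D : ℝ) * (b * q1 ^ b) + (D : ℝ) * ρ * (b * (1 / 2 : ℝ) ^ b))
      Filter.atTop (nhds ((D : ℝ) * 0 + (D : ℝ) * ρ * 0)) :=
    (h1.const_mul _).add (h2.const_mul _)
  have h4 : (D : ℝ) * 0 + (D : ℝ) * ρ * 0 < δ := by simpa using hδ
  have h5 := (h3.eventually (gt_mem_nhds h4)).and (Filter.eventually_ge_atTop 1)
  obtain ⟨b0, hb0⟩ := Filter.eventually_atTop.1 h5
  exact ⟨b0, (hb0 b0 le_rfl).2, fun b hb => le_of_lt (hb0 b hb).1⟩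

/-- Typical sets are almost all sets.
PROOF. `m = ρ^2 b`, `l = 20 m = ρ a` with `a = 20 ρ b`, `Kc = 40 b`: `ρ Kc = 2 a`. By `card_notC1`, `card_notC2` the number of exceptions
divided by `2^L` is at most `H q1^(ρ^2 b) + H ρ 2^(-20 ρ b)` and `H ≤ L ≤ D b`: it tends to 0 as `b → ∞`
(`tendsto_self_mul_const_pow_of_lt_one`). -/
theorem typical (ρ D : ℕ) (hρ : 1 ≤ ρ) (δ : ℝ) (hδ : 0 < δ) :
    ∃ b0 : ℕ, 1 ≤ b0 ∧ ∀ b ≥ b0, ∀ L ≤ D * b, ∀ H, 2 * H ≤ L → ∃ Typ : Finset (Finset ℕ), Typ ⊆ (range L).powerset ∧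
      (∀ S ∈ Typ, C1 S (ρ ^ 2 * b) H ∧ C2 S ρ (20 * (ρ ^ 2 * b)) (40 * b) H) ∧
      (∀ S ∈ (range L).powerset, C1 S (ρ ^ 2 * b) H → C2 S ρ (20 * (ρ ^ 2 * b)) (40 * b) H → S ∈ Typ) ∧
      (((range L).powerset \ Typ).card : ℝ) ≤ δ * 2 ^ L := by
  classical
  obtain ⟨b0, hb01, hb0⟩ := f8e_limit ρ D δ hδ
  refine ⟨b0, hb01, fun b hb L hL H hH => ?_⟩
  have hb1 : 1 ≤ b := le_trans hb01 hb
  refine ⟨(range L).powerset.filter (fun S => C1 S (ρ ^ 2 * b) H ∧ C2 S ρ (20 * (ρ ^ 2 * b)) (40 * b) H),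
    filter_subset _ _, fun S hS => (mem_filter.1 hS).2, fun S hS h1 h2 => mem_filter.2 ⟨hS, h1, h2⟩, ?_⟩
  have hm : 1 ≤ ρ ^ 2 * b := Nat.mul_pos (Nat.pow_pos hρ) hb1
  have ha : 1 ≤ 20 * ρ * b := Nat.mul_pos (Nat.mul_pos (by norm_num) hρ) hb1
  have k1 := card_notC1 L H (ρ ^ 2 * b) hm hH
  have k2 := card_notC2 L H ρ (20 * ρ * b) (40 * b) hρ ha hH
  have e1 : ρ * (20 * ρ * b) = 20 * (ρ ^ 2 * b) := by ring
  rw [e1] at k2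
  have e2 : ρ * (40 * b) = 20 * ρ * b + 20 * ρ * b := by ring
  rw [e2, pow_add] at k2
  have hp : (0 : ℝ) < 2 ^ (20 * ρ * b) := by positivity
  set N1 : ℝ := (((range L).powerset.filter (fun S => ¬ C1 S (ρ ^ 2 * b) H)).card : ℝ) with hN1
  set N2 : ℝ := (((range L).powerset.filter (fun S => ¬ C2 S ρ (20 * (ρ ^ 2 * b)) (40 * b) H)).card : ℝ) with hN2
  have k3 : N2 * 2 ^ (20 * ρ * b) ≤ H * ρ * 2 ^ L := by
    have h : (N2 * 2 ^ (20 * ρ * b)) * 2 ^ (20 * ρ * b) ≤ (H * ρ * 2 ^ L) * 2 ^ (20 * ρ * b) := by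
      calc (N2 * 2 ^ (20 * ρ * b)) * 2 ^ (20 * ρ * b) = N2 * (2 ^ (20 * ρ * b) * 2 ^ (20 * ρ * b)) := by ring
        _ ≤ H * ρ * 2 ^ (20 * ρ * b) * 2 ^ L := k2
        _ = (H * ρ * 2 ^ L) * 2 ^ (20 * ρ * b) := by ring
    exact le_of_mul_le_mul_right h hp
  have k4 : N2 ≤ H * ρ * 2 ^ L * (1 / 2 : ℝ) ^ b := by
    have h1 : N2 ≤ H * ρ * 2 ^ L / 2 ^ (20 * ρ * b) := by
      rw [le_div_iff₀ hp]; exact k3
    have h2 : (2 : ℝ) ^ b ≤ 2 ^ (20 * ρ * b) := by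
      refine pow_le_pow_right₀ (by norm_num) ?_
      calc b = 1 * b := (one_mul b).symm
        _ ≤ 20 * ρ * b := Nat.mul_le_mul_right b (by omega)
    calc N2 ≤ H * ρ * 2 ^ L / 2 ^ (20 * ρ * b) := h1
      _ ≤ H * ρ * 2 ^ L / 2 ^ b := by
          apply div_le_div_of_nonneg_left (by positivity) (by positivity) h2
      _ = H * ρ * 2 ^ L * (1 / 2 : ℝ) ^ b := by
          rw [one_div, inv_pow]; rfl
  have hHD : (H : ℝ) ≤ D * b := by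
    have : H ≤ D * b := by omega
    exact_mod_cast this
  have k5 : N1 ≤ (D * b) * (q1 ^ b * 2 ^ L) := by
    have h1 : q1 ^ (ρ ^ 2 * b) ≤ q1 ^ b := by
      refine pow_le_pow_of_le_one (le_of_lt q1_lt.1) (le_of_lt q1_lt.2) ?_
      calc b = 1 * b := (one_mul b).symm
        _ ≤ ρ ^ 2 * b := Nat.mul_le_mul_right b (Nat.pow_pos hρ)
    have hq : (0 : ℝ) ≤ q1 ^ b := pow_nonneg (le_of_lt q1_lt.1) b
    calc N1 ≤ H * (q1 ^ (ρ ^ 2 * b) * 2 ^ L) := k1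
      _ ≤ H * (q1 ^ b * 2 ^ L) := by
          apply mul_le_mul_of_nonneg_left _ (by positivity)
          exact mul_le_mul_of_nonneg_right h1 (by positivity)
      _ ≤ (D * b) * (q1 ^ b * 2 ^ L) := by
          apply mul_le_mul_of_nonneg_right hHD (by positivity)
  have k6 : N2 ≤ (D * b) * ρ * 2 ^ L * (1 / 2 : ℝ) ^ b := by
    calc N2 ≤ H * ρ * 2 ^ L * (1 / 2 : ℝ) ^ b := k4
      _ = H * (ρ * 2 ^ L * (1 / 2 : ℝ) ^ b) := by ring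
      _ ≤ (D * b) * (ρ * 2 ^ L * (1 / 2 : ℝ) ^ b) := by
          apply mul_le_mul_of_nonneg_right hHD (by positivity)
      _ = (D * b) * ρ * 2 ^ L * (1 / 2 : ℝ) ^ b := by ring
  have hsub : (range L).powerset \ (range L).powerset.filter
      (fun S => C1 S (ρ ^ 2 * b) H ∧ C2 S ρ (20 * (ρ ^ 2 * b)) (40 * b) H) ⊆
      (range L).powerset.filter (fun S => ¬ C1 S (ρ ^ 2 * b) H) ∪
      (range L).powerset.filter (fun S => ¬ C2 S ρ (20 * (ρ ^ 2 * b)) (40 * b) H) := by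
    intro S hS
    rw [mem_sdiff, mem_filter, not_and] at hS
    rw [mem_union, mem_filter, mem_filter]
    by_cases hc : C1 S (ρ ^ 2 * b) H
    · exact Or.inr ⟨hS.1, fun h => hS.2 hS.1 ⟨hc, h⟩⟩
    · exact Or.inl ⟨hS.1, hc⟩
  have hcard := le_trans (card_le_card hsub) (card_union_le _ _)
  have hcard' : (((range L).powerset \ (range L).powerset.filter
      (fun S => C1 S (ρ ^ 2 * b) H ∧ C2 S ρ (20 * (ρ ^ 2 * b)) (40 * b) H)).card : ℝ) ≤ N1 + N2 := by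
    rw [hN1, hN2]
    exact_mod_cast hcard
  have hlim := hb0 b hb
  have hL2 : (0 : ℝ) < 2 ^ L := by positivity
  calc _ ≤ N1 + N2 := hcard'
    _ ≤ (D * b) * (q1 ^ b * 2 ^ L) + (D * b) * ρ * 2 ^ L * (1 / 2 : ℝ) ^ b := add_le_add k5 k6
    _ = ((D : ℝ) * (b * q1 ^ b) + (D : ℝ) * ρ * (b * (1 / 2 : ℝ) ^ b)) * 2 ^ L := by ring
    _ ≤ δ * 2 ^ L := mul_le_mul_of_nonneg_right hlim hL2.le

end Pool.Agent.MP81cdd9.HZ
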