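import Pool.Agent.Lib.MP_81cdd9_nt.HZ.F5
import Pool.Agent.Lib.MP_81cdd9_nt.HZ.F7

/-! A block of a typical set. -/

set_option autoImplicit false

namespace Pool.Agent.MP81cdd9.HZ

open Finset

/-- PROOF. `norm_num`: `5^19 ≥ 2^44`; then the power `n`. -/
theorem five_two (n : ℕ) : 2 ^ (44 * n) ≤ 5 ^ (19 * n) := by
  rw [pow_mul, pow_mul]
  exact Nat.pow_le_pow_left (by norm_num) n

/-- PROOF. `Ys_oo` and `ones_ge` (`u = s`, `v = s + x`). -/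
theorem Ys_ge (S : Finset ℕ) (m H s x : ℕ) (hm : 1 ≤ m) (hC : C1 S m H) (hs : s + x ≤ H) :
    19 * m * (x / (20 * m) - 1) ≤ Ys (oo S s) x := by
  have h := ones_ge S m H s (s + x) hm hC (Nat.le_add_right s x) hs
  rw [Nat.add_sub_cancel_left] at h
  rw [Ys_oo]
  omega

/-- PROOF. `Ys_ge` with `x = N0 * (20 m)`: `5^Y ≥ 5^(19 m (N0 - 1)) ≥ 2^(44 m (N0-1)) ≥ 2^(40 m N0)` because `4 N0 ≥ 44`. -/
theorem block_D (S : Finset ℕ) (m H N0 s : ℕ) (hm : 1 ≤ m) (hC : C1 S m H) (hN : 11 ≤ N0)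
    (hs : s + N0 * (20 * m) ≤ H) : 2 ^ (2 * (N0 * (20 * m))) ≤ 5 ^ Ys (oo S s) (N0 * (20 * m)) := by
  have h := Ys_ge S m H s (N0 * (20 * m)) hm hC hs
  rw [Nat.mul_div_cancel _ (by omega : 0 < 20 * m)] at h
  obtain ⟨k, rfl⟩ : ∃ k, N0 = k + 1 := ⟨N0 - 1, by omega⟩
  rw [Nat.add_sub_cancel] at h
  have h2 : 2 * ((k + 1) * (20 * m)) ≤ 44 * (m * k) := by
    have h3 : 10 * m ≤ k * m := Nat.mul_le_mul_right m (by omega)
    nlinarith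
  calc 2 ^ (2 * ((k + 1) * (20 * m))) ≤ 2 ^ (44 * (m * k)) := Nat.pow_le_pow_right (by norm_num) h2
    _ ≤ 5 ^ (19 * (m * k)) := five_two _
    _ ≤ 5 ^ Ys (oo S s) ((k + 1) * (20 * m)) := Nat.pow_le_pow_right (by norm_num) (by
        rw [← mul_assoc]
        exact h)

/-- PROOF. Let `n = x / (20 m) ≥ 23`. `Ys_ge`: `5^(Y+1) ≥ 5^(19 m (n-1)) ≥ 2^(44 m (n-1))`. On the other side
`4 * 5^(4ρ+1) * 4^x ≤ 2^(2 + 3 (4ρ+1) + 2x)` (`5 ≤ 2^3`) and `2 x ≤ 40 m (n+1)`. `44 m (n-1) - 40 m (n+1) = 4 m n - 84 m ≥ 8 m ≥ 12 ρ + 5`. -/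
theorem block_act (S : Finset ℕ) (m H B ρ s : ℕ) (hm : 12 * ρ + 5 ≤ 8 * m) (hC : C1 S m H) (hs : s + B ≤ H) :
    ∀ x < B, 23 * (20 * m) ≤ x → 4 * 5 ^ (4 * ρ + 1) * 4 ^ x ≤ 5 ^ (Ys (oo S s) x + 1) := by
  intro x hx hx2
  have hm1 : 1 ≤ m := by omega
  have h := Ys_ge S m H s x hm1 hC (by omega)
  have hn : 23 ≤ x / (20 * m) := by
    rw [Nat.le_div_iff_mul_le (by omega)]
    exact hx2
  have hlt : x < (x / (20 * m) + 1) * (20 * m) := by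
    have h1 := Nat.div_add_mod x (20 * m)
    have h2 := Nat.mod_lt x (by omega : 0 < 20 * m)
    calc x = 20 * m * (x / (20 * m)) + x % (20 * m) := h1.symm
      _ < 20 * m * (x / (20 * m)) + 20 * m := by omega
      _ = (x / (20 * m) + 1) * (20 * m) := by ring
  obtain ⟨k, hk⟩ : ∃ k, x / (20 * m) = k + 1 := ⟨x / (20 * m) - 1, by omega⟩
  rw [hk] at h hn hlt
  rw [Nat.add_sub_cancel] at h
  have h3 : 22 * m ≤ k * m := Nat.mul_le_mul_right m (by omega)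
  have h4 : 2 + 3 * (4 * ρ + 1) + 2 * x ≤ 44 * (m * k) := by
    nlinarith
  calc 4 * 5 ^ (4 * ρ + 1) * 4 ^ x ≤ 2 ^ 2 * (2 ^ 3) ^ (4 * ρ + 1) * (2 ^ 2) ^ x := by
        gcongr <;> norm_num
    _ = 2 ^ (2 + 3 * (4 * ρ + 1) + 2 * x) := by
        rw [← pow_mul, ← pow_mul, ← pow_add, ← pow_add]
    _ ≤ 2 ^ (44 * (m * k)) := Nat.pow_le_pow_right (by norm_num) h4
    _ ≤ 5 ^ (19 * (m * k)) := five_two _
    _ ≤ 5 ^ (Ys (oo S s) x + 1) := Nat.pow_le_pow_right (by norm_num) (by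
        rw [← mul_assoc]
        omega)

end Pool.Agent.MP81cdd9.HZ
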