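import Pool.Agent.Lib.MP_81cdd9_nt.HZ.P0

/-! The core theorem. -/

set_option autoImplicit false

namespace Pool.Agent.MP81cdd9.HZ

open Finset

/-- The numerical inequality.
PROOF. `l = 20 m`. `(1 + 1/N0)^(N0 l) ≤ 3^l` (`(1+1/N)^N ≤ e ≤ 3`, `Real.add_one_le_exp`), `5^47 * 3 ≤ 2^111`. The left side is
`≤ 2^(J - 240 l) (2 / 2^(J-3)) g 2^(120 l) 3^l 5^(47 l) 5^(4ρ) ≤ 16 g 5^(4ρ) 2^(-240 l + 120 l + 111 l)`. -/
theorem numeric (q ρ m g V : ℕ) (hq : 1 ≤ q) (hm : 1 ≤ m) (lam : ℝ) (h0 : 0 ≤ lam)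
    (hlam : lam * 5 ^ (4 * ρ + 1) ≤ 1 / (N0 q : ℝ)) (hV : 5 * V ≤ 20 * m) (w : ℝ) (hw0 : 0 ≤ w)
    (hw : w ≤ 2 ^ (2 * (N0 q * (20 * m)) - 240 * (20 * m))) :
    w * (2 / 2 ^ (2 * (N0 q * (20 * m)) - 3)) *
      (g * (2 ^ (120 * (20 * m)) * ((1 + lam * 5 ^ (4 * ρ + 1)) ^ (N0 q * (20 * m)) *
        5 ^ (2 * (23 * (20 * m)) + 5 * V + 4 * ρ)))) ≤ 16 * g * 5 ^ (4 * ρ) / 2 ^ (9 * (20 * m)) := by
  have hN1 : 120 ≤ N0 q := by unfold N0; omega
  generalize hlg : 20 * m = l at *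
  generalize hNg : N0 q = N at *
  have hNpos : (0 : ℝ) < N := by
    have : 0 < N := by omega
    exact_mod_cast this
  have hx0 : 0 ≤ lam * 5 ^ (4 * ρ + 1) := by positivity
  have hA : (1 + lam * 5 ^ (4 * ρ + 1)) ^ (N * l) ≤ 3 ^ l := by
    rw [pow_mul]
    apply pow_le_pow_left₀ (by positivity)
    calc (1 + lam * 5 ^ (4 * ρ + 1)) ^ N ≤ (1 + 1 / (N : ℝ)) ^ N :=
          pow_le_pow_left₀ (by positivity) (by linarith) _
      _ ≤ (Real.exp (1 / (N : ℝ))) ^ N :=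
          pow_le_pow_left₀ (by positivity) (by have := Real.add_one_le_exp (1 / (N : ℝ)); linarith) _
      _ = Real.exp 1 := by
          rw [← Real.exp_nat_mul]
          congr 1
          field_simp
      _ ≤ 3 := by
          have := Real.exp_one_lt_d9
          linarith
  have hB : (5 : ℝ) ^ (2 * (23 * l) + 5 * V + 4 * ρ) ≤ 5 ^ (47 * l) * 5 ^ (4 * ρ) := by
    rw [← pow_add]
    exact pow_le_pow_right₀ (by norm_num) (by omega)
  have hC : (3 : ℝ) ^ l * 5 ^ (47 * l) ≤ 2 ^ (111 * l) := by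
    rw [pow_mul, pow_mul, ← mul_pow]
    exact pow_le_pow_left₀ (by positivity) (by norm_num) _
  have hle : 120 * l ≤ N * l := Nat.mul_le_mul_right _ hN1
  obtain ⟨J', hJ'⟩ : ∃ J', 2 * (N * l) = 240 * l + J' := ⟨2 * (N * l) - 240 * l, by omega⟩
  have hl1 : 20 ≤ l := by omega
  have hw' : w ≤ 2 ^ J' := by
    have : 2 * (N * l) - 240 * l = J' := by omega
    rwa [this] at hw
  have hdiv : (2 : ℝ) / 2 ^ (2 * (N * l) - 3) = 16 / (2 ^ (240 * l) * 2 ^ J') := by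
    obtain ⟨J2, hJ2⟩ : ∃ J2, 240 * l + J' = J2 + 3 := ⟨240 * l + J' - 3, by omega⟩
    have h3 : 2 * (N * l) - 3 = J2 := by omega
    rw [h3, ← pow_add, hJ2, pow_add]
    have : (2 : ℝ) ^ J2 ≠ 0 := by positivity
    field_simp
    norm_num
  rw [hdiv]
  have hg0 : (0 : ℝ) ≤ g := Nat.cast_nonneg g
  have hAB : (1 + lam * 5 ^ (4 * ρ + 1)) ^ (N * l) * 5 ^ (2 * (23 * l) + 5 * V + 4 * ρ) ≤
      2 ^ (111 * l) * 5 ^ (4 * ρ) := by
    calc (1 + lam * 5 ^ (4 * ρ + 1)) ^ (N * l) * 5 ^ (2 * (23 * l) + 5 * V + 4 * ρ)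
        ≤ 3 ^ l * (5 ^ (47 * l) * 5 ^ (4 * ρ)) := mul_le_mul hA hB (by positivity) (by positivity)
      _ = (3 ^ l * 5 ^ (47 * l)) * 5 ^ (4 * ρ) := by ring
      _ ≤ 2 ^ (111 * l) * 5 ^ (4 * ρ) := mul_le_mul_of_nonneg_right hC (by positivity)
  calc w * (16 / (2 ^ (240 * l) * 2 ^ J')) *
      (g * (2 ^ (120 * l) * ((1 + lam * 5 ^ (4 * ρ + 1)) ^ (N * l) *
        5 ^ (2 * (23 * l) + 5 * V + 4 * ρ))))
      ≤ 2 ^ J' * (16 / (2 ^ (240 * l) * 2 ^ J')) *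
      (g * (2 ^ (120 * l) * (2 ^ (111 * l) * 5 ^ (4 * ρ)))) := by
        apply mul_le_mul
        · exact mul_le_mul_of_nonneg_right hw' (by positivity)
        · apply mul_le_mul_of_nonneg_left _ hg0
          exact mul_le_mul_of_nonneg_left hAB (by positivity)
        · positivity
        · positivity
    _ = 16 * g * 5 ^ (4 * ρ) / 2 ^ (9 * l) := by
        have e1 : (2 : ℝ) ^ (240 * l) = 2 ^ (120 * l) * 2 ^ (111 * l) * 2 ^ (9 * l) := by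
          rw [← pow_add, ← pow_add]
          congr 1
          ring
        rw [e1]
        have h1 : (2 : ℝ) ^ (120 * l) ≠ 0 := by positivity
        have h2 : (2 : ℝ) ^ (111 * l) ≠ 0 := by positivity
        have h3 : (2 : ℝ) ^ (9 * l) ≠ 0 := by positivity
        have h4 : (2 : ℝ) ^ J' ≠ 0 := by positivity
        field_simp

end Pool.Agent.MP81cdd9.HZ
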