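import Pool.Agent.Lib.MP_81cdd9_nt.HZ.F5

/-! A block of a typical set. -/

set_option autoImplicit false

namespace Pool.Agent.MP81cdd9.HZ

open Finset

/-- PROOF. If `x` is counted by `vc` then `voidAt S ρ (s + x)` (`mix_iff`, `s + x - i = s + (x - i)`). `s + x` lies in the cell
`c = (s + x)/l`, `s/l ≤ c ≤ s/l + N0`, `(c+1) l ≤ s + B + l ≤ H`. So the set is contained in the union over the `N0 + 1` cells and the
`ρ` residue classes of the sets of (C2) (`Finset.card_biUnion_le`, shift by `s` is injective). -/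
theorem block_vc (S : Finset ℕ) (ρ m H Kc N0 s : ℕ) (hρ : 1 ≤ ρ) (hm : 1 ≤ m) (hC : C2 S ρ (20 * m) Kc H)
    (hs : s + N0 * (20 * m) + 20 * m ≤ H) :
    vc (oo S s) ρ (N0 * (20 * m)) ≤ (N0 + 1) * (ρ * Kc) := by
  classical
  have hl0 : 0 < 20 * m := by omega
  generalize hlg : 20 * m = l at *
  unfold vc
  have hcard : ∀ p ∈ (range (N0 + 1)) ×ˢ (range ρ),
      ((Ico ((s / l + p.1) * l) ((s / l + p.1 + 1) * l)).filter
        (fun x => x % ρ = p.2 ∧ voidAt S ρ x)).card ≤ Kc := by
    intro p hp
    rw [Finset.mem_product, mem_range, mem_range] at hp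
    have hH : (s / l + p.1 + 1) * l ≤ H := by
      have h1 : s / l * l ≤ s := Nat.div_mul_le_self s l
      have h2 : p.1 * l ≤ N0 * l := Nat.mul_le_mul_right _ (by omega)
      have h3 : (s / l + p.1 + 1) * l = s / l * l + p.1 * l + l := by ring
      omega
    have h4 := hC (s / l + p.1) hH p.2 hp.2
    refine le_trans (Finset.card_le_card ?_) h4.le
    intro x hx
    simp only [mem_filter] at hx ⊢
    exact hx
  have hsub : ((range (N0 * l)).filter (fun x => ρ ≤ x + 1 ∧ ∀ i < ρ, oo S s (x - i) ≠ 1)).image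
      (fun x => s + x) ⊆
      ((range (N0 + 1)) ×ˢ (range ρ)).biUnion (fun p =>
        (Ico ((s / l + p.1) * l) ((s / l + p.1 + 1) * l)).filter
        (fun x => x % ρ = p.2 ∧ voidAt S ρ x)) := by
    intro y hy
    rw [Finset.mem_image] at hy
    obtain ⟨x, hx, rfl⟩ := hy
    rw [mem_filter, mem_range] at hx
    obtain ⟨hxB, hx1, hx2⟩ := hx
    have hdiv1 : s / l ≤ (s + x) / l := Nat.div_le_div_right (by omega)
    have hdiv2 : (s + x) / l ≤ s / l + N0 := by
      have : (s + N0 * l) / l = s / l + N0 := Nat.add_mul_div_right s N0 hl0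
      rw [← this]
      exact Nat.div_le_div_right (by omega)
    rw [Finset.mem_biUnion]
    refine ⟨((s + x) / l - s / l, (s + x) % ρ), ?_, ?_⟩
    · rw [Finset.mem_product, mem_range, mem_range]
      exact ⟨by dsimp only; omega, Nat.mod_lt _ (by omega)⟩
    · rw [mem_filter, Finset.mem_Ico]
      have e1 : s / l + ((s + x) / l - s / l) = (s + x) / l := by omega
      dsimp only
      rw [e1]
      refine ⟨⟨Nat.div_mul_le_self _ _, ?_⟩, rfl, ?_, ?_⟩
      · have h6 := Nat.div_add_mod (s + x) l
        have h7 := Nat.mod_lt (s + x) hl0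
        have h8 : ((s + x) / l + 1) * l = l * ((s + x) / l) + l := by ring
        omega
      · omega
      · intro i hi hm
        have e2 : s + x - i = s + (x - i) := by omega
        rw [e2, mix_iff] at hm
        exact hx2 i hi hm
  have h5 : ((range (N0 * l)).filter (fun x => ρ ≤ x + 1 ∧ ∀ i < ρ, oo S s (x - i) ≠ 1)).card ≤
      (N0 + 1) * (ρ * Kc) := by
    rw [← Finset.card_image_of_injective _ (add_right_injective s)]
    refine le_trans (Finset.card_le_card hsub) ?_
    refine le_trans Finset.card_biUnion_le ?_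
    refine le_trans (Finset.sum_le_card_nsmul _ _ Kc hcard) ?_
    rw [Finset.card_product, card_range, card_range, smul_eq_mul, mul_assoc]
  refine le_trans (Finset.card_le_card ?_) h5
  intro x hx
  simp only [mem_filter] at hx ⊢
  exact hx

end Pool.Agent.MP81cdd9.HZ
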