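import Pool.Agent.Lib.MP_81cdd9_nt.HZ.F2b
import Pool.Agent.Lib.MP_81cdd9_nt.HZ.F3c
import Pool.Agent.Lib.MP_81cdd9_nt.HZ.F4b
import Pool.Agent.Lib.MP_81cdd9_nt.HZ.F5d
import Pool.Agent.Lib.MP_81cdd9_nt.HZ.F7c
import Pool.Agent.Lib.MP_81cdd9_nt.HZ.F9a
import Pool.Agent.Lib.MP_81cdd9_nt.HZ.F9v
import Pool.Agent.Lib.MP_81cdd9_nt.HZ.F9n

/-! The core theorem. -/

set_option autoImplicit false

namespace Pool.Agent.MP81cdd9.HZ

open Finset

/-- Typical sets: almost no swapped set is bad.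
PROOF. `NN_sw` and `collision`; `blocks_sum` with the blocks of `good_blocks` (`B = N0 (20 m)`, `J = 2B`, `j1 = 120 (20 m)`);
`block_sum` for each block with `X0 = 23 (20 m)`, `block_D`, `block_act`, `block_vc`
(`V ≤ (N0+1) ρ (40 b)`, `5 V ≤ 20 m` because `ρ = 10 (N0+2)`, `m = ρ^2 b`); `numeric`. -/
theorem typ_bad (q b g L H : ℕ) (hq : 1 ≤ q) (hb : 1 ≤ b) (z : ℤ)
    (hz : (2 : ℤ) ^ (L + q * N3 q * b) ∣ 5 * z - 1) (hH : H = L / 2) (hg1 : 1 ≤ g)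
    (hg : (1 - 4 / (4 * 5 ^ (4 * rh q + 1)) ^ 2 : ℝ) ^ g * 5 ^ (4 * rh q + 1) ≤ 1 / (N0 q : ℝ))
    (hL : 12 ^ g * (132 * (40 + 80 * (rh q ^ 2 * b) + q * N3 q * b)) ≤ L + q * N3 q * b)
    (S : Finset ℕ) (h1 : C1 S (rh q ^ 2 * b) H) (h2 : C2 S (rh q) (20 * (rh q ^ 2 * b)) (40 * b) H)
    (W : Finset ℤ) (hW : W.card ≤ 2 ^ ((q - 1) * N3 q * b)) :
    (((range H).powerset.filter
      (fun U => (NN z (sw U S) % 2 ^ (L + q * N3 q * b)) / 2 ^ L ∈ W)).card : ℝ) ^ 2 ≤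
      4 ^ H * (16 * g * 5 ^ (4 * rh q) / 2 ^ (9 * (20 * (rh q ^ 2 * b)))) := by
  classical
  have hN1 : 120 ≤ N0 q := by unfold N0; omega
  have hρdef : rh q = 10 * (N0 q + 2) := rfl
  have hρ1 : 1220 ≤ rh q := by rw [hρdef]; omega
  have hJeq : q * N3 q * b = 2 * (N0 q * (20 * (rh q ^ 2 * b))) := by
    unfold N3 N0
    ring
  have hWexp : (q - 1) * N3 q * b = 2 * (N0 q * (20 * (rh q ^ 2 * b))) - 240 * (20 * (rh q ^ 2 * b)) := by
    rw [← hJeq]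
    obtain ⟨q', rfl⟩ : ∃ q', q = q' + 1 := ⟨q - 1, by omega⟩
    have h3 : (q' + 1) * N3 (q' + 1) * b = q' * N3 (q' + 1) * b + N3 (q' + 1) * b := by ring
    have h4 : N3 (q' + 1) * b = 240 * (20 * (rh (q' + 1) ^ 2 * b)) := by
      unfold N3
      ring
    rw [h3, h4]
    simp
  rw [hWexp] at hW
  have hmb : 1 ≤ rh q ^ 2 * b := by
    have : 1 ≤ rh q ^ 2 := Nat.one_le_pow _ _ (by omega)
    exact Nat.one_le_iff_ne_zero.2 (by positivity)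
  rw [hJeq] at hz hL ⊢
  -- the number of void pairs
  have hV5 : 5 * ((N0 q + 1) * (rh q * (40 * b))) ≤ 20 * (rh q ^ 2 * b) := by
    have h1 : 5 * ((N0 q + 1) * (rh q * (40 * b))) = 20 * (rh q * b) * (10 * (N0 q + 1)) := by ring
    have h2 : 20 * (rh q ^ 2 * b) = 20 * (rh q * b) * rh q := by ring
    rw [h1, h2]
    exact Nat.mul_le_mul_left _ (by rw [hρdef]; omega)
  have hρm : 12 * rh q + 5 ≤ 8 * (rh q ^ 2 * b) := by
    have h1 : rh q ^ 2 ≤ rh q ^ 2 * b := Nat.le_mul_of_pos_right _ (by omega)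
    have h2 : 1220 * rh q ≤ rh q ^ 2 := by
      rw [pow_two]
      exact Nat.mul_le_mul_right _ hρ1
    omega
  have h2mp : ∀ s, s + N0 q * (20 * (rh q ^ 2 * b)) + 20 * (rh q ^ 2 * b) ≤ H →
      vc (oo S s) (rh q) (N0 q * (20 * (rh q ^ 2 * b))) ≤ (N0 q + 1) * (rh q * (40 * b)) :=
    fun s hs => block_vc S (rh q) (rh q ^ 2 * b) H (40 * b) (N0 q) s (by omega) hmb h2 hs
  clear h2
  generalize hmg : rh q ^ 2 * b = m at *
  generalize hVg : (N0 q + 1) * (rh q * (40 * b)) = V at *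
  generalize hρg : rh q = ρ at *
  -- parameters
  have hl1 : 20 ≤ 20 * m := by omega
  have hBl : 120 * (20 * m) ≤ N0 q * (20 * m) := Nat.mul_le_mul_right _ hN1
  have hJ3 : 3 ≤ 2 * (N0 q * (20 * m)) := by omega
  have hj1 : 120 * (20 * m) ≤ 2 * (N0 q * (20 * m)) := by omega
  have hj5 : 5 ≤ 120 * (20 * m) := by omega
  obtain ⟨s, hs1, hs2⟩ := good_blocks (L + 2 * (N0 q * (20 * m))) L (2 * (N0 q * (20 * m)))
    (120 * (20 * m)) (N0 q * (20 * m)) m H S rfl hH rfl hj5 hj1 hmb h1 g hL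
  -- the constants
  have hT0 : (2 : ℝ) ≤ 4 * 5 ^ (4 * ρ + 1) := by
    have : (1 : ℝ) ≤ 5 ^ (4 * ρ + 1) := one_le_pow₀ (by norm_num)
    linarith
  have hlam0 : (0 : ℝ) ≤ (1 - 4 / (4 * 5 ^ (4 * ρ + 1)) ^ 2) ^ g := by
    apply pow_nonneg
    have h4 : (4 : ℝ) / (4 * 5 ^ (4 * ρ + 1)) ^ 2 ≤ 1 := by
      rw [div_le_one (by positivity)]
      nlinarith
    linarith
  have hlam1 : ((1 : ℝ) - 4 / (4 * 5 ^ (4 * ρ + 1)) ^ 2) ^ g ≤ 1 := by
    apply pow_le_one₀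
    · have h4 : (4 : ℝ) / (4 * 5 ^ (4 * ρ + 1)) ^ 2 ≤ 1 := by
        rw [div_le_one (by positivity)]
        nlinarith
      linarith
    · have h4 : (0 : ℝ) ≤ 4 / (4 * 5 ^ (4 * ρ + 1)) ^ 2 := by positivity
      linarith
  -- the blocks
  have hblocks := blocks_sum (L + 2 * (N0 q * (20 * m))) H g (N0 q * (20 * m)) z S
    (4 * 5 ^ (4 * ρ + 1)) hT0 hg1 s hs2 (fun t ht => by have := (hs1 t ht).2; omega)
    (etas (2 * (N0 q * (20 * m))))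
  generalize hlamg : ((1 : ℝ) - 4 / (4 * 5 ^ (4 * ρ + 1)) ^ 2) ^ g = lam at *
  have hone : ∀ t ∈ range g,
      ∑ η ∈ etas (2 * (N0 q * (20 * m))),
        lam ^ wcnt (L + 2 * (N0 q * (20 * m))) z S (4 * 5 ^ (4 * ρ + 1)) η (s t) (N0 q * (20 * m)) ≤
      2 ^ (120 * (20 * m)) * ((1 + lam * 5 ^ (4 * ρ + 1)) ^ (N0 q * (20 * m)) *
        5 ^ (2 * (23 * (20 * m)) + 5 * V + 4 * ρ)) := by
    intro t ht
    rw [mem_range] at ht
    obtain ⟨hg2, hH2⟩ := hs1 t ht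
    have hsum := block_sum (L + 2 * (N0 q * (20 * m))) (2 * (N0 q * (20 * m))) (120 * (20 * m))
      (N0 q * (20 * m)) ρ (23 * (20 * m)) z hz S (s t) (by omega) hJ3 hj1 (by omega)
      (block_D S m H (N0 q) (s t) hmb h1 (by omega) (by omega)) hg2
      (block_act S m H (N0 q * (20 * m)) ρ (s t) hρm h1 (by omega)) lam hlam0 hlam1
    refine le_trans hsum ?_
    apply mul_le_mul_of_nonneg_left _ (by positivity)
    apply mul_le_mul_of_nonneg_left _ (by positivity)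
    apply pow_le_pow_right₀ (by norm_num)
    have := h2mp (s t) hH2
    omega
  have hall : ∑ η ∈ etas (2 * (N0 q * (20 * m))), ∏ j ∈ range H,
      Real.cos (Real.pi * (((η * gam z S j : ℤ) : ℝ) / 2 ^ (L + 2 * (N0 q * (20 * m))))) ^ 2 ≤
      g * (2 ^ (120 * (20 * m)) * ((1 + lam * 5 ^ (4 * ρ + 1)) ^ (N0 q * (20 * m)) *
        5 ^ (2 * (23 * (20 * m)) + 5 * V + 4 * ρ))) := by
    refine le_trans hblocks ?_
    refine le_trans (Finset.sum_le_card_nsmul _ _ _ hone) ?_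
    rw [card_range, nsmul_eq_mul]
  have hWr : (W.card : ℝ) ≤ 2 ^ (2 * (N0 q * (20 * m)) - 240 * (20 * m)) := by exact_mod_cast hW
  have hnum := numeric q ρ m g V hq hmb lam hlam0 hg hV5 (W.card : ℝ) (Nat.cast_nonneg _) hWr
  have hcol := collision L (2 * (N0 q * (20 * m))) H hJ3 (NN z S) (gam z S) W
  have hfil : (range H).powerset.filter
      (fun U => (NN z (sw U S) % 2 ^ (L + 2 * (N0 q * (20 * m)))) / 2 ^ L ∈ W) =
      (range H).powerset.filter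
      (fun U => ((NN z S + ∑ j ∈ U, gam z S j) % 2 ^ (L + 2 * (N0 q * (20 * m)))) / 2 ^ L ∈ W) := by
    apply Finset.filter_congr
    intro U _
    rw [NN_sw]
  rw [hfil]
  refine le_trans hcol ?_
  calc (W.card : ℝ) * (2 / 2 ^ (2 * (N0 q * (20 * m)) - 3)) * (4 ^ H *
        ∑ η ∈ etas (2 * (N0 q * (20 * m))), ∏ j ∈ range H,
          Real.cos (Real.pi * (((η * gam z S j : ℤ) : ℝ) / 2 ^ (L + 2 * (N0 q * (20 * m))))) ^ 2)
      ≤ (W.card : ℝ) * (2 / 2 ^ (2 * (N0 q * (20 * m)) - 3)) * (4 ^ H *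
        (g * (2 ^ (120 * (20 * m)) * ((1 + lam * 5 ^ (4 * ρ + 1)) ^ (N0 q * (20 * m)) *
        5 ^ (2 * (23 * (20 * m)) + 5 * V + 4 * ρ))))) := by
        apply mul_le_mul_of_nonneg_left _ (by positivity)
        exact mul_le_mul_of_nonneg_left hall (by positivity)
    _ = 4 ^ H * ((W.card : ℝ) * (2 / 2 ^ (2 * (N0 q * (20 * m)) - 3)) *
        (g * (2 ^ (120 * (20 * m)) * ((1 + lam * 5 ^ (4 * ρ + 1)) ^ (N0 q * (20 * m)) *
        5 ^ (2 * (23 * (20 * m)) + 5 * V + 4 * ρ))))) := by ring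
    _ ≤ 4 ^ H * (16 * g * 5 ^ (4 * ρ) / 2 ^ (9 * (20 * m))) :=
        mul_le_mul_of_nonneg_left hnum (by positivity)

end Pool.Agent.MP81cdd9.HZ
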