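import Pool.Agent.Lib.MP_81cdd9_nt.HZ.F9
import Pool.Agent.Lib.MP_81cdd9_nt.HZ.F8e

/-! The core theorem. -/

set_option autoImplicit false

namespace Pool.Agent.MP81cdd9.HZ

open Finset

private theorem F9b_C1 (U S : Finset ℕ) (m H : ℕ) (h : C1 S m H) : C1 (sw U S) m H := by
  intro c hc
  rw [cnt_sw, cnt_sw]
  exact h c hc

private theorem F9b_C2 (U S : Finset ℕ) (ρ l Kc H : ℕ) (h : C2 S ρ l Kc H) : C2 (sw U S) ρ l Kc H := by
  have hv : voidAt (sw U S) ρ = voidAt S ρ := by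
    funext x
    apply propext
    unfold voidAt
    constructor
    · rintro ⟨h1, h2⟩
      exact ⟨h1, fun i hi hm => h2 i hi ((mix_sw U S _).2 hm)⟩
    · rintro ⟨h1, h2⟩
      exact ⟨h1, fun i hi hm => h2 i hi ((mix_sw U S _).1 hm)⟩
  unfold C2
  rw [hv]
  exact h

/-- Bad sets are rare.
PROOF. `g` with `hg` exists because `0 ≤ 1 - 4/T0^2 < 1`; `C` large. `Typ` from `typical` (with `δ/2`, `D = 3C`), it is invariant under `sw U`
(`cnt_sw`, `mix_sw`: C1, C2 depend only on the `cnt S (2j)`; `sw_subset`). `average` and `typ_bad` with `W (S.card)` (`card_sw`):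
`2^H #{S ∈ Typ bad} ≤ #Typ 2^H (16 g 5^(4ρ) / 2^(9·20 ρ^2 b))^(1/2)`, which tends to 0 (relative to `2^L 2^H`) as `b → ∞`. -/
theorem bad_sets (q : ℕ) (hq : 1 ≤ q) : ∃ C : ℕ, 1 ≤ C ∧ 100 * (q * N3 q) ≤ C ∧ ∀ δ : ℝ, 0 < δ → ∃ b0 : ℕ, 1 ≤ b0 ∧ ∀ b ≥ b0,
    ∀ L : ℕ, C * b ≤ L → L ≤ 3 * (C * b) → ∀ z : ℤ, (2 : ℤ) ^ (L + q * N3 q * b) ∣ 5 * z - 1 →
    ∀ W : ℕ → Finset ℤ, (∀ a, (W a).card ≤ 2 ^ ((q - 1) * N3 q * b)) →
    (((range L).powerset.filter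
      (fun S => (NN z S % 2 ^ (L + q * N3 q * b)) / 2 ^ L ∈ W S.card)).card : ℝ) ≤ δ * 2 ^ L := by
  have hρ : 1 ≤ rh q := by unfold rh; omega
  -- the contraction factor
  have h5 : (1 : ℝ) ≤ 5 ^ (4 * rh q + 1) := one_le_pow₀ (by norm_num)
  have hT0 : (16 : ℝ) ≤ (4 * 5 ^ (4 * rh q + 1)) ^ 2 := by nlinarith
  have hl0 : (0 : ℝ) ≤ 1 - 4 / (4 * 5 ^ (4 * rh q + 1)) ^ 2 := by
    have : (4 : ℝ) / (4 * 5 ^ (4 * rh q + 1)) ^ 2 ≤ 1 := by
      rw [div_le_one (by linarith)]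
      linarith
    linarith
  have hl1 : (1 - 4 / (4 * 5 ^ (4 * rh q + 1)) ^ 2 : ℝ) < 1 := by
    have : (0 : ℝ) < 4 / (4 * 5 ^ (4 * rh q + 1)) ^ 2 := by positivity
    linarith
  have hN0 : (0 : ℝ) < N0 q := by
    have : 0 < N0 q := by unfold N0; omega
    exact_mod_cast this
  obtain ⟨n, hn⟩ := exists_pow_lt_of_lt_one (show (0 : ℝ) < 1 / (N0 q : ℝ) / 5 ^ (4 * rh q + 1) by positivity) hl1
  obtain ⟨g, hg1, hg⟩ : ∃ g : ℕ, 1 ≤ g ∧
      (1 - 4 / (4 * 5 ^ (4 * rh q + 1)) ^ 2 : ℝ) ^ g * 5 ^ (4 * rh q + 1) ≤ 1 / (N0 q : ℝ) := by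
    refine ⟨n + 1, by omega, ?_⟩
    have h1 : (1 - 4 / (4 * 5 ^ (4 * rh q + 1)) ^ 2 : ℝ) ^ (n + 1) ≤
        (1 - 4 / (4 * 5 ^ (4 * rh q + 1)) ^ 2 : ℝ) ^ n :=
      pow_le_pow_of_le_one hl0 hl1.le (by omega)
    have h2 := h1.trans hn.le
    rw [le_div_iff₀ (by linarith)] at h2
    exact h2
  refine ⟨12 ^ g * (132 * (40 + 80 * rh q ^ 2 + q * N3 q)), ?_, ?_, ?_⟩
  · have h1 : 1 ≤ 12 ^ g := Nat.one_le_pow _ _ (by norm_num)
    have h2 : 1 ≤ 132 * (40 + 80 * rh q ^ 2 + q * N3 q) := by omega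
    exact Nat.mul_pos h1 h2
  · have h1 : 1 ≤ 12 ^ g := Nat.one_le_pow _ _ (by norm_num)
    have h2 : 100 * (q * N3 q) ≤ 132 * (40 + 80 * rh q ^ 2 + q * N3 q) := by omega
    calc 100 * (q * N3 q) ≤ 132 * (40 + 80 * rh q ^ 2 + q * N3 q) := h2
      _ = 1 * (132 * (40 + 80 * rh q ^ 2 + q * N3 q)) := (one_mul _).symm
      _ ≤ 12 ^ g * (132 * (40 + 80 * rh q ^ 2 + q * N3 q)) := Nat.mul_le_mul_right _ h1
  intro δ hδ
  obtain ⟨b1, hb1, hty⟩ := typical (rh q) (3 * (12 ^ g * (132 * (40 + 80 * rh q ^ 2 + q * N3 q)))) hρ (δ / 2)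
    (by linarith)
  obtain ⟨b2, hb2⟩ := exists_nat_gt ((16 * g * 5 ^ (4 * rh q) : ℝ) / (δ / 2) ^ 2)
  refine ⟨max b1 b2, le_trans hb1 (le_max_left _ _), ?_⟩
  intro b hb L hL1 hL2 z hz W hW
  have hbb1 : b1 ≤ b := le_trans (le_max_left _ _) hb
  have hbb2 : b2 ≤ b := le_trans (le_max_right _ _) hb
  have hb0 : 1 ≤ b := le_trans hb1 hbb1
  obtain ⟨Typ, hT1, hT2, hT3, hT4⟩ := hty b hbb1 L (by rw [Nat.mul_assoc]; exact hL2) (L / 2) (by omega)
  -- the bound for one typical set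
  have hE : (16 * g * 5 ^ (4 * rh q) : ℝ) / 2 ^ (9 * (20 * (rh q ^ 2 * b))) ≤ (δ / 2) ^ 2 := by
    have e1 : (b : ℝ) ≤ 2 ^ (9 * (20 * (rh q ^ 2 * b))) := by
      have e2 : b < 2 ^ b := Nat.lt_two_pow_self
      have e3 : 2 ^ b ≤ 2 ^ (9 * (20 * (rh q ^ 2 * b))) := by
        apply Nat.pow_le_pow_right (by norm_num)
        have e4 : 1 * b ≤ rh q ^ 2 * b := Nat.mul_le_mul_right _ (Nat.one_le_pow _ _ hρ)
        omega
      have e5 : b ≤ 2 ^ (9 * (20 * (rh q ^ 2 * b))) := by omega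
      exact_mod_cast e5
    have e6 : (b2 : ℝ) ≤ b := by exact_mod_cast hbb2
    have hd2 : (0 : ℝ) < (δ / 2) ^ 2 := by positivity
    rw [div_lt_iff₀ hd2] at hb2
    rw [div_le_iff₀ (by positivity)]
    nlinarith
  have hone : ∀ S ∈ Typ, (((range (L / 2)).powerset.filter
      (fun U => (NN z (sw U S) % 2 ^ (L + q * N3 q * b)) / 2 ^ L ∈ W (sw U S).card)).card : ℝ) ≤
      2 ^ (L / 2) * (δ / 2) := by
    intro S hS
    have e0 : ((range (L / 2)).powerset.filter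
      (fun U => (NN z (sw U S) % 2 ^ (L + q * N3 q * b)) / 2 ^ L ∈ W (sw U S).card)) =
      ((range (L / 2)).powerset.filter
      (fun U => (NN z (sw U S) % 2 ^ (L + q * N3 q * b)) / 2 ^ L ∈ W S.card)) := by
      apply Finset.filter_congr
      intro U _
      rw [card_sw]
    rw [e0]
    have e1 := typ_bad q b g L (L / 2) hq hb0 z hz rfl hg1 hg (by
      refine le_trans ?_ (le_trans hL1 (Nat.le_add_right _ _))
      have e2 : 12 ^ g * (132 * (40 + 80 * rh q ^ 2 + q * N3 q)) * b =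
        12 ^ g * (132 * (40 * b + 80 * (rh q ^ 2 * b) + q * N3 q * b)) := by ring
      rw [e2]
      apply Nat.mul_le_mul_left
      apply Nat.mul_le_mul_left
      omega) S (hT2 S hS).1 (hT2 S hS).2 (W S.card) (hW _)
    have e2 : (4 : ℝ) ^ (L / 2) * (16 * g * 5 ^ (4 * rh q) / 2 ^ (9 * (20 * (rh q ^ 2 * b)))) ≤
        (2 ^ (L / 2) * (δ / 2)) ^ 2 := by
      have e3 : ((2 : ℝ) ^ (L / 2) * (δ / 2)) ^ 2 = 4 ^ (L / 2) * (δ / 2) ^ 2 := by
        rw [mul_pow, ← pow_mul, mul_comm (L / 2) 2, pow_mul]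
        norm_num
      rw [e3]
      exact mul_le_mul_of_nonneg_left hE (by positivity)
    exact le_of_pow_le_pow_left₀ (two_ne_zero) (by positivity) (e1.trans e2)
  have hav := average Typ (L / 2) (by
    intro S hS U hU
    apply hT3
    · rw [Finset.mem_powerset]
      exact sw_subset (by omega) hU (Finset.mem_powerset.1 (hT1 hS))
    · exact F9b_C1 U S _ _ (hT2 S hS).1
    · exact F9b_C2 U S _ _ _ _ (hT2 S hS).2)
    (fun S => (NN z S % 2 ^ (L + q * N3 q * b)) / 2 ^ L ∈ W S.card)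
  have hTc : (Typ.card : ℝ) ≤ 2 ^ L := by
    have e1 := Finset.card_le_card hT1
    rw [Finset.card_powerset, Finset.card_range] at e1
    exact_mod_cast e1
  have hTyp : ((Typ.filter (fun S => (NN z S % 2 ^ (L + q * N3 q * b)) / 2 ^ L ∈ W S.card)).card : ℝ) ≤
      δ / 2 * 2 ^ L := by
    have e1 : ((∑ S ∈ Typ, ((range (L / 2)).powerset.filter
      (fun U => (NN z (sw U S) % 2 ^ (L + q * N3 q * b)) / 2 ^ L ∈ W (sw U S).card)).card : ℕ) : ℝ) ≤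
        2 ^ L * (2 ^ (L / 2) * (δ / 2)) := by
      rw [Nat.cast_sum]
      refine le_trans (Finset.sum_le_sum hone) ?_
      rw [Finset.sum_const, nsmul_eq_mul]
      exact mul_le_mul_of_nonneg_right hTc (by positivity)
    rw [hav] at e1
    push_cast at e1
    have e2 : (0 : ℝ) < 2 ^ (L / 2) := by positivity
    have e3 : (2 : ℝ) ^ L * (2 ^ (L / 2) * (δ / 2)) = 2 ^ (L / 2) * (δ / 2 * 2 ^ L) := by ring
    rw [e3] at e1
    exact le_of_mul_le_mul_left e1 e2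
  have hsub : (range L).powerset.filter
      (fun S => (NN z S % 2 ^ (L + q * N3 q * b)) / 2 ^ L ∈ W S.card) ⊆
      (Typ.filter (fun S => (NN z S % 2 ^ (L + q * N3 q * b)) / 2 ^ L ∈ W S.card)) ∪
        ((range L).powerset \ Typ) := by
    intro S hS
    rw [Finset.mem_filter] at hS
    rw [Finset.mem_union, Finset.mem_filter, Finset.mem_sdiff]
    by_cases hST : S ∈ Typ
    · exact Or.inl ⟨hST, hS.2⟩
    · exact Or.inr ⟨hS.1, hST⟩
  have hc : (((range L).powerset.filter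
      (fun S => (NN z S % 2 ^ (L + q * N3 q * b)) / 2 ^ L ∈ W S.card)).card : ℝ) ≤
      ((Typ.filter (fun S => (NN z S % 2 ^ (L + q * N3 q * b)) / 2 ^ L ∈ W S.card)).card : ℝ) +
        (((range L).powerset \ Typ).card : ℝ) := by
    have e1 := (Finset.card_le_card hsub).trans (Finset.card_union_le _ _)
    exact_mod_cast e1
  linarith

end Pool.Agent.MP81cdd9.HZ
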