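import Pool.Agent.Lib.MP_81cdd9_nt.HZ.F9b
import Pool.Agent.Lib.MP_81cdd9_nt.HZ.F1b

/-! The core theorem. -/

set_option autoImplicit false

namespace Pool.Agent.MP81cdd9.HZ

open Finset

private theorem F9c_quot (L J : ℕ) (N n k0 u : ℤ) (h : (2 : ℤ) ^ (L + J) ∣ N - (n - 2 ^ L * u))
    (h1 : k0 * 2 ^ L ≤ n) (h2 : n < (k0 + 1) * 2 ^ L) :
    (N % 2 ^ (L + J)) / 2 ^ L = (k0 - u) % 2 ^ J := by
  have hL : (0 : ℤ) < 2 ^ L := by positivity
  have hJ : (0 : ℤ) < 2 ^ J := by positivity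
  obtain ⟨c, hc⟩ := h
  have hy0 := Int.emod_nonneg (k0 - u) hJ.ne'
  have hy1 := Int.emod_lt_of_pos (k0 - u) hJ
  have hy2 := Int.emod_add_mul_ediv (k0 - u) (2 ^ J)
  set y := (k0 - u) % 2 ^ J with hy
  set w := (k0 - u) / 2 ^ J with hw
  have hN : N = ((n - k0 * 2 ^ L) + 2 ^ L * y) + 2 ^ (L + J) * (w + c) := by
    have e1 : k0 - u = y + 2 ^ J * w := by linarith
    have e2 : N = n - 2 ^ L * u + 2 ^ (L + J) * c := by linarith
    rw [e2, pow_add]
    have e3 : u = k0 - (y + 2 ^ J * w) := by linarith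
    rw [e3]
    ring
  have hlt : (n - k0 * 2 ^ L) + 2 ^ L * y < 2 ^ (L + J) := by
    rw [pow_add]
    have : (2 : ℤ) ^ L * (y + 1) ≤ 2 ^ L * 2 ^ J := by
      apply mul_le_mul_of_nonneg_left _ hL.le
      linarith
    nlinarith
  have hge : 0 ≤ (n - k0 * 2 ^ L) + 2 ^ L * y := by
    have : 0 ≤ (2 : ℤ) ^ L * y := mul_nonneg hL.le hy0
    linarith
  rw [hN, Int.add_mul_emod_self_left, Int.emod_eq_of_lt hge hlt, Int.add_mul_ediv_left _ _ hL.ne',
    Int.ediv_eq_zero_of_lt (by linarith) (by linarith), zero_add]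

private theorem F9c_mod (J : ℕ) (k0 v t : ℤ) : (k0 - v * t) % 2 ^ J = (k0 - v * (t % 2 ^ J)) % 2 ^ J := by
  apply Int.ModEq.sub_left
  exact (Int.ModEq.mul_left v (Int.mod_modEq t (2 ^ J)).symm)

/-- THE CORE THEOREM. For all blocks `[k0 2^L, (k0+1) 2^L)` and all sets `R` of at most `2^((1-1/q) J)` residues modulo `2^J`,
`J = q N3 b`, the number of `n` with `T^L(n) mod 2^J ∈ R` is `o(2^L)`.
PROOF. `z` from `exists_inv`. The map `n ↦ par L n` is injective on the block (`par_inj`) with values in the powerset. By `NN_par`,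
`NN z S = n - 2^L z^a T^L(n)` modulo `2^(L+J)`, `S = par L n`, `a = S.card`; with `n = k0 2^L + n0`, `0 ≤ n0 < 2^L` and
`y := (k0 - z^a T^L(n)) mod 2^J = (k0 - z^a (T^L(n) mod 2^J)) mod 2^J`: `NN z S mod 2^(L+J) = n0 + 2^L y`, quotient by `2^L` is `y`. So `S` is bad for
`W a = R.image (fun r => (k0 - z^a r) % 2^J)`, `|W a| ≤ |R|`. `bad_sets`. -/
theorem core (q : ℕ) (hq : 1 ≤ q) : ∃ C : ℕ, 1 ≤ C ∧ 100 * (q * N3 q) ≤ C ∧ ∀ δ : ℝ, 0 < δ → ∃ b0 : ℕ, 1 ≤ b0 ∧ ∀ b ≥ b0,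
    ∀ L : ℕ, C * b ≤ L → L ≤ 3 * (C * b) → ∀ (k0 : ℤ) (R : Finset ℤ), R.card ≤ 2 ^ ((q - 1) * N3 q * b) →
    (((Ico (k0 * 2 ^ L) ((k0 + 1) * 2 ^ L)).filter
      (fun n => (T^[L] n) % 2 ^ (q * N3 q * b) ∈ R)).card : ℝ) ≤ δ * 2 ^ L := by
  obtain ⟨C, hC, hCq, h⟩ := bad_sets q hq
  refine ⟨C, hC, hCq, fun δ hδ => ?_⟩
  obtain ⟨b0, hb0, h2⟩ := h δ hδ
  refine ⟨b0, hb0, fun b hb L hL1 hL2 k0 R hR => ?_⟩
  obtain ⟨z, hz⟩ := exists_inv (L + q * N3 q * b)
  have hB := h2 b hb L hL1 hL2 z hz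
    (fun a => R.image (fun r => (k0 - z ^ a * r) % 2 ^ (q * N3 q * b)))
    (fun a => Finset.card_image_le.trans hR)
  refine le_trans ?_ hB
  have hcard : ((Ico (k0 * 2 ^ L) ((k0 + 1) * 2 ^ L)).filter
      (fun n => (T^[L] n) % 2 ^ (q * N3 q * b) ∈ R)).card ≤
    ((range L).powerset.filter
      (fun S => (NN z S % 2 ^ (L + q * N3 q * b)) / 2 ^ L ∈
        R.image (fun r => (k0 - z ^ S.card * r) % 2 ^ (q * N3 q * b)))).card := by
    apply Finset.card_le_card_of_injOn (fun n => par L n)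
    · intro n hn
      rw [Finset.mem_coe, Finset.mem_filter, Finset.mem_Ico] at hn
      rw [Finset.mem_coe, Finset.mem_filter]
      refine ⟨?_, ?_⟩
      · rw [Finset.mem_powerset]
        exact Finset.filter_subset _ _
      · rw [Finset.mem_image]
        refine ⟨(T^[L] n) % 2 ^ (q * N3 q * b), hn.2, ?_⟩
        have h3 := NN_par (L + q * N3 q * b) L z n hz
        rw [mul_assoc (2 ^ L : ℤ)] at h3
        have h4 := F9c_quot L (q * N3 q * b) (NN z (par L n)) n k0 _ h3 hn.1.1 hn.1.2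
        rw [h4]
        exact (F9c_mod _ _ _ _).symm
    · intro n hn n' hn' heq
      rw [Finset.mem_coe, Finset.mem_filter, Finset.mem_Ico] at hn hn'
      obtain ⟨c, hc⟩ := par_inj L n n' heq
      have hL : (0 : ℤ) < 2 ^ L := by positivity
      have h5 : c < 1 := by
        by_contra hcc
        have : (2 : ℤ) ^ L * 1 ≤ 2 ^ L * c := mul_le_mul_of_nonneg_left (by linarith) hL.le
        nlinarith [hn.1.2, hn'.1.1]
      have h6 : -1 < c := by
        by_contra hcc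
        have : (2 : ℤ) ^ L * c ≤ 2 ^ L * (-1) := mul_le_mul_of_nonneg_left (by linarith) hL.le
        nlinarith [hn.1.1, hn'.1.2]
      have h7 : c = 0 := by omega
      rw [h7, mul_zero] at hc
      linarith
  exact_mod_cast hcard

end Pool.Agent.MP81cdd9.HZ
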