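import Pool.Agent.Lib.MP_81cdd9_nt.HZ.F8
import Pool.Agent.Lib.MP_81cdd9_nt.HZ.F1b

/-! The window: residues and parities, counting words. -/

set_option autoImplicit false

namespace Pool.Agent.MP81cdd9.HZ

open Finset

private theorem G1_step (j : ℕ) (x y : ℤ) (h : (2 : ℤ) ^ (j + 1) ∣ x - y) :
    (2 : ℤ) ^ j ∣ T x - T y := by
  obtain ⟨c, hc⟩ := h
  rw [pow_succ] at hc
  have hx := two_T x
  have hy := two_T y
  have hpar : x % 2 = y % 2 := by
    have h2 : x - y = 2 * (2 ^ j * c) := by rw [hc]; ring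
    omega
  by_cases hx1 : x % 2 = 1
  · rw [if_pos hx1] at hx
    rw [if_pos (hpar ▸ hx1)] at hy
    refine ⟨5 * c, ?_⟩
    have h3 : 2 * (T x - T y) = 2 * (2 ^ j * (5 * c)) := by
      have : 2 * (T x - T y) = 5 * (x - y) := by linarith
      rw [this, hc]
      ring
    exact mul_left_cancel₀ (by norm_num) h3
  · rw [if_neg hx1] at hx
    rw [if_neg (hpar ▸ hx1)] at hy
    refine ⟨c, ?_⟩
    have h3 : 2 * (T x - T y) = 2 * (2 ^ j * c) := by
      have : 2 * (T x - T y) = x - y := by linarith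
      rw [this, hc]
      ring
    exact mul_left_cancel₀ (by norm_num) h3

/-- PROOF. Induction on `k`: if `x = y` modulo `2^(j+1)` then `T x = T y` modulo `2^j` (same parity; `2 T x - 2 T y = x - y` or
`5 (x - y)`, `two_T`). Generalise over `x`, `y` or use `Function.iterate_succ_apply'`. -/
theorem iter_congr (J k : ℕ) (hk : k ≤ J) (x y : ℤ) (h : (2 : ℤ) ^ J ∣ x - y) :
    (2 : ℤ) ^ (J - k) ∣ T^[k] x - T^[k] y := by
  induction k with
  | zero => simpa using h
  | succ k ih =>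
    have h1 := ih (by omega)
    rw [Function.iterate_succ_apply', Function.iterate_succ_apply']
    apply G1_step
    rw [show J - (k + 1) + 1 = J - k by omega]
    exact h1

/-- PROOF. `iter_congr` for `k < J`: the parities agree. -/
theorem par_congr (J : ℕ) (x y : ℤ) (h : (2 : ℤ) ^ J ∣ x - y) : par J x = par J y := by
  unfold par
  refine filter_congr fun k hk => ?_
  rw [mem_range] at hk
  have h1 := iter_congr J k hk.le x y h
  have h2 : (2 : ℤ) ∣ T^[k] x - T^[k] y := (dvd_pow_self 2 (by omega)).trans h1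
  omega

/-- PROOF. `par_congr`, `2^J ∣ x - x % 2^J`. -/
theorem par_mod (J : ℕ) (x : ℤ) : par J (x % 2 ^ J) = par J x := by
  refine par_congr J _ _ ⟨-(x / 2 ^ J), ?_⟩
  have := Int.emod_add_mul_ediv x (2 ^ J)
  linarith

/-- the residues whose window has few odd terms -/
noncomputable def fewR (n : ℕ) : Finset ℤ := (Ico (0 : ℤ) (2 ^ (1600 * n))).filter (fun r => (par (1600 * n) r).card ≤ 700 * n)

/-- PROOF. `par J` is injective on `[0, 2^J)` (`par_inj`), with values in the subsets of `range J` with at most `700 n` elements.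
`few_ones` with `A = range J`, `z = 7/9`: their number is at most `(16/9)^(1600 n) (9/7)^(700 n) ≤ 2^(1584 n)`, because
`2^1204 ≤ 9^225 * 7^175` (`norm_num`), i.e. `(16/9)^400 (9/7)^175 ≤ 2^396`, fourth power and `n`-th power. -/
theorem card_fewR (n : ℕ) : (fewR n).card ≤ 2 ^ (1584 * n) := by
  have h1 : (fewR n).card ≤
      ((range (1600 * n)).powerset.filter (fun S => (S ∩ range (1600 * n)).card ≤ 700 * n)).card := by
    refine card_le_card_of_injOn (fun r => par (1600 * n) r) ?_ ?_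
    · intro r hr
      have hr' := (mem_filter.1 (mem_coe.1 hr)).2
      rw [mem_coe, mem_filter, mem_powerset]
      refine ⟨filter_subset _ _, ?_⟩
      exact (card_le_card inter_subset_left).trans hr'
    · intro r hr r' hr' hrr
      have h2 := par_inj (1600 * n) r r' hrr
      have h3 := mem_Ico.1 (mem_filter.1 (mem_coe.1 hr)).1
      have h4 := mem_Ico.1 (mem_filter.1 (mem_coe.1 hr')).1
      by_contra hne
      have h5 : (2 : ℤ) ^ (1600 * n) ≤ |r - r'| :=
        Int.le_of_dvd (abs_pos.2 (sub_ne_zero.2 hne)) ((dvd_abs _ _).2 h2)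
      have h6 : |r - r'| < 2 ^ (1600 * n) := abs_lt.2 ⟨by linarith, by linarith⟩
      linarith
  have h2 := few_ones (1600 * n) (range (1600 * n)) (Subset.refl _) (700 * n) (7 / 9) (by norm_num)
    (by norm_num)
  rw [card_range, Nat.sub_self, pow_zero, mul_one] at h2
  have h3 : (1 + 7 / 9 : ℝ) ^ (1600 * n) ≤ 2 ^ (1584 * n) * (7 / 9) ^ (700 * n) := by
    rw [pow_mul, pow_mul, pow_mul, ← mul_pow]
    refine pow_le_pow_left₀ (by positivity) ?_ n
    have h4 : (1 + 7 / 9 : ℝ) ^ 400 ≤ 2 ^ 396 * (7 / 9) ^ 175 := by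
      have h40 : (1 + 7 / 9 : ℝ) ^ 80 * (7 / 4) ≤ 2 ^ 80 * (7 / 9) ^ 35 := by norm_num
      have h41 : ((1 + 7 / 9 : ℝ) ^ 80 * (7 / 4)) ^ 5 ≤ (2 ^ 80 * (7 / 9) ^ 35) ^ 5 :=
        pow_le_pow_left₀ (by positivity) h40 5
      have h42 : ((1 + 7 / 9 : ℝ) ^ 80 * (7 / 4)) ^ 5 = (1 + 7 / 9 : ℝ) ^ 400 * (7 / 4) ^ 5 := by
        rw [mul_pow, ← pow_mul]
      have h43 : (2 ^ 80 * (7 / 9 : ℝ) ^ 35) ^ 5 = (2 ^ 396 * (7 / 9) ^ 175) * 16 := by
        rw [mul_pow, ← pow_mul, ← pow_mul, show 80 * 5 = 396 + 4 by rfl, pow_add,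
          show 35 * 5 = 175 by rfl, show (2 : ℝ) ^ 4 = 16 by norm_num]
        ring
      rw [h42, h43] at h41
      have h44 : (16 : ℝ) ≤ (7 / 4) ^ 5 := by norm_num
      have h45 : (0 : ℝ) ≤ (1 + 7 / 9 : ℝ) ^ 400 := by positivity
      have h46 : (1 + 7 / 9 : ℝ) ^ 400 * 16 ≤ (2 ^ 396 * (7 / 9) ^ 175) * 16 :=
        (mul_le_mul_of_nonneg_left h44 h45).trans h41
      exact le_of_mul_le_mul_right h46 (by norm_num)
    calc (1 + 7 / 9 : ℝ) ^ 1600 = ((1 + 7 / 9 : ℝ) ^ 400) ^ 4 := by rw [← pow_mul]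
      _ ≤ (2 ^ 396 * (7 / 9) ^ 175) ^ 4 := pow_le_pow_left₀ (by positivity) h4 4
      _ = 2 ^ 1584 * (7 / 9) ^ 700 := by rw [mul_pow, ← pow_mul, ← pow_mul]
  have h5 := h2.trans h3
  have h6 := le_of_mul_le_mul_right h5 (by positivity)
  refine h1.trans ?_
  exact_mod_cast h6

end Pool.Agent.MP81cdd9.HZ
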