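import Pool.Agent.Lib.MP_81cdd9_nt.HZ.F8

/-! The window: residues and parities, counting words. -/

set_option autoImplicit false

namespace Pool.Agent.MP81cdd9.HZ

open Finset

/-- Few elements, general.
PROOF. `few_ones` with `A = range L`, `z = 1 - t`, `t = 2d ≤ 1`.. : the number is at most `((1+z)/z^β)^L`, `β = 1/2 - d`, and
`(1+z)/(2 z^β) < 1` for small `t = 1 - z > 0`: `log ((2-t)/2) - β log (1-t) ≤ -t/2 + β (t + t^2) = -t (d - β t) < 0` if `t < 2 d` (`-log (1-t) ≤ t + t^2`
for `0 ≤ t ≤ 1/2`). So the proportion is at most `θ^L`, `θ < 1`. -/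
theorem few_general (d : ℝ) (hd : 0 < d) (hd2 : d < 1 / 2) : ∃ θ : ℝ, 0 < θ ∧ θ < 1 ∧ ∀ L : ℕ,
    (((range L).powerset.filter (fun S => (S.card : ℝ) ≤ (1 / 2 - d) * L)).card : ℝ) ≤ θ ^ L * 2 ^ L := by
  have hd' : 0 < 1 - d := by linarith
  have hδ : 0 < d / 2 - (1 / 2 - d) * (d / (1 - d)) := by
    have h1 : d / 2 - (1 / 2 - d) * (d / (1 - d)) = (d * d / 2) / (1 - d) := by
      field_simp
      ring
    rw [h1]
    positivity
  refine ⟨Real.exp (-(d / 2 - (1 / 2 - d) * (d / (1 - d)))), Real.exp_pos _, ?_, fun L => ?_⟩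
  · rw [Real.exp_lt_one_iff]
    linarith
  · have hβ : 0 < 1 / 2 - d := by linarith
    have h0 : (0 : ℝ) ≤ (1 / 2 - d) * L := by positivity
    have hb : ((⌊(1 / 2 - d) * L⌋₊ : ℕ) : ℝ) ≤ (1 / 2 - d) * L := Nat.floor_le h0
    generalize hbd : ⌊(1 / 2 - d) * (L : ℝ)⌋₊ = b at hb
    have hsub : ((range L).powerset.filter (fun S => (S.card : ℝ) ≤ (1 / 2 - d) * L)) ⊆
        ((range L).powerset.filter (fun S => (S ∩ range L).card ≤ b)) := by
      intro S hS
      rw [mem_filter, mem_powerset] at hS ⊢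
      refine ⟨hS.1, ?_⟩
      rw [inter_eq_left.2 hS.1, ← hbd]
      exact Nat.le_floor hS.2
    have hfew := few_ones L (range L) (Subset.refl _) b (1 - d) hd' (by linarith)
    rw [card_range, Nat.sub_self, pow_zero, mul_one] at hfew
    have hcard : (((range L).powerset.filter (fun S => (S.card : ℝ) ≤ (1 / 2 - d) * L)).card : ℝ) ≤
        (((range L).powerset.filter (fun S => (S ∩ range L).card ≤ b)).card : ℝ) := by
      exact_mod_cast card_le_card hsub
    refine hcard.trans ?_
    generalize ((((range L).powerset.filter (fun S => (S ∩ range L).card ≤ b)).card : ℕ) : ℝ) = N at hfew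
    -- lower bound for `(1 - d) ^ b`
    have h1 : Real.exp (-((1 / 2 - d) * L * (d / (1 - d)))) ≤ (1 - d) ^ b := by
      have h2 : Real.exp (-(d / (1 - d))) ≤ 1 - d := by
        rw [← Real.le_log_iff_exp_le hd']
        have h3 := Real.one_sub_inv_le_log_of_pos hd'
        have h4 : -(d / (1 - d)) = 1 - (1 - d)⁻¹ := by
          field_simp
          ring
        rw [h4]
        exact h3
      calc Real.exp (-((1 / 2 - d) * L * (d / (1 - d)))) ≤ Real.exp ((b : ℝ) * (-(d / (1 - d)))) := by
            apply Real.exp_le_exp.2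
            have h5 : 0 ≤ d / (1 - d) := by positivity
            nlinarith [mul_le_mul_of_nonneg_right hb h5]
        _ = Real.exp (-(d / (1 - d))) ^ b := Real.exp_nat_mul _ _
        _ ≤ (1 - d) ^ b := pow_le_pow_left₀ (Real.exp_pos _).le h2 b
    -- upper bound for `(1 + (1 - d)) ^ L`
    have h6 : (1 + (1 - d)) ^ L ≤ 2 ^ L * Real.exp (-(d / 2) * L) := by
      have h7 : (1 + (1 - d)) ≤ 2 * Real.exp (-(d / 2)) := by
        have := Real.add_one_le_exp (-(d / 2))
        linarith
      calc (1 + (1 - d)) ^ L ≤ (2 * Real.exp (-(d / 2))) ^ L := pow_le_pow_left₀ (by linarith) h7 L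
        _ = 2 ^ L * Real.exp (-(d / 2) * L) := by
          rw [mul_pow, ← Real.exp_nat_mul]
          congr 2
          ring
    have hN : N * Real.exp (-((1 / 2 - d) * L * (d / (1 - d)))) ≤ 2 ^ L * Real.exp (-(d / 2) * L) := by
      rcases le_or_gt 0 N with hN0 | hN0
      · exact (mul_le_mul_of_nonneg_left h1 hN0).trans (hfew.trans h6)
      · have h8 : N * Real.exp (-((1 / 2 - d) * L * (d / (1 - d)))) ≤ 0 :=
          mul_nonpos_of_nonpos_of_nonneg hN0.le (Real.exp_pos _).le
        exact h8.trans (by positivity)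
    have h9 : Real.exp (-(d / 2 - (1 / 2 - d) * (d / (1 - d)))) ^ L * 2 ^ L =
        (2 ^ L * Real.exp (-(d / 2) * L)) * Real.exp ((1 / 2 - d) * L * (d / (1 - d))) := by
      rw [← Real.exp_nat_mul, mul_assoc, ← Real.exp_add, mul_comm]
      congr 2
      ring
    rw [h9]
    calc N = N * Real.exp (-((1 / 2 - d) * L * (d / (1 - d)))) *
          Real.exp ((1 / 2 - d) * L * (d / (1 - d))) := by
          rw [mul_assoc, ← Real.exp_add]
          simp
      _ ≤ _ := mul_le_mul_of_nonneg_right hN (Real.exp_pos _).le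

/-- Both tails.
PROOF. `few_general` and the complement map `S ↦ range L \ S`. -/
theorem dev_general (d : ℝ) (hd : 0 < d) (hd2 : d < 1 / 2) : ∃ θ : ℝ, 0 < θ ∧ θ < 1 ∧ ∀ L : ℕ,
    (((range L).powerset.filter (fun S => d * L < |(S.card : ℝ) - L / 2|)).card : ℝ) ≤ 2 * (θ ^ L * 2 ^ L) := by
  obtain ⟨θ, h0, h1, h⟩ := few_general d hd hd2
  refine ⟨θ, h0, h1, fun L => ?_⟩
  have hsub : ((range L).powerset.filter (fun S => d * L < |(S.card : ℝ) - L / 2|)) ⊆
      ((range L).powerset.filter (fun S => (S.card : ℝ) ≤ (1 / 2 - d) * L)) ∪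
      ((range L).powerset.filter (fun S => (S.card : ℝ) ≤ (1 / 2 - d) * L)).image (fun S => range L \ S) := by
    intro S hS
    rw [mem_filter, mem_powerset] at hS
    rw [mem_union]
    rcases le_or_gt ((S.card : ℝ) - L / 2) 0 with h2 | h2
    · left
      rw [mem_filter, mem_powerset]
      refine ⟨hS.1, ?_⟩
      have h3 := hS.2
      rw [abs_of_nonpos h2] at h3
      linarith
    · right
      rw [mem_image]
      refine ⟨range L \ S, ?_, ?_⟩
      · rw [mem_filter, mem_powerset]
        refine ⟨sdiff_subset, ?_⟩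
        have h3 := hS.2
        rw [abs_of_pos h2] at h3
        have h4 : (range L \ S).card = L - S.card := by
          rw [card_sdiff_of_subset hS.1, card_range]
        have h5 : S.card ≤ L := by
          have := card_le_card hS.1
          rwa [card_range] at this
        rw [h4, Nat.cast_sub h5]
        linarith
      · exact Finset.sdiff_sdiff_eq_self hS.1
  have h2 : (((range L).powerset.filter (fun S => d * L < |(S.card : ℝ) - L / 2|)).card : ℝ) ≤
      (((range L).powerset.filter (fun S => (S.card : ℝ) ≤ (1 / 2 - d) * L)).card : ℝ) +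
      (((range L).powerset.filter (fun S => (S.card : ℝ) ≤ (1 / 2 - d) * L)).card : ℝ) := by
    have h3 := (card_le_card hsub).trans (card_union_le _ _)
    have h4 := card_image_le (s := (range L).powerset.filter (fun S => (S.card : ℝ) ≤ (1 / 2 - d) * L))
      (f := fun S => range L \ S)
    have h5 := h3.trans (Nat.add_le_add_left h4 _)
    exact_mod_cast h5
  have h3 := h L
  linarith

end Pool.Agent.MP81cdd9.HZ
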