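import Pool.Agent.Lib.MP_81cdd9_nt.HZ.F7

/-! Growth. -/

set_option autoImplicit false

namespace Pool.Agent.MP81cdd9.HZ

open Finset

/-- PROOF. `C1` and induction on `c`: `19 m c ≤ cnt S (2 (c (20 m)))` if `c (20 m) ≤ H`. -/
theorem cells_ge (S : Finset ℕ) (m H c : ℕ) (hC : C1 S m H) (hc : c * (20 * m) ≤ H) :
    19 * m * c ≤ cnt S (2 * (c * (20 * m))) := by
  induction c with
  | zero => simp
  | succ c ih =>
    have h1 : c * (20 * m) ≤ H := le_trans (Nat.mul_le_mul_right _ (Nat.le_succ c)) hc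
    have h2 := ih h1
    have h3 := hC c hc
    have h4 : 19 * m * (c + 1) = 19 * m * c + 19 * m := by ring
    omega

/-- PROOF. Let `c = (i/2) / (20 m)`. `c (20 m) ≤ i/2 ≤ H` (`i < L`, `H = L/2`), `i + 1 ≤ 2 (c + 1) (20 m) = 40 m (c+1)`, so `2^i ≤ 2^(40 m (c+1))`, and
`cnt S (i+1) ≥ 19 m c`, so `5^(cnt S (i+1)) ≥ 5^(19 m c) ≥ 2^(44 m c) ≥ 2^(40 m c)`. -/
theorem weight_le (S : Finset ℕ) (m L i : ℕ) (hm : 1 ≤ m) (hC : C1 S m (L / 2)) (hi : i < L) :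
    2 ^ i ≤ 2 ^ (40 * m) * 5 ^ cnt S (i + 1) := by
  have hm' : 0 < 20 * m := by omega
  obtain ⟨c, hc⟩ : ∃ c, c = (i / 2) / (20 * m) := ⟨_, rfl⟩
  have h1 : c * (20 * m) ≤ i / 2 := by
    rw [hc]
    exact Nat.div_mul_le_self _ _
  have h2 : i / 2 < (c + 1) * (20 * m) := by
    rw [hc, add_mul, one_mul]
    exact Nat.lt_div_mul_add hm'
  have h3 := cells_ge S m (L / 2) c hC (by omega)
  have h4 : cnt S (2 * (c * (20 * m))) ≤ cnt S (i + 1) := cnt_mono S (by omega)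
  have h5 : i ≤ 40 * m + 40 * m * c := by
    have : 40 * m + 40 * m * c = 2 * ((c + 1) * (20 * m)) := by ring
    omega
  calc 2 ^ i ≤ 2 ^ (40 * m + 40 * m * c) := Nat.pow_le_pow_right (by norm_num) h5
    _ = 2 ^ (40 * m) * (2 ^ 40) ^ (m * c) := by rw [pow_add, ← pow_mul, mul_assoc]
    _ ≤ 2 ^ (40 * m) * (5 ^ 19) ^ (m * c) :=
        Nat.mul_le_mul_left _ (Nat.pow_le_pow_left (by norm_num) _)
    _ = 2 ^ (40 * m) * 5 ^ (19 * m * c) := by rw [← pow_mul, mul_assoc]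
    _ ≤ 2 ^ (40 * m) * 5 ^ cnt S (i + 1) :=
        Nat.mul_le_mul_left _ (Nat.pow_le_pow_right (by norm_num) (h3.trans h4))

/-- The first `L` steps.
PROOF. `iter_formula` with `k = L` (`cnt_par`), `c = card`: every term of the sum is `2^i 5^(c - cnt (i+1)) ≤ 2^(40m) 5^c` (`weight_le`),
there are at most `L` terms. So `2^L |T^L n| ≥ 5^c |n| - L 2^(40 m) 5^c ≥ 5^c |n| / 2`. -/
theorem growth_first (m L : ℕ) (n : ℤ) (hm : 1 ≤ m) (hC : C1 (par L n) m (L / 2))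
    (hn : 2 * (L * 2 ^ (40 * m)) ≤ |n|) : 5 ^ (par L n).card * |n| ≤ 2 ^ (L + 1) * |T^[L] n| := by
  have hf := iter_formula L n L le_rfl
  rw [cnt_par] at hf
  obtain ⟨c, hc⟩ : ∃ c, c = (par L n).card := ⟨_, rfl⟩
  rw [← hc] at hf ⊢
  have hterm : ∀ i ∈ (par L n).filter (fun i => i < L),
      (2 : ℤ) ^ i * 5 ^ (c - cnt (par L n) (i + 1)) ≤ 2 ^ (40 * m) * 5 ^ c := by
    intro i hi
    rw [mem_filter] at hi
    have h1 := weight_le (par L n) m L i hm hC hi.2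
    have h2 : cnt (par L n) (i + 1) ≤ c := by
      rw [hc, ← cnt_par]
      exact cnt_mono _ hi.2
    have h3 : (2 : ℕ) ^ i * 5 ^ (c - cnt (par L n) (i + 1)) ≤ 2 ^ (40 * m) * 5 ^ c := by
      calc (2 : ℕ) ^ i * 5 ^ (c - cnt (par L n) (i + 1))
          ≤ (2 ^ (40 * m) * 5 ^ cnt (par L n) (i + 1)) * 5 ^ (c - cnt (par L n) (i + 1)) :=
            Nat.mul_le_mul_right _ h1
        _ = 2 ^ (40 * m) * 5 ^ c := by
            rw [mul_assoc, ← pow_add, Nat.add_sub_cancel' h2]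
    exact_mod_cast h3
  have hcard : ((par L n).filter (fun i => i < L)).card ≤ L := by
    have h1 : (par L n).filter (fun i => i < L) ⊆ range L := by
      intro i hi
      rw [mem_filter] at hi
      exact mem_range.2 hi.2
    have := card_le_card h1
    rwa [card_range] at this
  have hsum := sum_le_card_nsmul _ _ _ hterm
  have hsum0 : 0 ≤ ∑ i ∈ (par L n).filter (fun i => i < L), (2 : ℤ) ^ i * 5 ^ (c - cnt (par L n) (i + 1)) :=
    sum_nonneg fun i _ => by positivity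
  generalize ∑ i ∈ (par L n).filter (fun i => i < L), (2 : ℤ) ^ i * 5 ^ (c - cnt (par L n) (i + 1)) = W
    at hf hsum hsum0
  have h5 : (0 : ℤ) < 5 ^ c := by positivity
  have hsum' : W ≤ L * (2 ^ (40 * m) * 5 ^ c) := by
    refine hsum.trans ?_
    rw [nsmul_eq_mul]
    refine mul_le_mul_of_nonneg_right ?_ (by positivity)
    exact_mod_cast hcard
  have h6 : 5 ^ c * |n| ≤ 2 ^ L * |T^[L] n| + W := by
    have h7 : 5 ^ c * n = 2 ^ L * T^[L] n - W := by linarith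
    calc 5 ^ c * |n| = |5 ^ c * n| := by rw [abs_mul, abs_of_pos h5]
      _ = |2 ^ L * T^[L] n - W| := by rw [h7]
      _ ≤ |2 ^ L * T^[L] n| + |W| := abs_sub _ _
      _ = 2 ^ L * |T^[L] n| + W := by
        rw [abs_mul, abs_of_nonneg hsum0, abs_of_pos (by positivity : (0 : ℤ) < 2 ^ L)]
  have h8 : 2 * (L * (2 ^ (40 * m) * 5 ^ c)) ≤ 5 ^ c * |n| := by
    have := mul_le_mul_of_nonneg_left hn h5.le
    calc 2 * (L * (2 ^ (40 * m) * 5 ^ c)) = (5 : ℤ) ^ c * (2 * (L * 2 ^ (40 * m))) := by ring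
      _ ≤ _ := this
  have h9 : (2 : ℤ) ^ (L + 1) * |T^[L] n| = 2 * (2 ^ L * |T^[L] n|) := by ring
  rw [h9]
  linarith

/-- The window.
PROOF. As `growth_first`; the sum is at most `∑_{i < J} 2^i 5^a ≤ 2^J 5^a`, `a = (par J x).card`, and `2^J ≤ |x| / 2`. -/
theorem growth_window (J : ℕ) (x : ℤ) (hx : 2 ^ (J + 1) ≤ |x|) : 5 ^ (par J x).card * |x| ≤ 2 ^ (J + 1) * |T^[J] x| := by
  have hf := iter_formula J x J le_rfl
  rw [cnt_par] at hf
  obtain ⟨c, hc⟩ : ∃ c, c = (par J x).card := ⟨_, rfl⟩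
  rw [← hc] at hf ⊢
  have hsum0 : 0 ≤ ∑ i ∈ (par J x).filter (fun i => i < J), (2 : ℤ) ^ i * 5 ^ (c - cnt (par J x) (i + 1)) :=
    sum_nonneg fun i _ => by positivity
  have hsum : ∑ i ∈ (par J x).filter (fun i => i < J), (2 : ℤ) ^ i * 5 ^ (c - cnt (par J x) (i + 1)) ≤
      2 ^ J * 5 ^ c := by
    have h1 : (par J x).filter (fun i => i < J) ⊆ range J := by
      intro i hi
      rw [mem_filter] at hi
      exact mem_range.2 hi.2
    have h2 : ∀ i ∈ (par J x).filter (fun i => i < J),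
        (2 : ℤ) ^ i * 5 ^ (c - cnt (par J x) (i + 1)) ≤ 2 ^ i * 5 ^ c := by
      intro i _
      exact mul_le_mul_of_nonneg_left (pow_le_pow_right₀ (by norm_num) (Nat.sub_le _ _)) (by positivity)
    have h3 : ∀ k : ℕ, ∑ i ∈ range k, (2 : ℤ) ^ i * 5 ^ c ≤ 2 ^ k * 5 ^ c := by
      intro k
      induction k with
      | zero => simp
      | succ k ih =>
        rw [sum_range_succ]
        calc ∑ i ∈ range k, (2 : ℤ) ^ i * 5 ^ c + 2 ^ k * 5 ^ c ≤ 2 ^ k * 5 ^ c + 2 ^ k * 5 ^ c := by linarith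
          _ = 2 ^ (k + 1) * 5 ^ c := by ring
    calc ∑ i ∈ (par J x).filter (fun i => i < J), (2 : ℤ) ^ i * 5 ^ (c - cnt (par J x) (i + 1))
        ≤ ∑ i ∈ (par J x).filter (fun i => i < J), (2 : ℤ) ^ i * 5 ^ c := sum_le_sum h2
      _ ≤ ∑ i ∈ range J, (2 : ℤ) ^ i * 5 ^ c :=
          sum_le_sum_of_subset_of_nonneg h1 fun i _ _ => by positivity
      _ ≤ 2 ^ J * 5 ^ c := h3 J
  generalize ∑ i ∈ (par J x).filter (fun i => i < J), (2 : ℤ) ^ i * 5 ^ (c - cnt (par J x) (i + 1)) = W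
    at hf hsum hsum0
  have h5 : (0 : ℤ) < 5 ^ c := by positivity
  have h6 : 5 ^ c * |x| ≤ 2 ^ J * |T^[J] x| + W := by
    have h7 : 5 ^ c * x = 2 ^ J * T^[J] x - W := by linarith
    calc 5 ^ c * |x| = |5 ^ c * x| := by rw [abs_mul, abs_of_pos h5]
      _ = |2 ^ J * T^[J] x - W| := by rw [h7]
      _ ≤ |2 ^ J * T^[J] x| + |W| := abs_sub _ _
      _ = 2 ^ J * |T^[J] x| + W := by
        rw [abs_mul, abs_of_nonneg hsum0, abs_of_pos (by positivity : (0 : ℤ) < 2 ^ J)]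
  have h8 : 2 * (2 ^ J * 5 ^ c) ≤ 5 ^ c * |x| := by
    have := mul_le_mul_of_nonneg_left hx h5.le
    calc 2 * (2 ^ J * 5 ^ c) = (5 : ℤ) ^ c * 2 ^ (J + 1) := by ring
      _ ≤ _ := this
  have h9 : (2 : ℤ) ^ (J + 1) * |T^[J] x| = 2 * (2 ^ J * |T^[J] x|) := by ring
  rw [h9]
  linarith

/-- Together.
PROOF. `T^[L + J] n = T^[J] (T^[L] n)` (`Function.iterate_add_apply`); `2^(L+1) |T^L n| ≥ 5^a |n| ≥ 5^a ≥ 2^(L+1+J+1)`. -/
theorem growth (m L J : ℕ) (n : ℤ) (hm : 1 ≤ m) (hC : C1 (par L n) m (L / 2))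
    (hn : 2 * (L * 2 ^ (40 * m)) ≤ |n|) (hn1 : 1 ≤ |n|) (ha : 2 ^ (L + J + 2) ≤ 5 ^ (par L n).card) :
    5 ^ ((par L n).card + (par J (T^[L] n)).card) * |n| ≤ 2 ^ (L + J + 2) * |T^[L + J] n| := by
  have h1 := growth_first m L n hm hC hn
  have h2 : (2 : ℤ) ^ (J + 1) ≤ |T^[L] n| := by
    have h3 : (2 : ℤ) ^ (L + J + 2) ≤ 2 ^ (L + 1) * |T^[L] n| := by
      calc (2 : ℤ) ^ (L + J + 2) ≤ 5 ^ (par L n).card := by exact_mod_cast ha
        _ ≤ 5 ^ (par L n).card * |n| := le_mul_of_one_le_right (by positivity) hn1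
        _ ≤ _ := h1
    have h4 : (2 : ℤ) ^ (L + J + 2) = 2 ^ (L + 1) * 2 ^ (J + 1) := by
      rw [← pow_add]
      congr 1
      omega
    rw [h4] at h3
    exact le_of_mul_le_mul_left h3 (by positivity)
  have h3 := growth_window J (T^[L] n) h2
  have h4 : T^[L + J] n = T^[J] (T^[L] n) := by
    rw [add_comm, Function.iterate_add_apply]
  rw [h4]
  calc (5 : ℤ) ^ ((par L n).card + (par J (T^[L] n)).card) * |n|
      = 5 ^ (par J (T^[L] n)).card * (5 ^ (par L n).card * |n|) := by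
        rw [pow_add]
        ring
    _ ≤ 5 ^ (par J (T^[L] n)).card * (2 ^ (L + 1) * |T^[L] n|) :=
        mul_le_mul_of_nonneg_left h1 (by positivity)
    _ = 2 ^ (L + 1) * (5 ^ (par J (T^[L] n)).card * |T^[L] n|) := by ring
    _ ≤ 2 ^ (L + 1) * (2 ^ (J + 1) * |T^[J] (T^[L] n)|) :=
        mul_le_mul_of_nonneg_left h3 (by positivity)
    _ = 2 ^ (L + J + 2) * |T^[J] (T^[L] n)| := by
        rw [← mul_assoc, ← pow_add]
        congr 2
        omega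

end Pool.Agent.MP81cdd9.HZ
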