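import Mathlib

/-! Growth. -/

set_option autoImplicit false

namespace Pool.Agent.MP81cdd9.HZ

open Finset

/-- The exponent.
PROOF. `γ = log 5 / (2 log 2)`; take logarithms (base 2: divide by `log 2`), `ν = log x / log 2 ∈ [L, L+1]`. Claim:
`(γ + c) ν ≤ ν + 2 γ (a + a') - (L + J + 2)`. `2 γ (a + a') ≥ 2 γ ((1/2 - e/400) L + 7 J/16)`, `(γ - 1) ν ≤ (γ - 1) L + 1`
(`1 < γ < 2`), so it is enough that `c (L+1) + 3 ≤ - 2 γ e L / 400 + J (7 γ/8 - 1)`; `7γ/8 - 1 ≥ 1/64` (`5^28 ≥ 2^65`), `γ ≤ 5/4`, `J ≥ e L`, `c = e/400`: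
`e L/64 - e L/160 - e (L+1)/400 - 3 ≥ e L/160·... ≥ 0` for `e L ≥ 1000`. (`1/64 - 1/160 - 1/400 = 0.006875`.) -/
theorem exponent (e x y : ℝ) (he : 0 < e) (he1 : e ≤ 1) (L J a a' : ℕ) (hL : 1000 ≤ e * L) (hJ : e * L ≤ J)
    (ha : (1 / 2 - e / 400) * L ≤ a) (ha' : 7 * (J : ℝ) ≤ 16 * a') (hx : 2 ^ L ≤ x) (hx2 : x ≤ 2 ^ (L + 1))
    (hy : 5 ^ (a + a') * x ≤ 2 ^ (L + J + 2) * y) :
    x ^ (Real.log 5 / (2 * Real.log 2) + e / 400) ≤ y := by
  have hu : 0 < Real.log 2 := Real.log_pos (by norm_num)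
  set u := Real.log 2 with hudef
  set v := Real.log 5 with hvdef
  have hx0 : 0 < x := lt_of_lt_of_le (by positivity) hx
  have hy0 : 0 < y := by
    have h1 : 0 < 5 ^ (a + a') * x := by positivity
    have h2 : 0 < 2 ^ (L + J + 2) * y := lt_of_lt_of_le h1 hy
    exact (pos_iff_pos_of_mul_pos h2).1 (by positivity)
  have hv1 : 2 * v ≤ 5 * u := by
    have h1 : Real.log ((5 : ℝ) ^ 2) ≤ Real.log ((2 : ℝ) ^ 5) :=
      Real.log_le_log (by norm_num) (by norm_num)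
    rw [Real.log_pow, Real.log_pow] at h1
    push_cast at h1
    exact h1
  have hv2 : 65 * u ≤ 28 * v := by
    have h1 : Real.log ((2 : ℝ) ^ 65) ≤ Real.log ((5 : ℝ) ^ 28) :=
      Real.log_le_log (by norm_num) (by norm_num)
    rw [Real.log_pow, Real.log_pow] at h1
    push_cast at h1
    exact h1
  set γ := v / (2 * u) with hγ
  have hvγ : v = 2 * γ * u := by
    rw [hγ]
    field_simp
  have hγ1 : γ ≤ 5 / 4 := by
    rw [hγ, div_le_iff₀ (by positivity)]
    linarith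
  have hγ2 : 65 / 56 ≤ γ := by
    rw [hγ, le_div_iff₀ (by positivity)]
    linarith
  set ν := Real.log x / u with hν
  have hxν : Real.log x = ν * u := by
    rw [hν]
    field_simp
  have hν1 : ν ≤ L + 1 := by
    rw [hν, div_le_iff₀ hu]
    have h1 := Real.log_le_log hx0 hx2
    rw [Real.log_pow] at h1
    push_cast at h1
    exact h1
  have hlog : (a + a' : ℝ) * v + Real.log x ≤ (L + J + 2 : ℝ) * u + Real.log y := by
    have h1 := Real.log_le_log (by positivity) hy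
    rw [Real.log_mul (by positivity) hx0.ne', Real.log_mul (by positivity) hy0.ne', Real.log_pow,
      Real.log_pow] at h1
    push_cast at h1
    exact h1
  have hL0 : (0 : ℝ) ≤ L := Nat.cast_nonneg L
  have h1 : (γ - 1) * ν ≤ (γ - 1) * (L + 1) := mul_le_mul_of_nonneg_left hν1 (by linarith)
  have h2 : e / 400 * ν ≤ e / 400 * (L + 1) := mul_le_mul_of_nonneg_left hν1 (by positivity)
  have h3 : γ * ((1 / 2 - e / 400) * L) ≤ γ * a := mul_le_mul_of_nonneg_left ha (by linarith)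
  have h4 : γ * (7 * (J : ℝ)) ≤ γ * (16 * a') := mul_le_mul_of_nonneg_left ha' (by linarith)
  have h5 : (1 / 64 : ℝ) * J ≤ (7 * γ / 8 - 1) * J :=
    mul_le_mul_of_nonneg_right (by linarith) (Nat.cast_nonneg J)
  have h6 : γ * (e * L) ≤ 5 / 4 * (e * L) := mul_le_mul_of_nonneg_right hγ1 (by positivity)
  have key : (γ + e / 400) * ν ≤ 2 * γ * (a + a') + ν - (L + J + 2) := by
    nlinarith
  have h7 := mul_le_mul_of_nonneg_right key hu.le
  have h8 : (γ + e / 400) * Real.log x ≤ Real.log y := by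
    rw [hvγ, hxν] at hlog
    rw [hxν]
    nlinarith
  rw [Real.rpow_def_of_pos hx0, ← Real.le_log_iff_exp_le hy0, mul_comm]
  exact h8

end Pool.Agent.MP81cdd9.HZ
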