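import Pool.Agent.Lib.MP_81cdd9_nt.HZ.Defs

/-! Density one from dyadic blocks. -/

set_option autoImplicit false

namespace Pool.Agent.MP81cdd9.HZ

open Finset

/-- density one, as in the problem -/
def DensityOne (A : Set ℤ) : Prop :=
  Filter.Tendsto (fun N : ℕ => ((Set.Icc (-(N : ℤ)) (N : ℤ) ∩ A).ncard : ℝ) / (2 * (N : ℝ) + 1)) Filter.atTop (nhds 1)

open Classical in
/-- Dyadic blocks.
PROOF. Let `bad N = #{n : |n| ≤ N, n ∉ A} = (2N+1) - #(..∩ A)`. It is enough that for every `δ > 0`: `bad N ≤ 4 δ N + C` for large `N` with a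
constant `C`. For `N < 2^(L1+1)`, `2^L1 ≤ N`: every `n` with `|n| ≤ N`, `n ∉ A`, is either in `[-2^L0, 2^L0]`, or in one of the blocks
`[2^L, 2^(L+1))`, `[-2^(L+1), -2^L)` with `L0 ≤ L ≤ L1` (a negative `n` with `2^L < |n| ≤ 2^(L+1)`). Sum:
`∑_{L ≤ L1} 2 δ 2^L ≤ 4 δ 2^L1 ≤ 4 δ N`. -/
theorem density_of_blocks (A : Set ℤ) (h : ∀ δ : ℝ, 0 < δ → ∃ L0 : ℕ, ∀ L ≥ L0,
      (((Ico ((2 : ℤ) ^ L) (2 ^ (L + 1))).filter (fun n => n ∉ A)).card : ℝ) ≤ δ * 2 ^ L ∧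
      (((Ico (-(2 : ℤ) ^ (L + 1)) (-2 ^ L)).filter (fun n => n ∉ A)).card : ℝ) ≤ δ * 2 ^ L) :
    DensityOne A := by
  set S : ℕ → Finset ℤ := fun L => (Ico (-(2 : ℤ) ^ L) (2 ^ L)).filter (fun n => n ∉ A) with hSdef
  rw [DensityOne, Metric.tendsto_atTop]
  intro ε hε
  obtain ⟨L0, hL0⟩ := h (ε / 4) (by positivity)
  have hS : ∀ k : ℕ, ((S (L0 + k)).card : ℝ) ≤
      (S L0).card + 2 * (ε / 4) * (2 ^ (L0 + k) - 2 ^ L0) := by
    intro k
    induction k with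
    | zero => simp
    | succ k ih =>
      obtain ⟨h1, h2⟩ := hL0 (L0 + k) (by omega)
      set L := L0 + k with hL
      have hsub : S (L0 + (k + 1)) ⊆ S L ∪
          (((Ico ((2 : ℤ) ^ L) (2 ^ (L + 1))).filter (fun n => n ∉ A)) ∪
            ((Ico (-(2 : ℤ) ^ (L + 1)) (-2 ^ L)).filter (fun n => n ∉ A))) := by
        intro n hn
        simp only [hSdef, mem_union, mem_filter, mem_Ico] at hn ⊢
        have e1 : L0 + (k + 1) = L + 1 := by omega
        rw [e1] at hn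
        obtain ⟨⟨h3, h4⟩, h5⟩ := hn
        by_cases c1 : (2 : ℤ) ^ L ≤ n
        · exact Or.inr (Or.inl ⟨⟨c1, h4⟩, h5⟩)
        · by_cases c2 : n < -2 ^ L
          · exact Or.inr (Or.inr ⟨⟨h3, c2⟩, h5⟩)
          · exact Or.inl ⟨⟨not_lt.1 c2, not_le.1 c1⟩, h5⟩
      have h3 : (S (L0 + (k + 1))).card ≤ (S L).card +
          (((Ico ((2 : ℤ) ^ L) (2 ^ (L + 1))).filter (fun n => n ∉ A)).card +
            ((Ico (-(2 : ℤ) ^ (L + 1)) (-2 ^ L)).filter (fun n => n ∉ A)).card) :=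
        (card_le_card hsub).trans ((card_union_le _ _).trans
          (Nat.add_le_add_left (card_union_le _ _) _))
      have h4 : ((S (L0 + (k + 1))).card : ℝ) ≤ (S L).card +
          (((Ico ((2 : ℤ) ^ L) (2 ^ (L + 1))).filter (fun n => n ∉ A)).card +
            ((Ico (-(2 : ℤ) ^ (L + 1)) (-2 ^ L)).filter (fun n => n ∉ A)).card) := by
        exact_mod_cast h3
      have e2 : (2 : ℝ) ^ (L0 + (k + 1)) = 2 * 2 ^ L := by
        rw [← add_assoc, ← hL, pow_succ]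
        ring
      rw [e2]
      linarith
  obtain ⟨N1, hN1⟩ := exists_nat_gt (((S L0).card : ℝ) / ε)
  refine ⟨max (2 ^ L0) N1, fun N hN => ?_⟩
  have hNL : 2 ^ L0 ≤ N := (le_max_left _ _).trans hN
  have hNN1 : N1 ≤ N := (le_max_right _ _).trans hN
  have hN0 : N ≠ 0 := by
    have : 0 < 2 ^ L0 := by positivity
    omega
  have hlog : L0 ≤ Nat.log 2 N := Nat.le_log_of_pow_le (by norm_num) hNL
  have hlog1 : 2 ^ Nat.log 2 N ≤ N := Nat.pow_log_le_self 2 hN0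
  have hlog2 : N < 2 ^ (Nat.log 2 N + 1) := Nat.lt_pow_succ_log_self (by norm_num) N
  set L1 := Nat.log 2 N + 1 with hL1
  have hbad : ((Icc (-(N : ℤ)) N).filter (fun n => n ∉ A)).card ≤ (S L1).card := by
    refine card_le_card fun n hn => ?_
    simp only [hSdef, mem_filter, mem_Icc, mem_Ico] at hn ⊢
    obtain ⟨⟨h3, h4⟩, h5⟩ := hn
    have h6 : (N : ℤ) < 2 ^ L1 := by exact_mod_cast hlog2
    exact ⟨⟨by linarith, by linarith⟩, h5⟩
  have hSL1 : ((S L1).card : ℝ) ≤ (S L0).card + 2 * (ε / 4) * (2 * N) := by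
    obtain ⟨k, hk⟩ := Nat.exists_eq_add_of_le (show L0 ≤ L1 by omega)
    have h3 := hS k
    rw [← hk] at h3
    have h4 : (2 : ℝ) ^ L1 ≤ 2 * N := by
      have h5 : 2 ^ L1 ≤ 2 * N := by
        rw [hL1, pow_succ]
        omega
      exact_mod_cast h5
    have h5 : (0 : ℝ) ≤ 2 ^ L0 := by positivity
    have h6 : 2 * (ε / 4) * ((2 : ℝ) ^ L1 - 2 ^ L0) ≤ 2 * (ε / 4) * (2 * N) :=
      mul_le_mul_of_nonneg_left (by linarith) (by positivity)
    linarith
  have hcard : ((Set.Icc (-(N : ℤ)) (N : ℤ) ∩ A).ncard : ℝ) =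
      2 * N + 1 - ((Icc (-(N : ℤ)) N).filter (fun n => n ∉ A)).card := by
    have e1 : Set.Icc (-(N : ℤ)) (N : ℤ) ∩ A =
        (((Icc (-(N : ℤ)) N).filter (fun n => n ∈ A) : Finset ℤ) : Set ℤ) := by
      ext n
      simp
    rw [e1, Set.ncard_coe_finset]
    have e2 := card_filter_add_card_filter_not (s := Icc (-(N : ℤ)) N) (fun n => n ∈ A)
    rw [Int.card_Icc] at e2
    have e3 : ((N : ℤ) + 1 - -(N : ℤ)).toNat = 2 * N + 1 := by omega
    rw [e3] at e2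
    have e4 : ((((Icc (-(N : ℤ)) N).filter (fun n => n ∈ A)).card : ℝ) +
        ((Icc (-(N : ℤ)) N).filter (fun n => n ∉ A)).card) = 2 * N + 1 := by
      exact_mod_cast e2
    linarith
  have hpos : (0 : ℝ) < 2 * N + 1 := by positivity
  have hb : (((Icc (-(N : ℤ)) N).filter (fun n => n ∉ A)).card : ℝ) ≤
      (S L0).card + ε * N := by
    have h3 : (((Icc (-(N : ℤ)) N).filter (fun n => n ∉ A)).card : ℝ) ≤ (S L1).card := by
      exact_mod_cast hbad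
    linarith
  have hC : ((S L0).card : ℝ) < ε * N := by
    have h3 : ((S L0).card : ℝ) / ε < N := lt_of_lt_of_le hN1 (by exact_mod_cast hNN1)
    rw [div_lt_iff₀ hε] at h3
    linarith
  rw [hcard, Real.dist_eq]
  have e5 : (2 * (N : ℝ) + 1 - (((Icc (-(N : ℤ)) N).filter (fun n => n ∉ A)).card : ℝ)) /
      (2 * N + 1) - 1 =
      -((((Icc (-(N : ℤ)) N).filter (fun n => n ∉ A)).card : ℝ) / (2 * N + 1)) := by
    field_simp
    ring
  rw [e5, abs_neg, abs_of_nonneg (by positivity), div_lt_iff₀ hpos]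
  linarith

end Pool.Agent.MP81cdd9.HZ
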