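import Pool.Agent.Lib.MP_81cdd9_nt.HZ.F1b
import Pool.Agent.Lib.MP_81cdd9_nt.HZ.G3

/-! From dyadic blocks to density one. -/

set_option autoImplicit false

namespace Pool.Agent.MP81cdd9.HZ

open Finset

/-- Transfer: the number of `n` in a block whose parity set has a property is at most the number of sets. -/
theorem transfer (L : ℕ) (k0 : ℤ) (F : Finset ℕ → Prop) [DecidablePred F] :
    ((Ico (k0 * 2 ^ L) ((k0 + 1) * 2 ^ L)).filter (fun n => F (par L n))).card ≤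
      ((range L).powerset.filter F).card := by
  refine Finset.card_le_card_of_injOn (par L) ?_ ?_
  · intro n hn
    simp only [coe_filter, Set.mem_ofPred_eq] at hn ⊢
    refine ⟨?_, hn.2⟩
    rw [Finset.mem_powerset]
    exact Finset.filter_subset _ _
  · intro n hn n' hn' h
    simp only [coe_filter, Set.mem_ofPred_eq, mem_Ico] at hn hn'
    have h1 := par_inj L n n' h
    obtain ⟨t, ht⟩ := h1
    have hp : (0 : ℤ) < 2 ^ L := by positivity
    have h2 : |n - n'| < 2 ^ L := by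
      rw [abs_lt]
      constructor <;> nlinarith [hn.1.1, hn.1.2, hn'.1.1, hn'.1.2]
    have h3 : t = 0 := by
      by_contra hne
      have h4 : 1 ≤ |t| := Int.one_le_abs hne
      rw [ht, abs_mul, abs_of_pos hp] at h2
      nlinarith
    rw [h3, mul_zero] at ht
    linarith

/-- Density one from events in dyadic blocks. -/
theorem density_of_events (P : ℕ → ℤ → Prop) (A : Set ℤ)
    (hA : ∃ L1 : ℕ, ∀ L ≥ L1, ∀ n : ℤ, 2 ^ L ≤ |n| → |n| < 2 ^ (L + 1) → P L n → n ∈ A)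
    (h : ∀ δ : ℝ, 0 < δ → ∃ L0 : ℕ, ∀ L ≥ L0, ∀ k0 : ℤ,
      ({n : ℤ | n ∈ Ico (k0 * 2 ^ L) ((k0 + 1) * 2 ^ L) ∧ ¬ P L n}.ncard : ℝ) ≤ δ * 2 ^ L) :
    DensityOne A := by
  classical
  obtain ⟨L1, hL1⟩ := hA
  refine density_of_blocks A ?_
  intro δ hδ
  obtain ⟨L0, hL0⟩ := h (δ / 2) (by positivity)
  obtain ⟨L2, hL2⟩ := pow_unbounded_of_one_lt (2 / δ) (one_lt_two : (1 : ℝ) < 2)
  refine ⟨max (max L0 L1) L2, ?_⟩
  intro L hL
  have hLL0 : L0 ≤ L := le_trans (le_trans (le_max_left _ _) (le_max_left _ _)) hL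
  have hLL1 : L1 ≤ L := le_trans (le_trans (le_max_right _ _) (le_max_left _ _)) hL
  have hLL2 : L2 ≤ L := le_trans (le_max_right _ _) hL
  have hbig : (1 : ℝ) ≤ δ / 2 * 2 ^ L := by
    have h1 : (2 : ℝ) / δ ≤ 2 ^ L := le_trans hL2.le (pow_le_pow_right₀ (by norm_num) hLL2)
    have h2 : (2 : ℝ) ≤ 2 ^ L * δ := by rwa [div_le_iff₀ hδ] at h1
    linarith
  have hp : (0 : ℤ) < 2 ^ L := by positivity
  have hfin : ∀ k0 : ℤ, {n : ℤ | n ∈ Ico (k0 * 2 ^ L) ((k0 + 1) * 2 ^ L) ∧ ¬ P L n}.Finite := fun k0 =>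
    (Ico (k0 * 2 ^ L) ((k0 + 1) * 2 ^ L)).finite_toSet.subset (fun n hn => hn.1)
  constructor
  · have h1 := hL0 L hLL0 1
    have h2 : (((Ico ((2 : ℤ) ^ L) (2 ^ (L + 1))).filter (fun n => n ∉ A)).card) ≤
        {n : ℤ | n ∈ Ico ((1 : ℤ) * 2 ^ L) ((1 + 1) * 2 ^ L) ∧ ¬ P L n}.ncard := by
      rw [← Set.ncard_coe_finset]
      refine Set.ncard_le_ncard ?_ (hfin 1)
      intro n hn
      simp only [coe_filter, Set.mem_ofPred_eq, mem_Ico] at hn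
      simp only [Set.mem_ofPred_eq, mem_Ico]
      have e1 : (2 : ℤ) ^ (L + 1) = 2 * 2 ^ L := by rw [pow_succ]; ring
      refine ⟨⟨by linarith [hn.1.1], by linarith [hn.1.2]⟩, ?_⟩
      intro hP
      refine hn.2 (hL1 L hLL1 n ?_ ?_ hP)
      · rw [abs_of_pos (lt_of_lt_of_le hp hn.1.1)]; exact hn.1.1
      · rw [abs_of_pos (lt_of_lt_of_le hp hn.1.1)]; exact hn.1.2
    calc (((Ico ((2 : ℤ) ^ L) (2 ^ (L + 1))).filter (fun n => n ∉ A)).card : ℝ)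
        ≤ ({n : ℤ | n ∈ Ico ((1 : ℤ) * 2 ^ L) ((1 + 1) * 2 ^ L) ∧ ¬ P L n}.ncard : ℝ) := by exact_mod_cast h2
      _ ≤ δ / 2 * 2 ^ L := h1
      _ ≤ δ * 2 ^ L := by
        have : (0 : ℝ) < 2 ^ L := by positivity
        nlinarith
  · have h1 := hL0 L hLL0 (-2)
    have h2 : (((Ico (-(2 : ℤ) ^ (L + 1)) (-2 ^ L)).filter (fun n => n ∉ A)).card) ≤
        {n : ℤ | n ∈ Ico ((-2 : ℤ) * 2 ^ L) ((-2 + 1) * 2 ^ L) ∧ ¬ P L n}.ncard + 1 := by
      rw [← Set.ncard_coe_finset]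
      refine le_trans (Set.ncard_le_ncard (t := insert (-(2 : ℤ) ^ (L + 1))
        {n : ℤ | n ∈ Ico ((-2 : ℤ) * 2 ^ L) ((-2 + 1) * 2 ^ L) ∧ ¬ P L n}) ?_ ((hfin (-2)).insert _))
        (Set.ncard_insert_le _ _)
      intro n hn
      simp only [coe_filter, Set.mem_ofPred_eq, mem_Ico] at hn
      simp only [Set.mem_insert_iff, Set.mem_ofPred_eq, mem_Ico]
      have e1 : (2 : ℤ) ^ (L + 1) = 2 * 2 ^ L := by rw [pow_succ]; ring
      by_cases hn0 : n = -(2 : ℤ) ^ (L + 1)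
      · exact Or.inl hn0
      · right
        refine ⟨⟨by linarith [hn.1.1], by linarith [hn.1.2]⟩, ?_⟩
        intro hP
        have hneg : n < 0 := by linarith [hn.1.2]
        refine hn.2 (hL1 L hLL1 n ?_ ?_ hP)
        · rw [abs_of_neg hneg]; linarith [hn.1.2]
        · rw [abs_of_neg hneg]
          have : -(2 : ℤ) ^ (L + 1) < n := lt_of_le_of_ne hn.1.1 (Ne.symm hn0)
          linarith
    calc (((Ico (-(2 : ℤ) ^ (L + 1)) (-2 ^ L)).filter (fun n => n ∉ A)).card : ℝ)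
        ≤ (({n : ℤ | n ∈ Ico ((-2 : ℤ) * 2 ^ L) ((-2 + 1) * 2 ^ L) ∧ ¬ P L n}.ncard + 1 : ℕ) : ℝ) := by
          exact_mod_cast h2
      _ ≤ δ / 2 * 2 ^ L + 1 := by push_cast; linarith [h1]
      _ ≤ δ * 2 ^ L := by linarith

end Pool.Agent.MP81cdd9.HZ
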