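import Pool.Agent.Lib.MP_81cdd9_nt.HZ.F9c
import Pool.Agent.Lib.MP_81cdd9_nt.HZ.G4

/-! The entropy theorem. -/

set_option autoImplicit false

namespace Pool.Agent.MP81cdd9.HZ

open Finset

/-- The core theorem for all `J = ⌊ε L⌋`. -/
theorem block_entropy (κ : ℝ) (hκ : 0 < κ) : ∃ ε : ℝ, 0 < ε ∧ ε ≤ 1 ∧ ∀ R : ℕ → Finset ℤ,
    (∀ L : ℕ, ((R L).card : ℝ) ≤ (2 : ℝ) ^ ((1 - κ) * (⌊ε * L⌋₊ : ℝ))) → ∀ δ : ℝ, 0 < δ → ∃ L0 : ℕ, ∀ L ≥ L0,
    ∀ k0 : ℤ, (((Ico (k0 * 2 ^ L) ((k0 + 1) * 2 ^ L)).filter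
      (fun n => (T^[L] n) % 2 ^ ⌊ε * L⌋₊ ∈ R L)).card : ℝ) ≤ δ * 2 ^ L := by
  classical
  obtain ⟨q, hq1, hq2⟩ : ∃ q : ℕ, 1 ≤ q ∧ 2 ≤ κ * q := by
    obtain ⟨q, hq⟩ := exists_nat_gt (2 / κ)
    refine ⟨q + 1, by omega, ?_⟩
    have : 2 < q * κ := by rwa [div_lt_iff₀ hκ] at hq
    push_cast
    nlinarith
  obtain ⟨C, hC1, hCq, hC⟩ := core q hq1
  obtain ⟨P, hP⟩ : ∃ P : ℕ, P = q * N3 q := ⟨_, rfl⟩
  have hP1 : 1 ≤ P := by
    rw [hP]
    have h1 : 1 ≤ N3 q := by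
      unfold N3 rh N0
      have : 0 < 4800 * (10 * (120 * q + 2)) ^ 2 := by positivity
      omega
    exact Nat.one_le_iff_ne_zero.2 (Nat.mul_ne_zero (by omega) (by omega))
  have hC0 : (0 : ℝ) < C := by exact_mod_cast hC1
  refine ⟨(P : ℝ) / C, by positivity, ?_, ?_⟩
  · rw [div_le_one hC0]
    have h1 : P ≤ C := by rw [hP]; omega
    exact_mod_cast h1
  intro R hR δ hδ
  obtain ⟨b0, hb0, hb⟩ := hC δ hδ
  refine ⟨C * (max b0 q), ?_⟩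
  intro L hL k0
  set b : ℕ := L / C with hbdef
  have hbge : max b0 q ≤ b := (Nat.le_div_iff_mul_le (by omega)).2 (by rw [mul_comm]; exact hL)
  have hbb0 : b0 ≤ b := le_trans (le_max_left _ _) hbge
  have hbq : q ≤ b := le_trans (le_max_right _ _) hbge
  have hb1 : C * b ≤ L := Nat.mul_div_le L C
  have hb2 : L < C * (b + 1) := by
    have := Nat.lt_mul_div_succ L (show 0 < C by omega)
    simpa [hbdef] using this
  have hb3 : L ≤ 3 * (C * b) := by nlinarith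
  set J' : ℕ := ⌊(P : ℝ) / C * L⌋₊ with hJ'
  have hJ1 : P * b ≤ J' := by
    refine Nat.le_floor ?_
    rw [div_mul_eq_mul_div, le_div_iff₀ hC0]
    push_cast
    have : ((C * b : ℕ) : ℝ) ≤ L := by exact_mod_cast hb1
    push_cast at this
    have hP0 : (0 : ℝ) ≤ P := by positivity
    nlinarith
  have hJ2 : (J' : ℝ) ≤ P * (b + 1) := by
    refine le_trans (Nat.floor_le (by positivity)) ?_
    rw [div_mul_eq_mul_div, div_le_iff₀ hC0]
    have : (L : ℝ) ≤ ((C * (b + 1) : ℕ) : ℝ) := by exact_mod_cast hb2.le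
    push_cast at this
    have hP0 : (0 : ℝ) ≤ P := by positivity
    nlinarith
  set R' : Finset ℤ := (R L).image (fun x => x % 2 ^ (P * b)) with hR'
  have hcard : R'.card ≤ 2 ^ ((q - 1) * N3 q * b) := by
    have h1 : (R'.card : ℝ) ≤ (R L).card := by exact_mod_cast Finset.card_image_le
    have h2 := hR L
    have h3 : (1 - κ) * (J' : ℝ) ≤ (((q - 1) * N3 q * b : ℕ) : ℝ) := by
      by_cases hk : 1 ≤ κ
      · have : (1 - κ) * (J' : ℝ) ≤ 0 := mul_nonpos_of_nonpos_of_nonneg (by linarith) (by positivity)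
        exact le_trans this (Nat.cast_nonneg _)
      · push Not at hk
        have hqr : (2 : ℝ) < q := by nlinarith
        have hq3 : 2 < q := by exact_mod_cast hqr
        have h5 : (((q - 1) * N3 q * b : ℕ) : ℝ) = ((q : ℝ) - 1) * N3 q * b := by
          rw [Nat.cast_mul, Nat.cast_mul, Nat.cast_sub hq1, Nat.cast_one]
        rw [h5]
        have h6 : (1 - κ) * (J' : ℝ) ≤ (1 - κ) * (P * (b + 1)) := mul_le_mul_of_nonneg_left hJ2 (by linarith)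
        refine le_trans h6 ?_
        have h7 : (P : ℝ) = q * N3 q := by rw [hP]; push_cast; ring
        rw [h7]
        have hN0 : (0 : ℝ) ≤ N3 q := by positivity
        have h8 : (1 - κ) * ((q : ℝ) * (b + 1)) ≤ ((q : ℝ) - 1) * b := by
          have hbr : (q : ℝ) ≤ b := by exact_mod_cast hbq
          have h9 : (1 - κ) * (q : ℝ) ≤ q - 2 := by nlinarith
          have h10 : (1 - κ) * ((q : ℝ) * (b + 1)) ≤ ((q : ℝ) - 2) * (b + 1) := by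
            have : (0 : ℝ) ≤ (b : ℝ) + 1 := by positivity
            nlinarith
          nlinarith
        nlinarith
    have h4 : (R'.card : ℝ) ≤ (2 : ℝ) ^ ((q - 1) * N3 q * b) := by
      refine le_trans h1 (le_trans h2 ?_)
      rw [← Real.rpow_natCast]
      exact Real.rpow_le_rpow_of_exponent_le (by norm_num) h3
    exact_mod_cast h4
  have hmain := hb b hbb0 L hb1 hb3 k0 R' hcard
  refine le_trans ?_ hmain
  have hsub : ((Ico (k0 * 2 ^ L) ((k0 + 1) * 2 ^ L)).filter (fun n => (T^[L] n) % 2 ^ J' ∈ R L)) ⊆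
      ((Ico (k0 * 2 ^ L) ((k0 + 1) * 2 ^ L)).filter (fun n => (T^[L] n) % 2 ^ (q * N3 q * b) ∈ R')) := by
    intro n hn
    rw [← hP]
    rw [Finset.mem_filter] at hn ⊢
    refine ⟨hn.1, ?_⟩
    rw [hR', Finset.mem_image]
    refine ⟨_, hn.2, ?_⟩
    exact Int.emod_emod_of_dvd _ (pow_dvd_pow 2 hJ1)
  exact_mod_cast Finset.card_le_card hsub

/-- The integer `ℓ(n) = ⌊log_2 |n|⌋`. -/
theorem log_eq {L : ℕ} {n : ℤ} (h1 : 2 ^ L ≤ |n|) (h2 : |n| < 2 ^ (L + 1)) : Nat.log 2 n.natAbs = L := by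
  rw [← Int.natCast_natAbs] at h1 h2
  have h1' : 2 ^ L ≤ n.natAbs := by exact_mod_cast h1
  have h2' : n.natAbs < 2 ^ (L + 1) := by exact_mod_cast h2
  rw [Nat.log_eq_iff (Or.inr ⟨by norm_num, by have : 0 < 2 ^ L := by positivity
                                              omega⟩)]
  exact ⟨h1', h2'⟩

/-- (2a) -/
theorem entropy (κ : ℝ) (hκ : 0 < κ) : ∃ ε : ℝ, 0 < ε ∧ ε ≤ 1 ∧ ∀ R : ℕ → Finset ℤ,
    (∀ L : ℕ, ((R L).card : ℝ) ≤ (2 : ℝ) ^ ((1 - κ) * (⌊ε * L⌋₊ : ℝ))) →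
    DensityOne {n : ℤ | (T^[Nat.log 2 n.natAbs] n) % 2 ^ ⌊ε * (Nat.log 2 n.natAbs : ℝ)⌋₊ ∉ R (Nat.log 2 n.natAbs)} := by
  classical
  obtain ⟨ε, hε, hε1, h⟩ := block_entropy κ hκ
  refine ⟨ε, hε, hε1, ?_⟩
  intro R hR
  refine density_of_events (fun L n => (T^[L] n) % 2 ^ ⌊ε * (L : ℝ)⌋₊ ∉ R L) _ ⟨0, ?_⟩ ?_
  · intro L _ n h1 h2 hP
    have := log_eq h1 h2
    simp only [Set.mem_ofPred_eq, this]
    exact hP
  · intro δ hδ
    obtain ⟨L0, hL0⟩ := h R hR δ hδ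
    refine ⟨L0, ?_⟩
    intro L hL k0
    refine le_trans ?_ (hL0 L hL k0)
    have h3 : {n : ℤ | n ∈ Ico (k0 * 2 ^ L) ((k0 + 1) * 2 ^ L) ∧ ¬ (T^[L] n) % 2 ^ ⌊ε * (L : ℝ)⌋₊ ∉ R L} =
        ((Ico (k0 * 2 ^ L) ((k0 + 1) * 2 ^ L)).filter (fun n => (T^[L] n) % 2 ^ ⌊ε * L⌋₊ ∈ R L) : Set ℤ) := by
      ext n
      simp
    rw [h3, Set.ncard_coe_finset]

end Pool.Agent.MP81cdd9.HZ
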