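import Pool.Agent.Lib.MP_81cdd9_nt.HZ.G1
import Pool.Agent.Lib.MP_81cdd9_nt.HZ.G1b
import Pool.Agent.Lib.MP_81cdd9_nt.HZ.G5

/-! The law of large numbers for the parities after the horizon. -/

set_option autoImplicit false

namespace Pool.Agent.MP81cdd9.HZ

open Finset

/-- the residues modulo `2^J` whose window of `J` parities deviates from `J/2` by more than `δ J` -/
noncomputable def devR (δ : ℝ) (J : ℕ) : Finset ℤ :=
  (Ico (0 : ℤ) (2 ^ J)).filter (fun r => δ * J < |((par J r).card : ℝ) - J / 2|)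

theorem card_devR (δ : ℝ) (J : ℕ) : (devR δ J).card ≤
    ((range J).powerset.filter (fun S => δ * J < |(S.card : ℝ) - J / 2|)).card := by
  classical
  have h := transfer J 0 (fun S => δ * J < |(S.card : ℝ) - J / 2|)
  have h2 : Ico ((0 : ℤ) * 2 ^ J) ((0 + 1) * 2 ^ J) = Ico (0 : ℤ) (2 ^ J) := by
    rw [zero_mul, zero_add, one_mul]
  rw [h2] at h
  exact h

/-- (2b) for blocks -/
theorem parity_law (δ : ℝ) (hδ : 0 < δ) : ∃ ε : ℝ, 0 < ε ∧ ε ≤ 1 ∧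
    DensityOne {n : ℤ | |((par ⌊ε * (Nat.log 2 n.natAbs : ℝ)⌋₊ (T^[Nat.log 2 n.natAbs] n)).card : ℝ) -
      (⌊ε * (Nat.log 2 n.natAbs : ℝ)⌋₊ : ℝ) / 2| ≤ δ * (⌊ε * (Nat.log 2 n.natAbs : ℝ)⌋₊ : ℝ)} := by
  classical
  -- reduce to `δ < 1/2`
  obtain ⟨d, hd0, hd1, hdδ⟩ : ∃ d : ℝ, 0 < d ∧ d < 1 / 2 ∧ d ≤ δ := by
    refine ⟨min δ (1 / 4), lt_min hδ (by norm_num), ?_, min_le_left _ _⟩
    exact lt_of_le_of_lt (min_le_right _ _) (by norm_num)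
  obtain ⟨θ, hθ0, hθ1, hθ⟩ := dev_general d hd0 hd1
  -- κ with 2^(-κ) = sqrt θ
  have hlog : 0 < Real.log (1 / θ) := Real.log_pos (by rw [lt_div_iff₀ hθ0]; linarith)
  have hlog2 : 0 < Real.log 2 := Real.log_pos (by norm_num)
  set κ : ℝ := Real.log (1 / θ) / (2 * Real.log 2) with hκ
  have hκ0 : 0 < κ := by positivity
  obtain ⟨ε, hε, hε1, h⟩ := block_entropy κ hκ0
  refine ⟨ε, hε, hε1, ?_⟩
  -- the residues
  set R : ℕ → Finset ℤ := fun L =>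
    if ((devR d ⌊ε * (L : ℝ)⌋₊).card : ℝ) ≤ (2 : ℝ) ^ ((1 - κ) * (⌊ε * (L : ℝ)⌋₊ : ℝ)) then devR d ⌊ε * (L : ℝ)⌋₊ else ∅
    with hR
  have hcard : ∀ L : ℕ, ((R L).card : ℝ) ≤ (2 : ℝ) ^ ((1 - κ) * (⌊ε * (L : ℝ)⌋₊ : ℝ)) := by
    intro L
    simp only [hR]
    split_ifs with hc
    · exact hc
    · simp only [Finset.card_empty, Nat.cast_zero]
      positivity
  have hblk := h R hcard
  -- for large J the condition holds
  obtain ⟨J0, hJ0⟩ : ∃ J0 : ℕ, ∀ J ≥ J0, ((devR d J).card : ℝ) ≤ (2 : ℝ) ^ ((1 - κ) * (J : ℝ)) := by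
    have hs1 : Real.sqrt θ < 1 := by
      rw [Real.sqrt_lt' (by norm_num)]; simpa using hθ1
    have hs0 : 0 < Real.sqrt θ := Real.sqrt_pos.2 hθ0
    obtain ⟨J0, hJ0⟩ := exists_pow_lt_of_lt_one (show (0 : ℝ) < 1 / 2 by norm_num) hs1
    refine ⟨J0, ?_⟩
    intro J hJ
    have h1 : ((devR d J).card : ℝ) ≤ 2 * (θ ^ J * 2 ^ J) :=
      le_trans (by exact_mod_cast card_devR d J) (hθ J)
    have h2 : (2 : ℝ) ^ ((1 - κ) * (J : ℝ)) = 2 ^ J * (Real.sqrt θ) ^ J := by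
      have h3 : (2 : ℝ) ^ (-κ) = Real.sqrt θ := by
        rw [Real.sqrt_eq_rpow, Real.rpow_def_of_pos (by norm_num), Real.rpow_def_of_pos hθ0]
        congr 1
        rw [hκ, one_div, Real.log_inv]
        field_simp
      rw [show (1 - κ) * (J : ℝ) = (J : ℝ) + (-κ) * J by ring, Real.rpow_add (by norm_num), Real.rpow_natCast,
        Real.rpow_mul (by norm_num), h3, Real.rpow_natCast]
    rw [h2]
    refine le_trans h1 ?_
    have h4 : θ ^ J = (Real.sqrt θ) ^ J * (Real.sqrt θ) ^ J := by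
      rw [← mul_pow, Real.mul_self_sqrt hθ0.le]
    have h5 : (Real.sqrt θ) ^ J ≤ 1 / 2 :=
      le_trans (pow_le_pow_of_le_one hs0.le hs1.le hJ) hJ0.le
    rw [h4]
    have h6 : (0 : ℝ) ≤ (Real.sqrt θ) ^ J := by positivity
    have h7 : (0 : ℝ) < 2 ^ J := by positivity
    have h8 : 2 * ((Real.sqrt θ) ^ J * (Real.sqrt θ) ^ J) ≤ (Real.sqrt θ) ^ J := by nlinarith
    nlinarith
  obtain ⟨L1, hL1⟩ : ∃ L1 : ℕ, ∀ L ≥ L1, J0 ≤ ⌊ε * (L : ℝ)⌋₊ := by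
    obtain ⟨L1, hL1⟩ := exists_nat_gt ((J0 : ℝ) / ε)
    refine ⟨L1, ?_⟩
    intro L hL
    refine Nat.le_floor ?_
    have h1 : (J0 : ℝ) < L1 * ε := by rwa [div_lt_iff₀ hε] at hL1
    have h2 : (L1 : ℝ) ≤ L := by exact_mod_cast hL
    nlinarith
  refine density_of_events (fun L n => (T^[L] n) % 2 ^ ⌊ε * (L : ℝ)⌋₊ ∉ R L) _ ⟨L1, ?_⟩ ?_
  · intro L hL n h1 h2 hP
    have hlogn := log_eq h1 h2
    simp only [Set.mem_ofPred_eq, hlogn]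
    have hJL := hJ0 _ (hL1 L hL)
    have hRL : R L = devR d ⌊ε * (L : ℝ)⌋₊ := by
      simp only [hR]
      rw [if_pos hJL]
    rw [hRL] at hP
    have hp : (0 : ℤ) < 2 ^ ⌊ε * (L : ℝ)⌋₊ := by positivity
    have hnot : ¬ (d * (⌊ε * (L : ℝ)⌋₊ : ℝ) <
        |((par ⌊ε * (L : ℝ)⌋₊ ((T^[L] n) % 2 ^ ⌊ε * (L : ℝ)⌋₊)).card : ℝ) - (⌊ε * (L : ℝ)⌋₊ : ℝ) / 2|) := by
      intro hc
      refine hP ?_
      unfold devR
      rw [Finset.mem_filter, Finset.mem_Ico]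
      exact ⟨⟨Int.emod_nonneg _ hp.ne', Int.emod_lt_of_pos _ hp⟩, hc⟩
    rw [par_mod] at hnot
    push Not at hnot
    refine le_trans hnot ?_
    exact mul_le_mul_of_nonneg_right hdδ (Nat.cast_nonneg _)
  · intro δ' hδ'
    obtain ⟨L0, hL0⟩ := hblk δ' hδ'
    refine ⟨L0, ?_⟩
    intro L hL k0
    refine le_trans ?_ (hL0 L hL k0)
    have h3 : {n : ℤ | n ∈ Ico (k0 * 2 ^ L) ((k0 + 1) * 2 ^ L) ∧ ¬ (T^[L] n) % 2 ^ ⌊ε * (L : ℝ)⌋₊ ∉ R L} =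
        ((Ico (k0 * 2 ^ L) ((k0 + 1) * 2 ^ L)).filter (fun n => (T^[L] n) % 2 ^ ⌊ε * L⌋₊ ∈ R L) : Set ℤ) := by
      ext n
      simp
    rw [h3, Set.ncard_coe_finset]

end Pool.Agent.MP81cdd9.HZ
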