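import Pool.Agent.Lib.MP_81cdd9_nt.HZ.G1
import Pool.Agent.Lib.MP_81cdd9_nt.HZ.G1b
import Pool.Agent.Lib.MP_81cdd9_nt.HZ.G2
import Pool.Agent.Lib.MP_81cdd9_nt.HZ.G2b
import Pool.Agent.Lib.MP_81cdd9_nt.HZ.G5

/-! Growth beyond the horizon. -/

set_option autoImplicit false

namespace Pool.Agent.MP81cdd9.HZ

open Finset

private theorem G7_five_two (n : ℕ) : 2 ^ (44 * n) ≤ 5 ^ (19 * n) := by
  rw [pow_mul, pow_mul]
  exact Nat.pow_le_pow_left (by norm_num) n

/-- the limit for (C1) -/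
private theorem G7_lim (δ : ℝ) (hδ : 0 < δ) : ∃ L0 : ℕ, ∀ L ≥ L0, ((L / 2 : ℕ) : ℝ) * q1 ^ (L / 1000) ≤ δ := by
  have hq := q1_lt
  have h1 := tendsto_self_mul_const_pow_of_lt_one hq.1.le hq.2
  have h2 : Filter.Tendsto (fun m : ℕ => 1000 * ((m : ℝ) * q1 ^ m) + 1000 * q1 ^ m) Filter.atTop (nhds 0) := by
    have h3 := (h1.const_mul 1000).add ((tendsto_pow_atTop_nhds_zero_of_lt_one hq.1.le hq.2).const_mul 1000)
    simpa using h3
  have h4 := (h2.eventually (gt_mem_nhds hδ))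
  obtain ⟨m0, hm0⟩ := Filter.eventually_atTop.1 h4
  refine ⟨1000 * m0, ?_⟩
  intro L hL
  have h5 : m0 ≤ L / 1000 := (Nat.le_div_iff_mul_le (by norm_num)).2 (by omega)
  have h6 := hm0 _ h5
  have h7 : ((L / 2 : ℕ) : ℝ) ≤ 1000 * ((L / 1000 : ℕ) : ℝ) + 1000 := by
    have : L / 2 ≤ 1000 * (L / 1000) + 1000 := by omega
    exact_mod_cast this
  have h8 : (0 : ℝ) ≤ q1 ^ (L / 1000) := pow_nonneg hq.1.le _
  nlinarith

/-- (1) -/
theorem growth_density : ∃ c : ℝ, 0 < c ∧ DensityOne {n : ℤ | ∃ k : ℕ, k ≤ 2 * Nat.log 2 n.natAbs ∧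
    |(n : ℝ)| ^ (Real.log 5 / (2 * Real.log 2) + c) ≤ |((T^[k] n : ℤ) : ℝ)|} := by
  classical
  obtain ⟨C, hC1, hCq, hC⟩ := core 100 (by norm_num)
  -- J = 100 * N3 100 * b = 1600 * (300 ρ^2 b)
  obtain ⟨r, hr⟩ : ∃ r : ℕ, r = rh 100 := ⟨_, rfl⟩
  have hr1 : 1 ≤ r := by rw [hr]; unfold rh; omega
  have hN3 : N3 100 = 4800 * r ^ 2 := by rw [hr]; rfl
  obtain ⟨P, hP⟩ : ∃ P : ℕ, P = 300 * r ^ 2 := ⟨_, rfl⟩
  have hP1 : 1 ≤ P := by
    rw [hP]
    have : 0 < 300 * r ^ 2 := by positivity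
    omega
  have hJP : ∀ b : ℕ, 100 * N3 100 * b = 1600 * (P * b) := by
    intro b; rw [hN3, hP]; ring
  have hJQ : ∀ b : ℕ, (100 - 1) * N3 100 * b = 1584 * (P * b) := by
    intro b; rw [hN3, hP]; ring
  have hCP : 160000 * P ≤ C := by
    have h1 := hJP 1
    omega
  have hC0 : (0 : ℝ) < C := by exact_mod_cast hC1
  have hP0 : (0 : ℝ) < P := by exact_mod_cast hP1
  have hCPr : 160000 * (P : ℝ) ≤ C := by exact_mod_cast hCP
  -- the constant e
  obtain ⟨e, he⟩ : ∃ e : ℝ, e = 800 * P / C := ⟨_, rfl⟩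
  have he0 : 0 < e := by rw [he]; positivity
  have he1 : e ≤ 1 := by rw [he, div_le_one hC0]; linarith
  have heC : e * C = 800 * P := by rw [he]; field_simp
  obtain ⟨θ, hθ0, hθ1, hθ⟩ := few_general (e / 400) (by positivity) (by linarith)
  refine ⟨e / 400, by positivity, ?_⟩
  obtain ⟨L1, hL1⟩ := exists_nat_gt (1000 / e)
  refine density_of_events (fun L n => C1 (par L n) (L / 1000) (L / 2) ∧
    ¬ (((par L n).card : ℝ) ≤ (1 / 2 - e / 400) * L) ∧
    (T^[L] n) % 2 ^ (1600 * (P * (L / C))) ∉ fewR (P * (L / C))) _ ⟨max L1 (max (2 * C) 1000), ?_⟩ ?_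
  · intro L hL n hn1 hn2 hPn
    obtain ⟨hA, hB, hD⟩ := hPn
    have hLL1 : L1 ≤ L := le_trans (le_max_left _ _) hL
    have hLC : 2 * C ≤ L := le_trans (le_trans (le_max_left _ _) (le_max_right _ _)) hL
    have hL1000 : 1000 ≤ L := le_trans (le_trans (le_max_right _ _) (le_max_right _ _)) hL
    have hlogn := log_eq hn1 hn2
    obtain ⟨b, hb⟩ : ∃ b : ℕ, b = L / C := ⟨_, rfl⟩
    rw [← hb] at hD
    have hb1 : C * b ≤ L := by rw [hb]; exact Nat.mul_div_le L C
    have hb2 : L < C * (b + 1) := by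
      rw [hb]
      exact Nat.lt_mul_div_succ L (by omega)
    have hb0 : 1 ≤ b := by
      rw [hb]
      exact (Nat.le_div_iff_mul_le (by omega)).2 (by omega)
    obtain ⟨J, hJ⟩ : ∃ J : ℕ, J = 1600 * (P * b) := ⟨_, rfl⟩
    rw [← hJ] at hD
    have hJL : 100 * J ≤ L := by
      have h1 : 160000 * P * b ≤ C * b := Nat.mul_le_mul_right _ hCP
      have h2 : 100 * J = 160000 * P * b := by rw [hJ]; ring
      omega
    -- the window
    have hp : (0 : ℤ) < 2 ^ J := by positivity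
    have hwin : 700 * (P * b) < (par J (T^[L] n)).card := by
      by_contra hc
      push Not at hc
      refine hD ?_
      unfold fewR
      rw [Finset.mem_filter, Finset.mem_Ico, ← hJ]
      refine ⟨⟨Int.emod_nonneg _ hp.ne', Int.emod_lt_of_pos _ hp⟩, ?_⟩
      rw [par_mod]
      exact hc
    push Not at hB
    -- 5^card is large
    have hcard : 2 ^ (L + J + 2) ≤ 5 ^ (par L n).card := by
      have h1 : (398 : ℝ) / 800 * L < (par L n).card := by
        have h2 : (398 : ℝ) / 800 * L ≤ (1 / 2 - e / 400) * L := by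
          have : (0 : ℝ) ≤ L := by positivity
          nlinarith
        linarith
      have h3 : 398 * L < 800 * (par L n).card := by
        have : (398 : ℝ) * L < 800 * (par L n).card := by linarith
        exact_mod_cast this
      obtain ⟨a, ha⟩ : ∃ a : ℕ, a = (par L n).card := ⟨_, rfl⟩
      rw [← ha] at h3 ⊢
      have h4 : L + J + 2 ≤ 44 * (a / 19) := by omega
      calc 2 ^ (L + J + 2) ≤ 2 ^ (44 * (a / 19)) := Nat.pow_le_pow_right (by norm_num) h4
        _ ≤ 5 ^ (19 * (a / 19)) := G7_five_two _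
        _ ≤ 5 ^ a := Nat.pow_le_pow_right (by norm_num) (Nat.mul_div_le a 19)
    have hcardZ : (2 : ℤ) ^ (L + J + 2) ≤ 5 ^ (par L n).card := by exact_mod_cast hcard
    -- |n| is large
    have hnbig : 2 * ((L : ℤ) * 2 ^ (40 * (L / 1000))) ≤ |n| := by
      refine le_trans ?_ hn1
      have h1 : L / 2 < 2 ^ (L / 2) := Nat.lt_two_pow_self
      have h2 : 2 * (L * 2 ^ (40 * (L / 1000))) ≤ 2 ^ L := by
        have h3 : 2 * L ≤ 2 ^ (L / 2 + 3) := by
          rw [pow_add]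
          omega
        calc 2 * (L * 2 ^ (40 * (L / 1000))) = (2 * L) * 2 ^ (40 * (L / 1000)) := by ring
          _ ≤ 2 ^ (L / 2 + 3) * 2 ^ (40 * (L / 1000)) := Nat.mul_le_mul_right _ h3
          _ = 2 ^ (L / 2 + 3 + 40 * (L / 1000)) := by rw [← pow_add]
          _ ≤ 2 ^ L := Nat.pow_le_pow_right (by norm_num) (by omega)
      exact_mod_cast h2
    have hn1' : 1 ≤ |n| := le_trans (one_le_pow₀ (by norm_num)) hn1
    have hgr := growth (L / 1000) L J n (by omega) hA hnbig hn1' hcard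
    -- real numbers
    have hgrR : (5 : ℝ) ^ ((par L n).card + (par J (T^[L] n)).card) * |(n : ℝ)| ≤
        2 ^ (L + J + 2) * |((T^[L + J] n : ℤ) : ℝ)| := by
      have := (Int.cast_le (R := ℝ)).2 hgr
      push_cast at this
      exact this
    simp only [Set.mem_ofPred_eq]
    refine ⟨L + J, ?_, ?_⟩
    · rw [hlogn]; omega
    · refine exponent e _ _ he0 he1 L J (par L n).card (par J (T^[L] n)).card ?_ ?_ hB.le ?_ ?_ ?_ hgrR
      · have h1 : (L1 : ℝ) ≤ L := by exact_mod_cast hLL1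
        have h2 : 1000 / e < L := lt_of_lt_of_le hL1 h1
        rw [div_lt_iff₀ he0] at h2
        linarith
      · have h1 : (L : ℝ) ≤ C * (2 * b) := by
          have : L ≤ C * (2 * b) := by nlinarith
          exact_mod_cast this
        have h2 : (J : ℝ) = 1600 * (P * b) := by rw [hJ]; push_cast; ring
        rw [h2]
        have h3 : e * (L : ℝ) ≤ e * (C * (2 * b)) := mul_le_mul_of_nonneg_left h1 he0.le
        have h4 : e * ((C : ℝ) * (2 * b)) = 1600 * (P * b) := by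
          calc e * ((C : ℝ) * (2 * b)) = (e * C) * (2 * b) := by ring
            _ = 1600 * (P * b) := by rw [heC]; ring
        linarith
      · have h1 : 7 * J ≤ 16 * (par J (T^[L] n)).card := by
          have : 7 * J = 16 * (700 * (P * b)) := by rw [hJ]; ring
          omega
        exact_mod_cast h1
      · have := (Int.cast_le (R := ℝ)).2 hn1
        push_cast at this
        exact this
      · have := (Int.cast_le (R := ℝ)).2 hn2.le
        push_cast at this
        exact this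
  · intro δ hδ
    obtain ⟨A1, hA1⟩ := G7_lim (δ / 3) (by positivity)
    obtain ⟨A2, hA2⟩ := exists_pow_lt_of_lt_one (show (0 : ℝ) < δ / 3 by positivity) hθ1
    obtain ⟨b0, hb0, hb⟩ := hC (δ / 3) (by positivity)
    refine ⟨max (max A1 A2) (max (C * b0) 1000), ?_⟩
    intro L hL k0
    have hLA1 : A1 ≤ L := le_trans (le_trans (le_max_left _ _) (le_max_left _ _)) hL
    have hLA2 : A2 ≤ L := le_trans (le_trans (le_max_right _ _) (le_max_left _ _)) hL
    have hLb : C * b0 ≤ L := le_trans (le_trans (le_max_left _ _) (le_max_right _ _)) hL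
    have hL1000 : 1000 ≤ L := le_trans (le_trans (le_max_right _ _) (le_max_right _ _)) hL
    obtain ⟨b, hbd⟩ : ∃ b : ℕ, b = L / C := ⟨_, rfl⟩
    rw [← hbd]
    have hb1 : C * b ≤ L := by rw [hbd]; exact Nat.mul_div_le L C
    have hb2 : L < C * (b + 1) := by
      rw [hbd]
      exact Nat.lt_mul_div_succ L (by omega)
    have hbb : b0 ≤ b := by
      rw [hbd]
      exact (Nat.le_div_iff_mul_le (by omega)).2 (by rw [mul_comm]; exact hLb)
    have hb3 : L ≤ 3 * (C * b) := by nlinarith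
    have h2L : (0 : ℝ) < 2 ^ L := by positivity
    -- three exceptional sets
    have e1 : (((Ico (k0 * 2 ^ L) ((k0 + 1) * 2 ^ L)).filter
        (fun n => ¬ C1 (par L n) (L / 1000) (L / 2))).card : ℝ) ≤ δ / 3 * 2 ^ L := by
      have h1 := transfer L k0 (fun S => ¬ C1 S (L / 1000) (L / 2))
      have h2 := card_notC1 L (L / 2) (L / 1000) (by omega) (by omega)
      have h3 := hA1 L hLA1
      calc (((Ico (k0 * 2 ^ L) ((k0 + 1) * 2 ^ L)).filter
        (fun n => ¬ C1 (par L n) (L / 1000) (L / 2))).card : ℝ)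
          ≤ (((range L).powerset.filter (fun S => ¬ C1 S (L / 1000) (L / 2))).card : ℝ) := by exact_mod_cast h1
        _ ≤ ((L / 2 : ℕ) : ℝ) * (q1 ^ (L / 1000) * 2 ^ L) := h2
        _ = (((L / 2 : ℕ) : ℝ) * q1 ^ (L / 1000)) * 2 ^ L := by ring
        _ ≤ δ / 3 * 2 ^ L := mul_le_mul_of_nonneg_right h3 h2L.le
    have e2 : (((Ico (k0 * 2 ^ L) ((k0 + 1) * 2 ^ L)).filter
        (fun n => ((par L n).card : ℝ) ≤ (1 / 2 - e / 400) * L)).card : ℝ) ≤ δ / 3 * 2 ^ L := by
      have h1 := transfer L k0 (fun S => (S.card : ℝ) ≤ (1 / 2 - e / 400) * L)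
      calc (((Ico (k0 * 2 ^ L) ((k0 + 1) * 2 ^ L)).filter
        (fun n => ((par L n).card : ℝ) ≤ (1 / 2 - e / 400) * L)).card : ℝ)
          ≤ (((range L).powerset.filter (fun S => (S.card : ℝ) ≤ (1 / 2 - e / 400) * L)).card : ℝ) := by
            exact_mod_cast h1
        _ ≤ θ ^ L * 2 ^ L := hθ L
        _ ≤ δ / 3 * 2 ^ L := by
          refine mul_le_mul_of_nonneg_right ?_ h2L.le
          exact le_trans (pow_le_pow_of_le_one hθ0.le hθ1.le hLA2) hA2.le
    have e3 : (((Ico (k0 * 2 ^ L) ((k0 + 1) * 2 ^ L)).filter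
        (fun n => (T^[L] n) % 2 ^ (1600 * (P * b)) ∈ fewR (P * b))).card : ℝ) ≤ δ / 3 * 2 ^ L := by
      have h1 := hb b hbb L hb1 hb3 k0 (fewR (P * b)) (by rw [hJQ]; exact card_fewR _)
      rw [hJP] at h1
      exact h1
    have hsub : {n : ℤ | n ∈ Ico (k0 * 2 ^ L) ((k0 + 1) * 2 ^ L) ∧
        ¬ (C1 (par L n) (L / 1000) (L / 2) ∧ ¬ (((par L n).card : ℝ) ≤ (1 / 2 - e / 400) * L) ∧
          (T^[L] n) % 2 ^ (1600 * (P * b)) ∉ fewR (P * b))} ⊆
        ((((Ico (k0 * 2 ^ L) ((k0 + 1) * 2 ^ L)).filter (fun n => ¬ C1 (par L n) (L / 1000) (L / 2))) ∪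
          ((Ico (k0 * 2 ^ L) ((k0 + 1) * 2 ^ L)).filter
            (fun n => ((par L n).card : ℝ) ≤ (1 / 2 - e / 400) * L)) ∪
          ((Ico (k0 * 2 ^ L) ((k0 + 1) * 2 ^ L)).filter
            (fun n => (T^[L] n) % 2 ^ (1600 * (P * b)) ∈ fewR (P * b))) : Finset ℤ) : Set ℤ) := by
      intro n hn
      simp only [Set.mem_ofPred_eq] at hn
      simp only [Finset.coe_union, Finset.coe_filter, Set.mem_union, Set.mem_ofPred_eq]
      by_cases c1 : C1 (par L n) (L / 1000) (L / 2)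
      · by_cases c2 : ((par L n).card : ℝ) ≤ (1 / 2 - e / 400) * L
        · exact Or.inl (Or.inr ⟨hn.1, c2⟩)
        · by_cases c3 : (T^[L] n) % 2 ^ (1600 * (P * b)) ∈ fewR (P * b)
          · exact Or.inr ⟨hn.1, c3⟩
          · exact absurd ⟨c1, c2, c3⟩ hn.2
      · exact Or.inl (Or.inl ⟨hn.1, c1⟩)
    have hle := Set.ncard_le_ncard hsub (Finset.finite_toSet _)
    rw [Set.ncard_coe_finset] at hle
    have hle2 := le_trans hle (le_trans (Finset.card_union_le _ _)
      (Nat.add_le_add_right (Finset.card_union_le _ _) _))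
    have hle3 := (Nat.cast_le (α := ℝ)).2 hle2
    push_cast at hle3
    linarith

end Pool.Agent.MP81cdd9.HZ
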