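import Pool.Agent.Lib.MP_81cdd9_nt.HZ.G6

/-! The entropy theorem for parity words. -/

set_option autoImplicit false

namespace Pool.Agent.MP81cdd9.HZ

open Finset

/-- The parity words of the window after the horizon avoid any thin family of words. -/
theorem word_entropy (κ : ℝ) (hκ : 0 < κ) : ∃ ε : ℝ, 0 < ε ∧ ε ≤ 1 ∧ ∀ W : ℕ → Finset (Finset ℕ),
    (∀ L : ℕ, ((W L).card : ℝ) ≤ (2 : ℝ) ^ ((1 - κ) * (⌊ε * L⌋₊ : ℝ))) →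
    DensityOne {n : ℤ | par ⌊ε * (Nat.log 2 n.natAbs : ℝ)⌋₊ (T^[Nat.log 2 n.natAbs] n) ∉ W (Nat.log 2 n.natAbs)} := by
  classical
  obtain ⟨ε, hε, hε1, h⟩ := entropy κ hκ
  refine ⟨ε, hε, hε1, ?_⟩
  intro W hW
  set R : ℕ → Finset ℤ := fun L =>
    (Ico (0 : ℤ) (2 ^ ⌊ε * (L : ℝ)⌋₊)).filter (fun r => par ⌊ε * (L : ℝ)⌋₊ r ∈ W L) with hR
  have hcard : ∀ L : ℕ, ((R L).card : ℝ) ≤ (2 : ℝ) ^ ((1 - κ) * (⌊ε * (L : ℝ)⌋₊ : ℝ)) := by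
    intro L
    refine le_trans ?_ (hW L)
    have h1 := transfer ⌊ε * (L : ℝ)⌋₊ 0 (fun S => S ∈ W L)
    have h2 : Ico ((0 : ℤ) * 2 ^ ⌊ε * (L : ℝ)⌋₊) ((0 + 1) * 2 ^ ⌊ε * (L : ℝ)⌋₊) = Ico (0 : ℤ) (2 ^ ⌊ε * (L : ℝ)⌋₊) := by
      rw [zero_mul, zero_add, one_mul]
    rw [h2] at h1
    have h3 : ((range ⌊ε * (L : ℝ)⌋₊).powerset.filter (fun S => S ∈ W L)).card ≤ (W L).card := by
      refine Finset.card_le_card ?_
      intro S hS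
      exact (Finset.mem_filter.1 hS).2
    exact_mod_cast le_trans h1 h3
  have hd := h R hcard
  have hset : {n : ℤ | (T^[Nat.log 2 n.natAbs] n) % 2 ^ ⌊ε * (Nat.log 2 n.natAbs : ℝ)⌋₊ ∉ R (Nat.log 2 n.natAbs)} =
      {n : ℤ | par ⌊ε * (Nat.log 2 n.natAbs : ℝ)⌋₊ (T^[Nat.log 2 n.natAbs] n) ∉ W (Nat.log 2 n.natAbs)} := by
    ext n
    simp only [Set.mem_ofPred_eq, hR]
    have hp : (0 : ℤ) < 2 ^ ⌊ε * (Nat.log 2 n.natAbs : ℝ)⌋₊ := by positivity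
    rw [Finset.mem_filter, Finset.mem_Ico, par_mod]
    constructor
    · intro h1 h2
      exact h1 ⟨⟨Int.emod_nonneg _ hp.ne', Int.emod_lt_of_pos _ hp⟩, h2⟩
    · intro h1 h2
      exact h1 h2.2
  rw [hset] at hd
  exact hd

end Pool.Agent.MP81cdd9.HZ
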