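import Mathlib

/-! The core theorem. -/

set_option autoImplicit false

namespace Pool.Agent.MP81cdd9.HZ

open Finset

/-- number of cells in a block -/
def N0 (q : ℕ) : ℕ := 120 * q

/-- the parameter `ρ` -/
def rh (q : ℕ) : ℕ := 10 * (N0 q + 2)

/-- `J = q * N3 q * b` -/
def N3 (q : ℕ) : ℕ := 4800 * rh q ^ 2

end Pool.Agent.MP81cdd9.HZ
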